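import Mathlib

/-!
The points with `|q - 1| ≥ 1` and `|q - 2| ≥ 1` lie in the dominance region.
-/

namespace H37.Chrom

/-- an elementary inequality -/
lemma poly_ineq {R t : ℝ} (h0 : 0 ≤ t) (h3 : t ≤ 3) :
    R * (3 - t) ^ 2 < 5 * R ^ 2 - 7 * R * t + 3 * t ^ 2 - 2 * R - 3 * t + 9 := by
  have hg : t ^ 4 + 2 * t ^ 3 - 37 * t ^ 2 + 82 * t - 59 < 0 := by
    rcases le_total t 1 with h1 | h1
    · nlinarith [mul_nonneg h0 (sub_nonneg.2 h1), sq_nonneg (t - 1), mul_nonneg (mul_nonneg h0 h0) (sub_nonneg.2 h1), mul_nonneg (mul_nonneg (mul_nonneg h0 h0) h0) (sub_nonneg.2 h1)]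
    · nlinarith [mul_nonneg (sub_nonneg.2 h1) (sub_nonneg.2 h3), sq_nonneg (t - 1.4), sq_nonneg (t - 2), sq_nonneg (t^2 - 2 * t), mul_nonneg (mul_nonneg (sub_nonneg.2 h1) (sub_nonneg.2 h3)) h0]
  nlinarith [sq_nonneg (10 * R - (t ^ 2 + t + 11))]

lemma normSq_c (a : ℂ) : Complex.normSq (a ^ 2 + a + 3) =
    5 * Complex.normSq a ^ 2 - 7 * Complex.normSq a * (Complex.normSq (a - 1) - 1) +
      3 * (Complex.normSq (a - 1) - 1) ^ 2 - 2 * Complex.normSq a -
      3 * (Complex.normSq (a - 1) - 1) + 9 := by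
  simp only [Complex.normSq_apply, pow_two, Complex.add_re, Complex.add_im, Complex.mul_re,
    Complex.mul_im, Complex.sub_re, Complex.sub_im, Complex.one_re, Complex.one_im,
    Complex.re_ofNat, Complex.im_ofNat]
  ring

lemma normSq_b (a : ℂ) : Complex.normSq (a ^ 2 - 3 * a + 3) =
    Complex.normSq a ^ 2 - 3 * Complex.normSq a * (Complex.normSq (a - 1) - 1) +
      3 * (Complex.normSq (a - 1) - 1) ^ 2 - 6 * Complex.normSq a +
      9 * (Complex.normSq (a - 1) - 1) + 9 := by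
  simp only [Complex.normSq_apply, pow_two, Complex.add_re, Complex.add_im, Complex.mul_re,
    Complex.mul_im, Complex.sub_re, Complex.sub_im, Complex.one_re, Complex.one_im,
    Complex.re_ofNat, Complex.im_ofNat]
  ring

lemma normSq_dom (a : ℂ) :
    (Complex.normSq a - (Complex.normSq (a - 1) - 1)) ^ 2 ≤ 4 * Complex.normSq a := by
  have h : (Complex.normSq a - (Complex.normSq (a - 1) - 1)) = 2 * a.re := by
    simp only [Complex.normSq_apply, Complex.sub_re, Complex.sub_im, Complex.one_re,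
      Complex.one_im]
    ring
  rw [h, Complex.normSq_apply]
  nlinarith [mul_self_nonneg a.im]

lemma b_bound {R t : ℝ} (hR : 1 ≤ R) (h0 : 0 ≤ t) (h1 : t ≤ 1) (hd : (R - t) ^ 2 ≤ 4 * R) :
    R ^ 2 - 3 * R * t + 3 * t ^ 2 - 6 * R + 9 * t + 9 ≤ 4 * (1 + t) ^ 2 * R := by
  have hR9 : R ≤ 9 := by nlinarith
  nlinarith [mul_nonneg (sub_nonneg.2 hR) (sub_nonneg.2 hR9), mul_nonneg h0 (sub_nonneg.2 hR),
    mul_nonneg (mul_nonneg h0 h0) (sub_nonneg.2 hR), mul_nonneg h0 (sub_nonneg.2 h1)]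

/-- dominance holds outside the two unit discs -/
theorem dominance {a w : ℂ} (h1 : 1 ≤ ‖a‖) (h2 : 1 ≤ ‖a - 1‖) (hw : 1 ≤ ‖w‖)
    (he : w + w⁻¹ = a - 1 + 3 / a) : ‖w - 1‖ < ‖a - 1‖ * ‖w‖ := by
  by_contra hcon
  push Not at hcon
  have ha : a ≠ 0 := by
    rintro rfl
    simp at h1
    linarith
  have hw0 : w ≠ 0 := by
    rintro rfl
    simp at hw
    linarith
  set A := ‖a‖ with hA
  set ρ := ‖w‖ with hρ
  set r := ‖a - 1‖ ^ 2 with hr
  set b := ‖a ^ 2 - 3 * a + 3‖ with hb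
  set c := ‖a ^ 2 + a + 3‖ with hc
  set P := ‖w - 1‖ ^ 2 with hP
  set Q := ‖w + 1‖ ^ 2 with hQ
  have hr1 : 1 ≤ r := by nlinarith
  have hb0 : 0 ≤ b := norm_nonneg _
  have hc0 : 0 ≤ c := norm_nonneg _
  have e1 : (w - 1) ^ 2 * a = w * (a ^ 2 - 3 * a + 3) := by
    field_simp at he
    linear_combination he
  have e2 : (w + 1) ^ 2 * a = w * (a ^ 2 + a + 3) := by
    field_simp at he
    linear_combination he
  have n1 : P * A = ρ * b := by
    rw [hP, hA, hρ, hb, ← norm_pow, ← norm_mul, ← norm_mul, e1]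
  have n2 : Q * A = ρ * c := by
    rw [hQ, hA, hρ, hc, ← norm_pow, ← norm_mul, ← norm_mul, e2]
  have n3 : P + Q = 2 * ρ ^ 2 + 2 := by
    rw [hP, hQ, hρ, ← Complex.normSq_eq_norm_sq, ← Complex.normSq_eq_norm_sq,
      ← Complex.normSq_eq_norm_sq, Complex.normSq_apply, Complex.normSq_apply,
      Complex.normSq_apply]
    simp only [Complex.add_re, Complex.add_im, Complex.sub_re, Complex.sub_im, Complex.one_re,
      Complex.one_im]
    ring
  have n4 : r * ρ ^ 2 ≤ P := by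
    rw [hr, hP, ← mul_pow]
    exact pow_le_pow_left₀ (by positivity) hcon 2
  have hA2 : Complex.normSq a = A ^ 2 := Complex.normSq_eq_norm_sq a
  have hr2 : Complex.normSq (a - 1) = r := Complex.normSq_eq_norm_sq _
  have hb2 : b ^ 2 = (A ^ 2) ^ 2 - 3 * A ^ 2 * (r - 1) + 3 * (r - 1) ^ 2 - 6 * A ^ 2 +
      9 * (r - 1) + 9 := by
    have := normSq_b a
    rw [Complex.normSq_eq_norm_sq (a ^ 2 - 3 * a + 3), hA2, hr2] at this
    exact this
  have hc2 : c ^ 2 = 5 * (A ^ 2) ^ 2 - 7 * A ^ 2 * (r - 1) + 3 * (r - 1) ^ 2 - 2 * A ^ 2 -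
      3 * (r - 1) + 9 := by
    have := normSq_c a
    rw [Complex.normSq_eq_norm_sq (a ^ 2 + a + 3), hA2, hr2] at this
    exact this
  have hdom : (A ^ 2 - (r - 1)) ^ 2 ≤ 4 * A ^ 2 := by
    have := normSq_dom a
    rw [hA2, hr2] at this
    exact this
  -- the main inequality
  have hI : A * (4 - r) < c := by
    rcases le_or_gt r 4 with h4 | h4
    · have := poly_ineq (R := A ^ 2) (t := r - 1) (by linarith) (by linarith)
      have h5 : (A * (4 - r)) ^ 2 < c ^ 2 := by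
        rw [hc2]
        have e : (A * (4 - r)) ^ 2 = A ^ 2 * (3 - (r - 1)) ^ 2 := by ring
        rw [e]
        exact this
      exact lt_of_pow_lt_pow_left₀ 2 hc0 h5
    · have : A * (4 - r) < 0 := mul_neg_of_pos_of_neg (by linarith) (by linarith)
      linarith
  have hQ1 : ρ * (4 - r) < Q := by
    have h5 : ρ * (A * (4 - r)) < ρ * c := mul_lt_mul_of_pos_left hI (by linarith)
    rw [← n2] at h5
    have h6 : (ρ * (4 - r)) * A < Q * A := by linarith
    exact lt_of_mul_lt_mul_right h6 (by linarith)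
  have hQ2 : Q ≤ 2 * ρ ^ 2 + 2 - r * ρ ^ 2 := by linarith
  have h7 : 0 < (ρ - 1) * (2 * (ρ - 1) - r * ρ) := by nlinarith
  have h8 : 1 < ρ := by
    rcases hw.lt_or_eq with h | h
    · exact h
    · rw [← h] at h7
      simp at h7
  have h9 : 0 < 2 * (ρ - 1) - r * ρ := by
    by_contra h
    push Not at h
    have := mul_nonneg (by linarith : (0 : ℝ) ≤ ρ - 1) (neg_nonneg.2 h)
    linarith
  have h10 : r < 2 := by
    by_contra h
    push Not at h
    nlinarith
  have h11 : 2 < ρ := by nlinarith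
  have hbb := b_bound (R := A ^ 2) (t := r - 1) (by nlinarith) (by linarith) (by linarith) hdom
  rw [← hb2] at hbb
  have h12 : r * ρ * A ≤ b := by
    have h13 : ρ * (r * ρ * A) ≤ ρ * b := by
      rw [← n1]
      have := mul_le_mul_of_nonneg_right n4 (by linarith : 0 ≤ A)
      linarith
    exact le_of_mul_le_mul_left h13 (by linarith)
  have h14 : 2 * r * A < b := by
    have : 2 * (r * A) < ρ * (r * A) := mul_lt_mul_of_pos_right h11 (by positivity)
    linarith
  have h15 : (2 * r * A) ^ 2 < b ^ 2 := pow_lt_pow_left₀ h14 (by positivity) two_ne_zero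
  have h16 : (2 * r * A) ^ 2 = 4 * (1 + (r - 1)) ^ 2 * A ^ 2 := by ring
  linarith

end H37.Chrom
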