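import Pool.Agent.H37.Chrom.Branch
import Pool.Agent.H37.Chrom.Contain

/-!
The closure of the set of chromatic roots of 3-connected planar graphs contains the complement of
the two open discs of radius one around 1 and 2.
-/

namespace H37.Chrom

open Metric Set Filter Topology

/-- every complex number is of the form `w + 1/w` with `|w| ≥ 1` -/
lemma exists_w (T : ℂ) : ∃ w : ℂ, 1 ≤ ‖w‖ ∧ w + w⁻¹ = T := by
  obtain ⟨s, hs⟩ : ∃ s : ℂ, s ^ 2 = T ^ 2 - 4 := IsAlgClosed.exists_pow_nat_eq _ two_pos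
  have hprod : (T + s) / 2 * ((T - s) / 2) = 1 := by linear_combination -(1 / 4 : ℂ) * hs
  have h1 : (T + s) / 2 ≠ 0 := left_ne_zero_of_mul_eq_one hprod
  have h2 : (T - s) / 2 ≠ 0 := right_ne_zero_of_mul_eq_one hprod
  have hn : ‖(T + s) / 2‖ * ‖(T - s) / 2‖ = 1 := by rw [← norm_mul, hprod, norm_one]
  rcases le_or_gt 1 ‖(T + s) / 2‖ with h | h
  · refine ⟨(T + s) / 2, h, ?_⟩
    rw [← eq_inv_of_mul_eq_one_right hprod]
    ring
  · have h3 : 1 ≤ ‖(T - s) / 2‖ := by
      by_contra hcon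
      push Not at hcon
      have : ‖(T + s) / 2‖ * ‖(T - s) / 2‖ < 1 :=
        mul_lt_one_of_nonneg_of_lt_one_left (norm_nonneg _) h hcon.le
      linarith
    refine ⟨(T - s) / 2, h3, ?_⟩
    rw [← eq_inv_of_mul_eq_one_left hprod]
    ring

/-- if `w + 1/w` is not real then `|w| ≠ 1` -/
lemma norm_ne_one {w T : ℂ} (h : w + w⁻¹ = T) (hT : T.im ≠ 0) : ‖w‖ ≠ 1 := by
  intro h1
  apply hT
  rw [← h, Complex.add_im, Complex.inv_im, Complex.normSq_eq_norm_sq, h1]
  ring

lemma im_T (a : ℂ) (ha : a ≠ 0) : (a - 1 + 3 / a).im = a.im * (1 - 3 / Complex.normSq a) := by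
  have h : Complex.normSq a ≠ 0 := fun h => ha (Complex.normSq_eq_zero.1 h)
  rw [Complex.add_im, Complex.sub_im, Complex.one_im, Complex.div_im]
  simp only [Complex.re_ofNat, Complex.im_ofNat]
  field_simp
  ring

/-- good points are dense -/
lemma exists_good {a : ℂ} (h1 : 1 ≤ ‖a‖) (h2 : 1 ≤ ‖a - 1‖) {ε : ℝ} (hε : 0 < ε) :
    ∃ b : ℂ, ‖b - a‖ < ε ∧ 1 ≤ ‖b‖ ∧ 1 ≤ ‖b - 1‖ ∧ (b - 1 + 3 / b).im ≠ 0 := by
  obtain ⟨s, hs, hs2⟩ : ∃ s : ℝ, (s = 1 ∨ s = -1) ∧ 0 ≤ s * a.im := by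
    rcases le_total 0 a.im with h | h
    · exact ⟨1, Or.inl rfl, by linarith⟩
    · exact ⟨-1, Or.inr rfl, by linarith⟩
  have hs3 : s ^ 2 = 1 := by rcases hs with rfl | rfl <;> norm_num
  have key : ∀ δ : ℝ, 0 < δ → δ < ε → (Complex.normSq a + 2 * δ * (s * a.im) + δ ^ 2 ≠ 3) →
      ∃ b : ℂ, ‖b - a‖ < ε ∧ 1 ≤ ‖b‖ ∧ 1 ≤ ‖b - 1‖ ∧ (b - 1 + 3 / b).im ≠ 0 := by
    intro δ hδ hδε hne
    set b : ℂ := a + ((s * δ : ℝ) : ℂ) * Complex.I with hb
    have hbre : b.re = a.re := by simp [hb]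
    have hbim : b.im = a.im + s * δ := by simp [hb]
    have hnb : Complex.normSq b = Complex.normSq a + 2 * δ * (s * a.im) + δ ^ 2 := by
      rw [Complex.normSq_apply, Complex.normSq_apply, hbre, hbim]
      linear_combination δ ^ 2 * hs3
    have hnb1 : Complex.normSq (b - 1) = Complex.normSq (a - 1) + 2 * δ * (s * a.im) + δ ^ 2 := by
      rw [Complex.normSq_apply, Complex.normSq_apply]
      simp only [Complex.sub_re, Complex.sub_im, Complex.one_re, Complex.one_im, hbre, hbim]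
      linear_combination δ ^ 2 * hs3
    have hp : 0 ≤ 2 * δ * (s * a.im) + δ ^ 2 := by positivity
    have e1 : 1 ≤ ‖b‖ := by
      have h3 : 1 ≤ ‖b‖ ^ 2 := by
        rw [← Complex.normSq_eq_norm_sq, hnb, Complex.normSq_eq_norm_sq]
        nlinarith
      nlinarith [norm_nonneg b]
    have e2 : 1 ≤ ‖b - 1‖ := by
      have h3 : 1 ≤ ‖b - 1‖ ^ 2 := by
        rw [← Complex.normSq_eq_norm_sq, hnb1, Complex.normSq_eq_norm_sq]
        nlinarith
      nlinarith [norm_nonneg (b - 1)]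
    have hb0 : b ≠ 0 := by
      intro h
      rw [h, norm_zero] at e1
      linarith
    refine ⟨b, ?_, e1, e2, ?_⟩
    · have : b - a = ((s * δ : ℝ) : ℂ) * Complex.I := by rw [hb]; ring
      rw [this, norm_mul, Complex.norm_I, mul_one, Complex.norm_real, norm_mul]
      rcases hs with rfl | rfl
      · rw [norm_one, one_mul, Real.norm_of_nonneg hδ.le]; exact hδε
      · rw [norm_neg, norm_one, one_mul, Real.norm_of_nonneg hδ.le]; exact hδε
    · rw [im_T b hb0]
      refine mul_ne_zero ?_ ?_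
      · rw [hbim]
        intro h
        have h4 : s * a.im + δ = 0 := by
          have : s * (a.im + s * δ) = 0 := by rw [h, mul_zero]
          linear_combination this - δ * hs3
        linarith
      · rw [hnb]
        intro h
        apply hne
        have hpos : Complex.normSq a + 2 * δ * (s * a.im) + δ ^ 2 ≠ 0 := by
          rw [← hnb]
          exact fun h => hb0 (Complex.normSq_eq_zero.1 h)
        have h5 : 3 / (Complex.normSq a + 2 * δ * (s * a.im) + δ ^ 2) = 1 := by linarith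
        rw [div_eq_one_iff_eq hpos] at h5
        exact h5.symm
  by_cases hc : Complex.normSq a + 2 * (ε / 2) * (s * a.im) + (ε / 2) ^ 2 = 3
  · refine key (ε / 4) (by linarith) (by linarith) ?_
    intro h
    have h5 : 0 < ε ^ 2 := by positivity
    nlinarith [mul_nonneg hε.le hs2]
  · exact key (ε / 2) (by linarith) (by linarith) hc

/-- outside the two discs -/
theorem outside_subset {q : ℂ} (h1 : 1 ≤ ‖q - 1‖) (h2 : 1 ≤ ‖q - 2‖) : q ∈ closure rootSet := by
  rw [← closure_closure, Metric.mem_closure_iff]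
  intro ε hε
  have h2' : 1 ≤ ‖(q - 1) - 1‖ := by
    have : (q - 1) - 1 = q - 2 := by ring
    rw [this]; exact h2
  obtain ⟨b, hb, hb1, hb2, hb3⟩ := exists_good h1 h2' hε
  refine ⟨1 + b, ?_, ?_⟩
  · obtain ⟨w, hw, he⟩ := exists_w (b - 1 + 3 / b)
    have hw1 : 1 < ‖w‖ := lt_of_le_of_ne hw (Ne.symm (norm_ne_one he hb3))
    have hdom := dominance hb1 hb2 hw he
    have e1 : (1 + b) - 1 = b := by ring
    have e2 : (1 + b) - 2 = b - 1 := by ring
    refine region_subset (w0 := w) ?_ hw1 ?_ ?_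
    · rw [e1]; exact hb1
    · rw [e1, e2]; exact he
    · rw [e2]; exact hdom
  · rw [dist_comm, dist_eq_norm]
    have e : (1 + b) - q = b - (q - 1) := by ring
    rw [e]; exact hb

end H37.Chrom
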