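import Pool.Agent.H37.Chrom.Family

/-!
3-connectivity of the family.
-/

namespace H37.Chrom

variable {p m l : ℕ}

/-- reachability in the graph with `S` deleted -/
def Rch (S : Finset (Vert p m l)) (a b : Vert p m l) : Prop :=
  ∃ (ha : a ∈ {v | v ∉ S}) (hb : b ∈ {v | v ∉ S}),
    ((Gr p m l).induce {v | v ∉ S}).Reachable ⟨a, ha⟩ ⟨b, hb⟩

namespace Rch

variable {S : Finset (Vert p m l)} {a b c : Vert p m l}

lemma left (h : Rch S a b) : a ∉ S := h.1
lemma right (h : Rch S a b) : b ∉ S := h.2.1

lemma refl (h : a ∉ S) : Rch S a a := ⟨h, h, SimpleGraph.Reachable.refl _⟩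

lemma symm (h : Rch S a b) : Rch S b a := by
  obtain ⟨ha, hb, h⟩ := h
  exact ⟨hb, ha, h.symm⟩

lemma trans (h : Rch S a b) (h' : Rch S b c) : Rch S a c := by
  obtain ⟨ha, hb, h⟩ := h
  obtain ⟨hb', hc, h'⟩ := h'
  exact ⟨ha, hc, h.trans h'⟩

lemma step (h : E a b) (ha : a ∉ S) (hb : b ∉ S) : Rch S a b := by
  refine ⟨ha, hb, SimpleGraph.Adj.reachable ?_⟩
  rw [SimpleGraph.comap_adj]
  exact h.adj

lemma step' (h : E b a) (ha : a ∉ S) (hb : b ∉ S) : Rch S a b := (step h hb ha).symm

end Rch

lemma three_pick {α : Type} [DecidableEq α] {S : Finset α} (hS : S.card ≤ 2) {x y z : α}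
    (hx : x ∈ S) (hy : y ∈ S) (hz : z ∈ S) (hxy : x ≠ y) (hxz : x ≠ z) (hyz : y ≠ z) : False := by
  have h : ({x, y, z} : Finset α) ⊆ S := by
    intro w hw
    simp only [Finset.mem_insert, Finset.mem_singleton] at hw
    rcases hw with rfl | rfl | rfl <;> assumption
  have h2 := Finset.card_le_card h
  have h3 : ({x, y, z} : Finset α).card = 3 := by
    rw [Finset.card_insert_of_notMem, Finset.card_pair hyz]
    simp [hxy, hxz]
  omega

variable {S : Finset (Vert p m l)}

/-- consecutive vertices on the far rail of a side -/
lemma rail_up (f : Fin (p + 1)) (s : Side m) (n : ℕ) : ∀ (t : Fin (l + 1)) (b : Bool),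
    2 * t.val + b.toNat + n = 2 * l + 1 →
    (∀ (t' : Fin (l + 1)) (b' : Bool), 2 * t.val + b.toNat ≤ 2 * t'.val + b'.toNat →
      (.far f s t' b' : Vert p m l) ∉ S) →
    Rch S (.far f s t b) (.far f s (Fin.last l) true) := by
  induction n with
  | zero =>
    intro t b h hS
    have hb : b = true := by cases b <;> simp at h ⊢ <;> omega
    subst hb
    have ht : t = Fin.last l := by ext; simp at h ⊢; omega
    subst ht
    exact Rch.refl (hS _ _ le_rfl)
  | succ n ih =>
    intro t b h hS
    cases b with
    | false =>
      have h1 := ih t true (by simp at h ⊢; omega)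
        (fun t' b' h' => hS t' b' (by simp at h' ⊢; omega))
      exact (Rch.step (E.farIn f s t) (hS _ _ le_rfl) h1.left).trans h1
    | true =>
      have htl : t.val < l := by simp at h; omega
      have h1 := ih (⟨t.val, htl⟩ : Fin l).succ false (by simp at h ⊢; omega)
        (fun t' b' h' => hS t' b' (by simp at h' ⊢; omega))
      have hE : E (.far f s t true : Vert p m l) (.far f s (⟨t.val, htl⟩ : Fin l).succ false) :=
        E.farStep f s ⟨t.val, htl⟩
      exact (Rch.step hE (hS _ _ le_rfl) h1.left).trans h1

lemma rail_down (f : Fin (p + 1)) (s : Side m) (n : ℕ) : ∀ (t : Fin (l + 1)) (b : Bool),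
    2 * t.val + b.toNat = n →
    (∀ (t' : Fin (l + 1)) (b' : Bool), 2 * t'.val + b'.toNat ≤ 2 * t.val + b.toNat →
      (.far f s t' b' : Vert p m l) ∉ S) →
    Rch S (.far f s t b) (.far f s 0 false) := by
  induction n with
  | zero =>
    intro t b h hS
    have hb : b = false := by cases b <;> simp at h ⊢
    subst hb
    have ht : t = 0 := by ext; simp at h ⊢; omega
    subst ht
    exact Rch.refl (hS _ _ le_rfl)
  | succ n ih =>
    intro t b h hS
    cases b with
    | true =>
      have h1 := ih t false (by simp at h ⊢; omega)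
        (fun t' b' h' => hS t' b' (by simp at h' ⊢; omega))
      exact (Rch.step' (E.farIn f s t) (hS _ _ le_rfl) h1.left).trans h1
    | false =>
      have ht0 : 0 < t.val := by simp at h; omega
      have htl : t.val - 1 < l := by have := t.2; omega
      have h1 := ih (⟨t.val - 1, htl⟩ : Fin l).castSucc true (by simp at h ⊢; omega)
        (fun t' b' h' => hS t' b' (by simp at h' ⊢; omega))
      have hE : E (.far f s (⟨t.val - 1, htl⟩ : Fin l).castSucc true : Vert p m l)
          (.far f s t false) := by
        have := E.farStep (p := p) (m := m) (l := l) f s ⟨t.val - 1, htl⟩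
        have e : (⟨t.val - 1, htl⟩ : Fin l).succ = t := by ext; simp; omega
        rwa [e] at this
      exact (Rch.step' hE (hS _ _ le_rfl) h1.left).trans h1

lemma center_injective (f : Fin (p + 1)) :
    Function.Injective (center f : Side m → Vert p m l) := by
  intro s s' h
  rcases s with _ | _ | j | j <;> rcases s' with _ | _ | j' | j' <;> simp [center] at h ⊢
  · exact h
  · exact absurd h.1 (by simp [Fin.ext_iff])
  · exact absurd h.1 (by simp [Fin.ext_iff])
  · exact h

lemma next_ne (s : Side m) : s.next ≠ s := by
  rcases s with _ | _ | j | j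
  · simp [Side.next]
  · simp [Side.next]
  · simp only [Side.next]
    split_ifs with h
    · simp [Fin.ext_iff]
    · simp
  · simp only [Side.next]
    split_ifs with h
    · simp [Fin.ext_iff]; omega
    · simp

lemma prev_ne (s : Side m) : s.prev ≠ s := by
  intro h
  have := next_ne s.prev
  rw [Side.next_prev] at this
  exact this h.symm

lemma next_ne_prev (s : Side m) : s.next ≠ s.prev := by
  rcases s with _ | _ | j | j
  · simp [Side.next, Side.prev]
  · simp [Side.next, Side.prev]
  · have := j.2
    simp only [Side.next, Side.prev]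
    split_ifs with h h' <;> simp [Fin.ext_iff] <;> omega
  · have := j.2
    simp only [Side.next, Side.prev]
    split_ifs with h h' <;> simp [Fin.ext_iff] <;> omega

/-- vertices of the theta graph -/
def isBase : Vert p m l → Prop
  | .hub _ => True
  | .bb _ _ => True
  | _ => False

lemma center_base (f : Fin (p + 1)) (s : Side m) : isBase (center f s : Vert p m l) := by
  rcases s with _ | _ | j | j <;> simp [center, isBase]

lemma center_ne_far (f f' : Fin (p + 1)) (s s' : Side m) (t : Fin (l + 1)) (b : Bool) :
    (center f s : Vert p m l) ≠ .far f' s' t b := by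
  rcases s with _ | _ | j | j <;> simp [center]

lemma center_ne_near (f f' : Fin (p + 1)) (s s' : Side m) (t : Fin (l + 1)) (b : Bool) :
    (center f s : Vert p m l) ≠ .near f' s' t b := by
  rcases s with _ | _ | j | j <;> simp [center]

lemma far_base (hS : S.card ≤ 2) (f : Fin (p + 1)) (s : Side m) (t : Fin (l + 1)) (b : Bool)
    (h : (.far f s t b : Vert p m l) ∉ S) :
    ∃ c, isBase c ∧ Rch S (.far f s t b) c := by
  classical
  by_cases hd : (.near f s t b : Vert p m l) ∉ S ∧ (center f s : Vert p m l) ∉ S
  · exact ⟨center f s, center_base f s, (Rch.step' (E.rung f s t b) h hd.1).trans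
      (Rch.step (E.spoke f s t b) hd.1 hd.2)⟩
  obtain ⟨d, hdS, hd⟩ : ∃ d ∈ S, d = (.near f s t b : Vert p m l) ∨ d = center f s := by
    by_contra hcon
    push Not at hcon
    exact hd ⟨fun h1 => (hcon _ h1).1 rfl, fun h1 => (hcon _ h1).2 rfl⟩
  by_cases hu : (∀ (t' : Fin (l + 1)) (b' : Bool), 2 * t.val + b.toNat ≤ 2 * t'.val + b'.toNat →
      (.far f s t' b' : Vert p m l) ∉ S) ∧ (.far f s.next 0 false : Vert p m l) ∉ S ∧
      (.near f s.next 0 false : Vert p m l) ∉ S ∧ (center f s.next : Vert p m l) ∉ S
  · obtain ⟨h1, h2, h3, h4⟩ := hu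
    refine ⟨center f s.next, center_base _ _, ?_⟩
    have r1 := rail_up f s (2 * l + 1 - (2 * t.val + b.toNat)) t b
      (by have := t.2; have : b.toNat ≤ 1 := by cases b <;> simp
          omega) h1
    exact r1.trans ((Rch.step (E.farJ f s) r1.right h2).trans
      ((Rch.step' (E.rung f s.next 0 false) h2 h3).trans
        (Rch.step (E.spoke f s.next 0 false) h3 h4)))
  obtain ⟨u, huS, hu⟩ : ∃ u ∈ S, (∃ (t' : Fin (l + 1)) (b' : Bool),
      2 * t.val + b.toNat < 2 * t'.val + b'.toNat ∧ u = (.far f s t' b' : Vert p m l)) ∨
      u = (.far f s.next 0 false : Vert p m l) ∨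
      u = (.near f s.next 0 false : Vert p m l) ∨ u = center f s.next := by
    by_contra hcon
    push Not at hcon
    refine hu ⟨?_, fun h1 => (hcon _ h1).2.1 rfl, fun h1 => (hcon _ h1).2.2.1 rfl,
      fun h1 => (hcon _ h1).2.2.2 rfl⟩
    intro t' b' hle hmem
    rcases eq_or_lt_of_le hle with heq | hlt
    · have : t = t' ∧ b = b' := by
        cases b <;> cases b' <;> simp at heq ⊢ <;> omega
      rw [← this.1, ← this.2] at hmem
      exact h hmem
    · exact (hcon _ hmem).1 t' b' hlt rfl
  by_cases hdn : (∀ (t' : Fin (l + 1)) (b' : Bool), 2 * t'.val + b'.toNat ≤ 2 * t.val + b.toNat →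
      (.far f s t' b' : Vert p m l) ∉ S) ∧ (.far f s.prev (Fin.last l) true : Vert p m l) ∉ S ∧
      (.near f s.prev (Fin.last l) true : Vert p m l) ∉ S ∧
      (center f s.prev : Vert p m l) ∉ S
  · obtain ⟨h1, h2, h3, h4⟩ := hdn
    refine ⟨center f s.prev, center_base _ _, ?_⟩
    have r1 := rail_down f s _ t b rfl h1
    have hE : E (.far f s.prev (Fin.last l) true : Vert p m l) (.far f s 0 false) := by
      have := E.farJ (p := p) (m := m) (l := l) f s.prev
      rwa [Side.next_prev] at this
    exact r1.trans ((Rch.step' hE r1.right h2).trans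
      ((Rch.step' (E.rung f s.prev (Fin.last l) true) h2 h3).trans
        (Rch.step (E.spoke f s.prev (Fin.last l) true) h3 h4)))
  obtain ⟨w, hwS, hw⟩ : ∃ u ∈ S, (∃ (t' : Fin (l + 1)) (b' : Bool),
      2 * t'.val + b'.toNat < 2 * t.val + b.toNat ∧ u = (.far f s t' b' : Vert p m l)) ∨
      u = (.far f s.prev (Fin.last l) true : Vert p m l) ∨
      u = (.near f s.prev (Fin.last l) true : Vert p m l) ∨ u = center f s.prev := by
    by_contra hcon
    push Not at hcon
    refine hdn ⟨?_, fun h1 => (hcon _ h1).2.1 rfl, fun h1 => (hcon _ h1).2.2.1 rfl,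
      fun h1 => (hcon _ h1).2.2.2 rfl⟩
    intro t' b' hle hmem
    rcases eq_or_lt_of_le hle with heq | hlt
    · have : t = t' ∧ b = b' := by
        cases b <;> cases b' <;> simp at heq ⊢ <;> omega
      rw [← this.1, ← this.2] at hmem
      exact h hmem
    · exact (hcon _ hmem).1 t' b' hlt rfl
  exfalso
  have n1 : s ≠ s.next := (next_ne s).symm
  have n2 : s ≠ s.prev := (prev_ne s).symm
  have n3 : s.next ≠ s.prev := next_ne_prev s
  have c1 : (center f s : Vert p m l) ≠ center f s.next := fun h => n1 (center_injective f h)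
  have c2 : (center f s : Vert p m l) ≠ center f s.prev := fun h => n2 (center_injective f h)
  have c3 : (center f s.next : Vert p m l) ≠ center f s.prev :=
    fun h => n3 (center_injective f h)
  have nf := center_ne_far (p := p) (m := m) (l := l)
  have nn := center_ne_near (p := p) (m := m) (l := l)
  have hdu : d ≠ u := by
    rcases hd with rfl | rfl <;> rcases hu with ⟨t', b', h1, rfl⟩ | rfl | rfl | rfl
    · simp
    · simp
    · simp [n1]
    · exact (nn _ _ _ _ _ _).symm
    · exact nf _ _ _ _ _ _
    · exact nf _ _ _ _ _ _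
    · exact nn _ _ _ _ _ _
    · exact c1
  have hdw : d ≠ w := by
    rcases hd with rfl | rfl <;> rcases hw with ⟨t', b', h1, rfl⟩ | rfl | rfl | rfl
    · simp
    · simp
    · simp [n2]
    · exact (nn _ _ _ _ _ _).symm
    · exact nf _ _ _ _ _ _
    · exact nf _ _ _ _ _ _
    · exact nn _ _ _ _ _ _
    · exact c2
  have huw : u ≠ w := by
    rcases hu with ⟨t', b', h1, rfl⟩ | rfl | rfl | rfl <;>
      rcases hw with ⟨t'', b'', h2, rfl⟩ | rfl | rfl | rfl
    · intro h
      simp only [Vert.far.injEq, true_and] at h
      rw [h.1, h.2] at h1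
      omega
    · simp [n2]
    · simp
    · exact (nf _ _ _ _ _ _).symm
    · simp [n1.symm]
    · simp [n3]
    · simp
    · exact (nf _ _ _ _ _ _).symm
    · simp
    · simp
    · simp [n3]
    · exact (nn _ _ _ _ _ _).symm
    · exact nf _ _ _ _ _ _
    · exact nf _ _ _ _ _ _
    · exact nn _ _ _ _ _ _
    · exact c3
  exact three_pick hS hdS huS hwS hdu hdw huw

lemma near_base (hS : S.card ≤ 2) (f : Fin (p + 1)) (s : Side m) (t : Fin (l + 1)) (b : Bool)
    (h : (.near f s t b : Vert p m l) ∉ S) :
    ∃ c, isBase c ∧ Rch S (.near f s t b) c := by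
  classical
  by_cases hc : (center f s : Vert p m l) ∉ S
  · exact ⟨center f s, center_base f s, Rch.step (E.spoke f s t b) h hc⟩
  push Not at hc
  by_cases hf : (.far f s t b : Vert p m l) ∉ S
  · obtain ⟨c, h1, h2⟩ := far_base hS f s t b hf
    exact ⟨c, h1, (Rch.step (E.rung f s t b) h hf).trans h2⟩
  push Not at hf
  have nf := center_ne_far (p := p) (m := m) (l := l)
  have nn := center_ne_near (p := p) (m := m) (l := l)
  have h1 : (.near f s t (!b) : Vert p m l) ∉ S := fun h1 =>
    three_pick hS hc hf h1 (nf _ _ _ _ _ _) (nn _ _ _ _ _ _) (by simp)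
  have h2 : (.far f s t (!b) : Vert p m l) ∉ S := fun h2 =>
    three_pick hS hc hf h2 (nf _ _ _ _ _ _) (nf _ _ _ _ _ _) (by simp)
  obtain ⟨c, h3, h4⟩ := far_base hS f s t (!b) h2
  refine ⟨c, h3, ?_⟩
  have r1 : Rch S (.near f s t b) (.near f s t (!b)) := by
    cases b with
    | false => exact Rch.step (E.pair f s t) h h1
    | true => exact Rch.step' (E.pair f s t) h h1
  exact r1.trans ((Rch.step (E.rung f s t (!b)) h1 h2).trans h4)

/-- going down a backbone -/
lemma path_down (i : Fin (p + 2)) (n : ℕ) : ∀ (j : Fin (m + 2)), j.val = n →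
    (∀ j' : Fin (m + 2), j'.val ≤ j.val → (.bb i j' : Vert p m l) ∉ S) →
    (.hub false : Vert p m l) ∉ S → Rch S (.bb i j) (.hub false) := by
  induction n with
  | zero =>
    intro j hj h h0
    have : j = 0 := Fin.ext hj
    subst this
    exact Rch.step' (E.hubL i) (h _ le_rfl) h0
  | succ n ih =>
    intro j hj h h0
    have hlt : n < m + 1 := by have := j.2; omega
    have r := ih (⟨n, hlt⟩ : Fin (m + 1)).castSucc rfl (fun j' hj' => h j' (by simp at hj'; omega)) h0
    have hE : E (.bb i (⟨n, hlt⟩ : Fin (m + 1)).castSucc : Vert p m l) (.bb i j) := by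
      have := E.path (p := p) (m := m) (l := l) i ⟨n, hlt⟩
      have e : (⟨n, hlt⟩ : Fin (m + 1)).succ = j := Fin.ext (by simp [hj])
      rwa [e] at this
    exact (Rch.step' hE (h _ le_rfl) r.left).trans r

lemma path_up (i : Fin (p + 2)) (n : ℕ) : ∀ (j : Fin (m + 2)), j.val + n = m + 1 →
    (∀ j' : Fin (m + 2), j.val ≤ j'.val → (.bb i j' : Vert p m l) ∉ S) →
    (.hub true : Vert p m l) ∉ S → Rch S (.bb i j) (.hub true) := by
  induction n with
  | zero =>
    intro j hj h h0
    have : j = Fin.last _ := Fin.ext (by simp; omega)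
    subst this
    exact Rch.step' (E.hubR i) (h _ le_rfl) h0
  | succ n ih =>
    intro j hj h h0
    have hlt : j.val < m + 1 := by omega
    have r := ih (⟨j.val, hlt⟩ : Fin (m + 1)).succ (by simp; omega)
      (fun j' hj' => h j' (by simp at hj'; omega)) h0
    have hE : E (.bb i j : Vert p m l) (.bb i (⟨j.val, hlt⟩ : Fin (m + 1)).succ) :=
      E.path (p := p) (m := m) (l := l) i ⟨j.val, hlt⟩
    exact (Rch.step hE (h _ le_rfl) r.left).trans r

/-- at most one vertex of the theta graph is deleted -/
lemma base_conn_one (w : Vert p m l) (hw : ∀ x ∈ S, isBase x → x = w) :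
    ∃ r, r ∉ S ∧ ∀ c, isBase c → c ∉ S → Rch S c r := by
  have alive : ∀ x, isBase x → x ≠ w → x ∉ S := fun x hx hxw hxS => hxw (hw x hxS hx)
  by_cases hwb : (w = .hub false ∨ w = .hub true)
  · rcases hwb with rfl | rfl
    · refine ⟨.hub true, alive _ trivial (by simp), ?_⟩
      intro c hc hcS
      rcases c with b | ⟨i, j⟩ | _ | _
      · cases b with
        | true => exact Rch.refl hcS
        | false =>
          by_cases hfw : (.hub false : Vert p m l) ∈ S
          · exact absurd hfw hcS
          · have r1 := path_down (S := S) (p := p) (m := m) (l := l) 0 (m + 1) (Fin.last _)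
              (by simp) (fun j' _ => alive _ trivial (by simp)) hcS
            have r2 := path_up (S := S) (p := p) (m := m) (l := l) 0 0 (Fin.last _)
              (by simp) (fun j' _ => alive _ trivial (by simp)) (alive _ trivial (by simp))
            exact r1.symm.trans r2
      · exact path_up i (m + 1 - j.val) j (by have := j.2; omega)
          (fun j' _ => alive _ trivial (by simp)) (alive _ trivial (by simp))
      · exact absurd hc (by simp [isBase])
      · exact absurd hc (by simp [isBase])
    · refine ⟨.hub false, alive _ trivial (by simp), ?_⟩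
      intro c hc hcS
      rcases c with b | ⟨i, j⟩ | _ | _
      · cases b with
        | false => exact Rch.refl hcS
        | true =>
          have r1 := path_up (S := S) (p := p) (m := m) (l := l) 0 0 (Fin.last _)
            (by simp) (fun j' _ => alive _ trivial (by simp)) hcS
          have r2 := path_down (S := S) (p := p) (m := m) (l := l) 0 (m + 1) (Fin.last _)
            (by simp) (fun j' _ => alive _ trivial (by simp)) (alive _ trivial (by simp))
          exact r1.symm.trans r2
      · exact path_down i _ j rfl (fun j' _ => alive _ trivial (by simp))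
          (alive _ trivial (by simp))
      · exact absurd hc (by simp [isBase])
      · exact absurd hc (by simp [isBase])
  · push Not at hwb
    have h0 : (.hub false : Vert p m l) ∉ S := alive _ trivial hwb.1.symm
    have h1 : (.hub true : Vert p m l) ∉ S := alive _ trivial hwb.2.symm
    -- a backbone avoiding w
    obtain ⟨i1, hi1⟩ : ∃ i1 : Fin (p + 2), ∀ j, (.bb i1 j : Vert p m l) ∉ S := by
      rcases w with b | ⟨i, j⟩ | _ | _
      · exact ⟨0, fun j => alive _ trivial (by simp)⟩
      · by_cases hi : i = 0
        · refine ⟨1, fun j' => alive _ trivial ?_⟩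
          subst hi
          simp [Fin.ext_iff]
        · refine ⟨0, fun j' => alive _ trivial ?_⟩
          intro hcon
          simp only [Vert.bb.injEq] at hcon
          exact hi hcon.1.symm
      · exact ⟨0, fun j => alive _ trivial (by simp)⟩
      · exact ⟨0, fun j => alive _ trivial (by simp)⟩
    have r01 : Rch S (.hub true) (.hub false : Vert p m l) := by
      have r1 := path_up (S := S) (p := p) (m := m) (l := l) i1 0 (Fin.last _)
        (by simp) (fun j' _ => hi1 j') h1
      have r2 := path_down (S := S) (p := p) (m := m) (l := l) i1 (m + 1) (Fin.last _)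
        (by simp) (fun j' _ => hi1 j') h0
      exact r1.symm.trans r2
    refine ⟨.hub false, h0, ?_⟩
    intro c hc hcS
    rcases c with b | ⟨i, j⟩ | _ | _
    · cases b with
      | false => exact Rch.refl hcS
      | true => exact r01
    · by_cases hex : ∃ j0, (.bb i j0 : Vert p m l) = w ∧ j0.val ≤ j.val
      · obtain ⟨j0, hj0, hle⟩ := hex
        by_cases hlt : j0.val < j.val
        · have := path_up (S := S) (p := p) (m := m) (l := l) i (m + 1 - j.val) j
            (by have := j.2; omega) (fun j' hj' => alive _ trivial (by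
              rw [← hj0]; intro hcon; simp only [Vert.bb.injEq, true_and] at hcon
              rw [hcon] at hj'; omega)) h1
          exact this.trans r01
        · have hjj : j = j0 := Fin.ext (by omega)
          -- then `bb i j = w` is alive, so no base vertex is deleted
          have hw' : ∀ x, isBase x → x ∉ S := by
            intro x hx hxS
            have := hw x hxS hx
            rw [this, ← hj0, ← hjj] at hxS
            exact hcS hxS
          exact path_down i _ j rfl (fun j' _ => hw' _ trivial) h0
      · push Not at hex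
        exact path_down i _ j rfl (fun j' hj' => alive _ trivial (fun hcon => by
          have := hex j' hcon; omega)) h0
    · exact absurd hc (by simp [isBase])
    · exact absurd hc (by simp [isBase])

/-- if no collar vertex is deleted, the collar of a face is connected -/
lemma collar_conn (hfar : ∀ f s t b, (.far f s t b : Vert p m l) ∉ S) (f : Fin (p + 1))
    (s : Side m) : Rch S (.far f .left 0 false) (.far f s 0 false) := by
  have nx : ∀ s : Side m, Rch S (.far f s 0 false) (.far f s.next 0 false : Vert p m l) := by
    intro s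
    have r1 := rail_up (S := S) (l := l) f s (2 * l + 1) 0 false (by simp)
      (fun t' b' _ => hfar _ _ _ _)
    exact r1.trans (Rch.step (E.farJ f s) r1.right (hfar _ _ _ _))
  have hbot : ∀ n : ℕ, ∀ h : n < m + 2,
      Rch S (.far f .left 0 false) (.far f (.bot ⟨n, h⟩) 0 false : Vert p m l) := by
    intro n
    induction n with
    | zero => intro h; exact nx .left
    | succ n ih =>
      intro h
      have := nx (.bot ⟨n, by omega⟩)
      simp only [Side.next, h, dif_pos] at this
      exact (ih (by omega)).trans this
  have hright : Rch S (.far f .left 0 false) (.far f .right 0 false : Vert p m l) := by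
    have := nx (.bot ⟨m + 1, by omega⟩)
    simp only [Side.next, lt_self_iff_false, dif_neg, not_false_eq_true] at this
    exact (hbot (m + 1) (by omega)).trans this
  have htop : ∀ n : ℕ, ∀ h : n < m + 2,
      Rch S (.far f .left 0 false) (.far f (.top ⟨m + 1 - n, by omega⟩) 0 false :
        Vert p m l) := by
    intro n
    induction n with
    | zero =>
      intro h
      have := nx .right
      exact hright.trans this
    | succ n ih =>
      intro h
      have := nx (.top ⟨m + 1 - n, by omega⟩)
      simp only [Side.next] at this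
      rw [dif_pos (by omega)] at this
      have e : (⟨m + 1 - n - 1, by omega⟩ : Fin (m + 2)) = ⟨m + 1 - (n + 1), by omega⟩ := by
        ext; simp; omega
      rw [e] at this
      exact (ih (by omega)).trans this
  rcases s with _ | _ | j | j
  · exact Rch.refl (hfar _ _ _ _)
  · exact hright
  · exact hbot j.val j.2
  · have := htop (m + 1 - j.val) (by omega)
    have e : (⟨m + 1 - (m + 1 - j.val), by omega⟩ : Fin (m + 2)) = j := by
      ext; simp; have := j.2; omega
    rwa [e] at this

lemma base_conn_two (hS : S.card ≤ 2) (hfar : ∀ f s t b, (.far f s t b : Vert p m l) ∉ S)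
    (hnear : ∀ f s t b, (.near f s t b : Vert p m l) ∉ S) (c : Vert p m l) (hc : isBase c)
    (hcS : c ∉ S) : Rch S c (.far 0 .left 0 false) := by
  classical
  have hcen : ∀ f s, (center f s : Vert p m l) ∉ S →
      Rch S (center f s) (.far f .left 0 false) := by
    intro f s h
    exact (Rch.step' (E.spoke f s 0 false) h (hnear _ _ _ _)).trans
      ((Rch.step (E.rung f s 0 false) (hnear _ _ _ _) (hfar _ _ _ _)).trans
        (collar_conn hfar f s).symm)
  have hface : ∀ n : ℕ, ∀ h : n < p + 1,
      Rch S (.far ⟨n, h⟩ .left 0 false) (.far 0 .left 0 false : Vert p m l) := by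
    intro n
    induction n with
    | zero => intro h; exact Rch.refl (hfar _ _ _ _)
    | succ n ih =>
      intro h
      have key : ∃ s s' : Side m, (center ⟨n, by omega⟩ s : Vert p m l) = center ⟨n + 1, h⟩ s' ∧
          (center ⟨n, by omega⟩ s : Vert p m l) ∉ S := by
        by_cases h0 : (.hub false : Vert p m l) ∉ S
        · exact ⟨.left, .left, rfl, h0⟩
        by_cases h1 : (.hub true : Vert p m l) ∉ S
        · exact ⟨.right, .right, rfl, h1⟩
        push Not at h0 h1
        refine ⟨.top 0, .bot 0, rfl, fun h2 => ?_⟩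
        exact three_pick hS h0 h1 h2 (by simp) (by simp [center]) (by simp [center])
      obtain ⟨s, s', e, hs⟩ := key
      have r1 := hcen _ s hs
      rw [e] at hs
      have r2 := hcen _ s' hs
      rw [← e] at r2
      exact r2.symm.trans (r1.trans (ih (by omega)))
  rcases c with b | ⟨i, j⟩ | _ | _
  · cases b with
    | false => exact hcen 0 .left hcS
    | true => exact hcen 0 .right hcS
  · by_cases hi : i.val < p + 1
    · have e : (.bb i j : Vert p m l) = center ⟨i.val, hi⟩ (.bot j) := by
        simp only [center, Vert.bb.injEq, and_true]; ext; rfl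
      rw [e] at hcS ⊢
      exact (hcen _ _ hcS).trans (hface _ _)
    · have e : (.bb i j : Vert p m l) = center (Fin.last p) (.top j) := by
        simp only [center, Vert.bb.injEq, and_true]; ext; simp; have := i.2; omega
      rw [e] at hcS ⊢
      exact (hcen _ _ hcS).trans (hface _ _)
  · exact absurd hc (by simp [isBase])
  · exact absurd hc (by simp [isBase])

theorem threeConnected_Gr (p m l : ℕ) : ThreeConnected (Gr p m l) := by
  classical
  constructor
  · have h : ({.hub false, .hub true, .bb 0 0, .bb 0 1} : Finset (Vert p m l)).card ≤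
        Fintype.card (Vert p m l) := Finset.card_le_univ _
    have h4 : ({.hub false, .hub true, .bb 0 0, .bb 0 1} : Finset (Vert p m l)).card = 4 := by
      rw [Finset.card_insert_of_notMem, Finset.card_insert_of_notMem, Finset.card_pair]
      · simp [Fin.ext_iff]
      · simp
      · simp
    omega
  · intro S hS
    obtain ⟨r, hr, hbase⟩ : ∃ r, r ∉ S ∧ ∀ c, isBase c → c ∉ S → Rch S c r := by
      by_cases hcol : ∃ x ∈ S, ¬ isBase x
      · obtain ⟨x, hxS, hx⟩ := hcol
        by_cases hw : ∃ w ∈ S, isBase w
        · obtain ⟨w, hwS, hwb⟩ := hw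
          refine base_conn_one w (fun y hyS hyb => ?_)
          by_contra hyw
          exact three_pick hS hxS hwS hyS (fun h => hx (h ▸ hwb)) (fun h => hx (h ▸ hyb))
            (fun h => hyw h.symm)
        · push Not at hw
          exact base_conn_one (.hub false) (fun y hyS hyb => absurd hyb (hw y hyS))
      · push Not at hcol
        have hfar : ∀ f s t b, (.far f s t b : Vert p m l) ∉ S := fun f s t b h =>
          absurd (hcol _ h) (by simp [isBase])
        have hnear : ∀ f s t b, (.near f s t b : Vert p m l) ∉ S := fun f s t b h =>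
          absurd (hcol _ h) (by simp [isBase])
        exact ⟨_, hfar 0 .left 0 false, fun c hc hcS => base_conn_two hS hfar hnear c hc hcS⟩
    have hall : ∀ a, a ∉ S → Rch S a r := by
      intro a ha
      rcases a with b | ⟨i, j⟩ | ⟨f, s, t, b⟩ | ⟨f, s, t, b⟩
      · exact hbase _ trivial ha
      · exact hbase _ trivial ha
      · obtain ⟨c, hc, h⟩ := far_base hS f s t b ha
        exact h.trans (hbase c hc h.right)
      · obtain ⟨c, hc, h⟩ := near_base hS f s t b ha
        exact h.trans (hbase c hc h.right)
    refine (SimpleGraph.connected_iff _).2 ⟨?_, ⟨⟨r, hr⟩⟩⟩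
    intro a b
    obtain ⟨_, _, h1⟩ := (hall a a.2).trans (hall b b.2).symm
    exact h1

end H37.Chrom
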