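import Mathlib

/-!
A form of the theorem of Hurwitz.
-/

namespace H37.Chrom

open Metric Set

/-- if `g` is close to `f` on a closed disc, `f` vanishes at the centre and is bounded below on
the circle, then `g` has a zero in the disc -/
theorem zero_of_close {f g : ℂ → ℂ} {c : ℂ} {δ η : ℝ} (hδ : 0 < δ) (hη : 0 < η)
    (hg : DifferentiableOn ℂ g (closedBall c δ)) (hf0 : f c = 0)
    (hf : ∀ z ∈ sphere c δ, η ≤ ‖f z‖) (hclose : ∀ z ∈ closedBall c δ, ‖g z - f z‖ < η / 2) :
    ∃ z ∈ closedBall c δ, g z = 0 := by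
  by_contra hcon
  push Not at hcon
  have hd : DifferentiableOn ℂ (fun z => (g z)⁻¹) (closedBall c δ) :=
    hg.inv hcon
  have hd2 : DiffContOnCl ℂ (fun z => (g z)⁻¹) (ball c δ) := by
    refine DifferentiableOn.diffContOnCl ?_
    rw [closure_ball c hδ.ne']
    exact hd
  have hb : ∀ z ∈ frontier (ball c δ), ‖(g z)⁻¹‖ ≤ (η / 2)⁻¹ := by
    intro z hz
    rw [frontier_ball c hδ.ne'] at hz
    rw [norm_inv]
    refine inv_anti₀ (by positivity) ?_
    have h1 := hf z hz
    have h2 := hclose z (sphere_subset_closedBall hz)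
    have h3 : ‖f z‖ ≤ ‖g z‖ + ‖g z - f z‖ := by
      have : f z = g z - (g z - f z) := by ring
      calc ‖f z‖ = ‖g z - (g z - f z)‖ := by rw [← this]
        _ ≤ _ := norm_sub_le _ _
    linarith
  have h := Complex.norm_le_of_forall_mem_frontier_norm_le isBounded_ball hd2 hb
    (subset_closure (mem_ball_self hδ))
  rw [norm_inv] at h
  have h4 : η / 2 ≤ ‖g c‖ := by
    have hpos : 0 < ‖g c‖ := norm_pos_iff.2 (hcon c (mem_closedBall_self hδ.le))
    exact (inv_le_inv₀ hpos (by positivity)).1 h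
  have h5 := hclose c (mem_closedBall_self hδ.le)
  rw [hf0, sub_zero] at h5
  linarith

/-- a function that is continuous at all points of `K × {0}` is uniformly close -/
theorem exists_unif {F : ℂ × ℂ × ℂ → ℂ} {K : Set ℂ} (hK : IsCompact K)
    (hF : ContinuousOn F (K ×ˢ (closedBall (0 : ℂ) 1 ×ˢ closedBall (0 : ℂ) 1))) {η : ℝ}
    (hη : 0 < η) : ∃ d > 0, ∀ q ∈ K, ∀ x y : ℂ, ‖x‖ < d → ‖y‖ < d →
      ‖F (q, x, y) - F (q, 0, 0)‖ < η := by
  have hc : IsCompact (K ×ˢ (closedBall (0 : ℂ) 1 ×ˢ closedBall (0 : ℂ) 1)) :=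
    hK.prod ((isCompact_closedBall _ _).prod (isCompact_closedBall _ _))
  have hu := hc.uniformContinuousOn_of_continuous hF
  rw [Metric.uniformContinuousOn_iff] at hu
  obtain ⟨d, hd, h⟩ := hu η hη
  refine ⟨min d 1, lt_min hd one_pos, ?_⟩
  intro q hq x y hx hy
  rw [← dist_eq_norm]
  refine h _ ?_ _ ?_ ?_
  · refine ⟨hq, ?_, ?_⟩
    · rw [mem_closedBall, dist_zero_right]; exact (hx.trans_le (min_le_right _ _)).le
    · rw [mem_closedBall, dist_zero_right]; exact (hy.trans_le (min_le_right _ _)).le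
  · refine ⟨hq, ?_, ?_⟩ <;> simp
  · rw [Prod.dist_eq, Prod.dist_eq, dist_self]
    simp only [dist_zero_right]
    refine max_lt hd (max_lt ?_ ?_)
    · exact hx.trans_le (min_le_left _ _)
    · exact hy.trans_le (min_le_left _ _)

end H37.Chrom
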