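import Pool.Agent.H37.Chrom.Closed
import Pool.Agent.H37.Chrom.Hurwitz

/-!
Roots of the family near roots of theta graphs.
-/

namespace H37.Chrom

open Ker Polynomial Metric Set Filter Topology

section reg

variable {p m : ℕ}

lemma cont_val {X : Type} [TopologicalSpace X] {S : Set X} {K : X → Ker ℂ}
    (ha : ContinuousOn (fun x => (K x).a) S) (hb : ContinuousOn (fun x => (K x).b) S)
    (hc : ContinuousOn (fun x => (K x).c) S) (hd : ContinuousOn (fun x => (K x).d) S)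
    (hs : ContinuousOn (fun x => (K x).s) S) (P Q R : Prop) :
    ContinuousOn (fun x => (K x).val P Q R) S := by
  classical
  simp only [val]
  by_cases hP : P
  · by_cases hQ : Q
    · simpa only [hP, hQ, if_true] using ha
    · simpa only [hP, hQ, if_true, if_false] using hb
  · by_cases hQ : Q
    · simpa only [hP, hQ, if_true, if_false] using hc
    · by_cases hR : R
      · simp only [hP, hQ, hR, if_true, if_false]; exact hd.add hs
      · simpa only [hP, hQ, hR, if_false, add_zero] using hd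

lemma diff_val {S : Set ℂ} {K : ℂ → Ker ℂ}
    (ha : DifferentiableOn ℂ (fun x => (K x).a) S) (hb : DifferentiableOn ℂ (fun x => (K x).b) S)
    (hc : DifferentiableOn ℂ (fun x => (K x).c) S) (hd : DifferentiableOn ℂ (fun x => (K x).d) S)
    (hs : DifferentiableOn ℂ (fun x => (K x).s) S) (P Q R : Prop) :
    DifferentiableOn ℂ (fun x => (K x).val P Q R) S := by
  classical
  simp only [val]
  by_cases hP : P
  · by_cases hQ : Q
    · simpa only [hP, hQ, if_true] using ha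
    · simpa only [hP, hQ, if_true, if_false] using hb
  · by_cases hQ : Q
    · simpa only [hP, hQ, if_true, if_false] using hc
    · by_cases hR : R
      · simp only [hP, hQ, hR, if_true, if_false]; exact hd.add hs
      · simpa only [hP, hQ, hR, if_false, add_zero] using hd

lemma cont_Z {X : Type} [TopologicalSpace X] {S : Set X} {K : X → Ker ℂ} {f : X → ℂ}
    (ha : ContinuousOn (fun x => (K x).a) S) (hb : ContinuousOn (fun x => (K x).b) S)
    (hc : ContinuousOn (fun x => (K x).c) S) (hd : ContinuousOn (fun x => (K x).d) S)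
    (hs : ContinuousOn (fun x => (K x).s) S) (hf : ContinuousOn f S) :
    ContinuousOn (fun x => Z p m (K x) (f x)) S := by
  simp only [Z, setSum, skW]
  refine continuousOn_finset_sum _ fun s _ => ?_
  refine ContinuousOn.mul (ContinuousOn.mul continuousOn_const (ContinuousOn.mul ?_
    continuousOn_const)) ?_
  · exact continuousOn_finset_prod _ fun i _ => cont_val ha hb hc hd hs _ _ _
  · exact (Polynomial.continuous_aeval (A := ℂ) (descPochhammer ℤ (ncl s))).comp_continuousOn hf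

lemma diff_Z {S : Set ℂ} {K : ℂ → Ker ℂ} {f : ℂ → ℂ}
    (ha : DifferentiableOn ℂ (fun x => (K x).a) S) (hb : DifferentiableOn ℂ (fun x => (K x).b) S)
    (hc : DifferentiableOn ℂ (fun x => (K x).c) S) (hd : DifferentiableOn ℂ (fun x => (K x).d) S)
    (hs : DifferentiableOn ℂ (fun x => (K x).s) S) (hf : DifferentiableOn ℂ f S) :
    DifferentiableOn ℂ (fun x => Z p m (K x) (f x)) S := by
  simp only [Z, setSum, skW]
  refine DifferentiableOn.fun_sum fun s _ => ?_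
  refine DifferentiableOn.mul (DifferentiableOn.mul (differentiableOn_const _)
    (DifferentiableOn.mul ?_ (differentiableOn_const _))) ?_
  · exact DifferentiableOn.fun_finset_prod fun i _ => diff_val ha hb hc hd hs _ _ _
  · exact (Polynomial.differentiable_aeval (𝕜 := ℂ)
      (descPochhammer ℤ (ncl s))).comp_differentiableOn hf

lemma cont_Z_Ku {X : Type} [TopologicalSpace X] {S : Set X} {f a b x y : X → ℂ}
    (hf : ContinuousOn f S) (ha : ContinuousOn a S) (hb : ContinuousOn b S)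
    (hx : ContinuousOn x S) (hy : ContinuousOn y S) :
    ContinuousOn (fun t => Z p m (Ku (f t) (a t) (b t) 1 (x t) (y t)) (f t)) S := by
  refine cont_Z ?_ ?_ ?_ ?_ ?_ hf <;>
    simp only [Ku, t11, t12, t21, t22, g12, g21, g22, kap] <;> fun_prop

lemma diff_Z_Ku {S : Set ℂ} {f a b x y : ℂ → ℂ}
    (hf : DifferentiableOn ℂ f S) (ha : DifferentiableOn ℂ a S) (hb : DifferentiableOn ℂ b S)
    (hx : DifferentiableOn ℂ x S) (hy : DifferentiableOn ℂ y S) :
    DifferentiableOn ℂ (fun t => Z p m (Ku (f t) (a t) (b t) 1 (x t) (y t)) (f t)) S := by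
  refine diff_Z ?_ ?_ ?_ ?_ ?_ hf <;>
    simp only [Ku, t11, t12, t21, t22, g12, g21, g22, kap] <;> fun_prop

end reg

/-- the polynomial whose roots have to be avoided -/
noncomputable def badP (p m : ℕ) : ℂ[X] := thP p m X * rsl X

lemma rsl_map {A B : Type} [CommRing A] [CommRing B] (f : A →+* B) (q : A) :
    f (rsl q) = rsl (f q) := by
  simp only [rsl, j1, j0, trT, dtT, t11, t12, t21, t22, g12, g21, g22, kap, map_add, map_mul,
    map_sub, map_pow, map_ofNat, map_one]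

lemma badP_eval (p m : ℕ) (q : ℂ) : (badP p m).eval q = thP p m q * rsl q := by
  rw [← coe_evalRingHom, badP, map_mul, thP_map, rsl_map, coe_evalRingHom, eval_X]

lemma thD_two (L : ℕ) : (2 : ℂ) * thD 2 L = 1 - (-1) ^ L := by
  have := q_mul_thD (2 : ℂ) L
  rw [this]
  norm_num

lemma thP_two (p m : ℕ) : thP p m (2 : ℂ) ≠ 0 := by
  have h := thD_two (m + 3)
  rcases Nat.even_or_odd (m + 3) with he | ho
  · rw [he.neg_one_pow] at h
    have h0 : thD (2 : ℂ) (m + 3) = 0 := by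
      have : (2 : ℂ) * thD 2 (m + 3) = 0 := by rw [h]; ring
      rcases mul_eq_zero.1 this with h | h
      · norm_num at h
      · exact h
    rw [thP, h0, he.neg_one_pow]
    simp
  · rw [ho.neg_one_pow] at h
    have h0 : thD (2 : ℂ) (m + 3) = 1 := by
      have : (2 : ℂ) * (thD 2 (m + 3) - 1) = 0 := by rw [mul_sub, h]; ring
      rcases mul_eq_zero.1 this with h | h
      · norm_num at h
      · exact sub_eq_zero.1 h
    rw [thP, h0, ho.neg_one_pow]
    norm_num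

lemma rsl_three : rsl (3 : ℂ) ≠ 0 := by
  simp only [rsl, j1, j0, trT, dtT, t11, t12, t21, t22, g12, g21, g22, kap]
  norm_num

lemma badP_ne (p m : ℕ) : badP p m ≠ 0 := by
  refine mul_ne_zero ?_ ?_
  · intro h
    have h2 : (thP p m X : ℂ[X]).eval 2 = 0 := by rw [h]; simp
    rw [← coe_evalRingHom, thP_map, coe_evalRingHom, eval_X] at h2
    exact thP_two p m h2
  · intro h
    have h2 : (rsl X : ℂ[X]).eval 3 = 0 := by rw [h]; simp
    rw [← coe_evalRingHom, rsl_map, coe_evalRingHom, eval_X] at h2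
    exact rsl_three h2

lemma exists_radius (P : ℂ[X]) (hP : P ≠ 0) (c : ℂ) {ε : ℝ} (hε : 0 < ε) :
    ∃ δ, 0 < δ ∧ δ < ε ∧ ∀ z ∈ sphere c δ, P.eval z ≠ 0 := by
  have hfin : Set.Finite ((fun z => dist z c) '' {z : ℂ | P.eval z = 0}) := by
    refine Set.Finite.image _ ?_
    have := P.finite_setOf_isRoot hP
    exact this
  have hinf : Set.Infinite (Set.Ioo 0 ε) := Set.Ioo_infinite hε
  obtain ⟨δ, hδ, hn⟩ := (hinf.diff hfin).nonempty
  refine ⟨δ, hδ.1, hδ.2, ?_⟩
  intro z hz h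
  exact hn ⟨z, h, hz⟩

/-- data near a point: the eigenvalues of the transfer matrix with strict domination -/
structure Dom (U : Set ℂ) (lp lm ρ σ : ℂ → ℂ) : Prop where
  isOpen : IsOpen U
  dlp : DifferentiableOn ℂ lp U
  dlm : DifferentiableOn ℂ lm U
  dρ : DifferentiableOn ℂ ρ U
  dσ : DifferentiableOn ℂ σ U
  add : ∀ q ∈ U, lp q + lm q = trT q
  mul : ∀ q ∈ U, lp q * lm q = dtT q
  ne1 : ∀ q ∈ U, q ≠ 1
  ne2 : ∀ q ∈ U, q ≠ 2
  hlm : ∀ q ∈ U, lm q = lp q * ρ q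
  hk : ∀ q ∈ U, kap q = lp q * σ q
  hne : ∀ q ∈ U, lp q ≠ lm q
  hρ : ∀ q ∈ U, ‖ρ q‖ < 1
  hσ : ∀ q ∈ U, ‖σ q‖ < 1

lemma exists_pow_lt {K : Set ℂ} (hK : IsCompact K) (hne : K.Nonempty) {ρ : ℂ → ℂ}
    (hc : ContinuousOn ρ K) (h : ∀ q ∈ K, ‖ρ q‖ < 1) {d : ℝ} (hd : 0 < d) :
    ∃ l0 : ℕ, ∀ l, l0 ≤ l → ∀ q ∈ K, ‖ρ q ^ l‖ < d := by
  obtain ⟨x, hx, hmax⟩ := hK.exists_isMaxOn hne hc.norm
  have h1 : Tendsto (fun l : ℕ => ‖ρ x‖ ^ l) atTop (𝓝 0) :=
    tendsto_pow_atTop_nhds_zero_of_lt_one (norm_nonneg _) (h x hx)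
  have h2 := h1.eventually (gt_mem_nhds hd)
  obtain ⟨l0, hl0⟩ := eventually_atTop.1 h2
  refine ⟨l0, fun l hl q hq => ?_⟩
  rw [norm_pow]
  calc ‖ρ q‖ ^ l ≤ ‖ρ x‖ ^ l := pow_le_pow_left₀ (norm_nonneg _) (hmax hq) l
    _ < d := hl0 l hl

theorem local_root {U : Set ℂ} {lp lm ρ σ : ℂ → ℂ} (D : Dom U lp lm ρ σ) {q1 : ℂ} (hq1 : q1 ∈ U)
    {p m : ℕ} (hth : thP p m q1 = 0) {ε : ℝ} (hε : 0 < ε) :
    ∃ q, ‖q - q1‖ < ε ∧ ∃ l, IsChromaticRoot (Gr p m l) q := by
  obtain ⟨r, hr, hrU⟩ := Metric.isOpen_iff.1 D.isOpen q1 hq1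
  obtain ⟨δ, hδ, hδlt, hsph⟩ := exists_radius (badP p m) (badP_ne p m) q1
    (ε := min ε r) (lt_min hε hr)
  set K : Set ℂ := closedBall q1 δ with hKdef
  have hKU : K ⊆ U := fun z hz => hrU (by
    rw [hKdef, mem_closedBall] at hz
    rw [mem_ball]
    exact hz.trans_lt (hδlt.trans_le (min_le_right _ _)))
  have hKc : IsCompact K := isCompact_closedBall _ _
  have hKne : K.Nonempty := ⟨q1, mem_closedBall_self hδ.le⟩
  set F : ℂ × ℂ × ℂ → ℂ := fun x => Z p m (Ku x.1 (lp x.1) (lm x.1) 1 x.2.1 x.2.2) x.1 with hFdef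
  have hFc : ContinuousOn F (K ×ˢ (closedBall (0 : ℂ) 1 ×ˢ closedBall (0 : ℂ) 1)) := by
    have hf : ContinuousOn (fun x : ℂ × ℂ × ℂ => x.1)
      (K ×ˢ (closedBall (0 : ℂ) 1 ×ˢ closedBall (0 : ℂ) 1)) := continuous_fst.continuousOn
    have hx : ContinuousOn (fun x : ℂ × ℂ × ℂ => x.2.1)
      (K ×ˢ (closedBall (0 : ℂ) 1 ×ˢ closedBall (0 : ℂ) 1)) := by fun_prop
    have hy : ContinuousOn (fun x : ℂ × ℂ × ℂ => x.2.2)
      (K ×ˢ (closedBall (0 : ℂ) 1 ×ˢ closedBall (0 : ℂ) 1)) := by fun_prop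
    have hlp : ContinuousOn (fun x : ℂ × ℂ × ℂ => lp x.1)
      (K ×ˢ (closedBall (0 : ℂ) 1 ×ˢ closedBall (0 : ℂ) 1)) :=
      (D.dlp.continuousOn.mono hKU).comp hf (fun x hx => hx.1)
    have hlm : ContinuousOn (fun x : ℂ × ℂ × ℂ => lm x.1)
      (K ×ˢ (closedBall (0 : ℂ) 1 ×ˢ closedBall (0 : ℂ) 1)) :=
      (D.dlm.continuousOn.mono hKU).comp hf (fun x hx => hx.1)
    exact cont_Z_Ku hf hlp hlm hx hy
  set f : ℂ → ℂ := fun q => F (q, 0, 0) with hfdef
  have hfq : ∀ q ∈ K, f q = thP p m q * fJ (Ku q (lp q) (lm q) 1 0 0) q ^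
      Fintype.card (Ix p m) := by
    intro q hq
    exact Z_Ku_limit p m (D.add q (hKU hq)) (D.mul q (hKU hq)) (D.ne1 q (hKU hq))
      (D.ne2 q (hKU hq))
  have hf0 : f q1 = 0 := by
    rw [hfq q1 (mem_closedBall_self hδ.le), hth, zero_mul]
  have hfs : ∀ z ∈ sphere q1 δ, f z ≠ 0 := by
    intro z hz h
    have hzK : z ∈ K := sphere_subset_closedBall hz
    rw [hfq z hzK] at h
    refine hsph z hz ?_
    rw [badP_eval]
    rcases mul_eq_zero.1 h with h | h
    · rw [h, zero_mul]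
    · rw [rsl_of_fJ (D.add z (hKU hzK)) (D.mul z (hKU hzK))
        (eq_zero_of_pow_eq_zero h), mul_zero]
  have hfc : ContinuousOn f K := by
    refine hFc.comp (f := fun q : ℂ => (q, (0 : ℂ), (0 : ℂ))) (by fun_prop) ?_
    intro q hq
    refine ⟨hq, ?_, ?_⟩ <;> simp
  obtain ⟨x0, hx0, hmin⟩ := (isCompact_sphere q1 δ).exists_isMinOn
    (NormedSpace.sphere_nonempty.mpr hδ.le) (hfc.mono sphere_subset_closedBall).norm
  have hη : 0 < ‖f x0‖ := norm_pos_iff.2 (hfs x0 hx0)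
  obtain ⟨d, hd, hdu⟩ := exists_unif hKc hFc (η := ‖f x0‖ / 2) (by positivity)
  obtain ⟨l1, hl1⟩ := exists_pow_lt hKc hKne (D.dρ.continuousOn.mono hKU)
    (fun q hq => D.hρ q (hKU hq)) hd
  obtain ⟨l2, hl2⟩ := exists_pow_lt hKc hKne (D.dσ.continuousOn.mono hKU)
    (fun q hq => D.hσ q (hKU hq)) hd
  set l := max l1 l2 with hl
  set g : ℂ → ℂ := fun q => F (q, ρ q ^ l, σ q ^ l) with hgdef
  have hgd : DifferentiableOn ℂ g K := by
    have d1 : DifferentiableOn ℂ lp K := D.dlp.mono hKU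
    have d2 : DifferentiableOn ℂ lm K := D.dlm.mono hKU
    have d3 : DifferentiableOn ℂ ρ K := D.dρ.mono hKU
    have d4 : DifferentiableOn ℂ σ K := D.dσ.mono hKU
    exact diff_Z_Ku differentiableOn_id d1 d2 (d3.pow l) (d4.pow l)
  obtain ⟨q, hq, hgq⟩ := zero_of_close hδ hη hgd hf0 (fun z hz => hmin hz) (fun z hz => by
    exact hdu z hz _ _ (hl1 l (le_max_left _ _) z hz) (hl2 l (le_max_right _ _) z hz))
  have hqU := hKU hq
  refine ⟨q, ?_, l, root_of_Ku (D.add q hqU) (D.mul q hqU) (D.ne1 q hqU) (D.hlm q hqU)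
    (D.hk q hqU) (D.hne q hqU) hgq⟩
  rw [← dist_eq_norm]
  exact lt_of_le_of_lt hq (hδlt.trans_le (min_le_left _ _))

end H37.Chrom
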