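import Pool.Agent.H37.Chrom.Family

/-!
Planarity of the family.
-/

namespace H37.Chrom

variable {p m l : ℕ}

/-- multiples of the side length -/
def pj (l j : ℕ) : ℕ := j * (2 * (l + 1))

lemma pj_zero (l : ℕ) : pj l 0 = 0 := by simp [pj]

lemma pj_succ (l j : ℕ) : pj l (j + 1) = pj l j + 2 * (l + 1) := by simp only [pj]; ring

lemma pj_step (l : ℕ) {j j' : ℕ} (h : j < j') : pj l j + 2 * (l + 1) ≤ pj l j' := by
  rw [← pj_succ]
  exact Nat.mul_le_mul_right _ h

lemma pj_mono (l : ℕ) {j j' : ℕ} (h : j ≤ j') : pj l j ≤ pj l j' := Nat.mul_le_mul_right _ h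

/-- width of the drawing -/
def wid (m l : ℕ) : ℕ := pj l (m + 1) + 2 * (l + 1) + 3

/-- block of rows -/
def blk : Vert p m l → ℕ
  | .hub _ => 0
  | .bb i _ => i
  | .far f _ _ _ => f
  | .near f _ _ _ => f

/-- offset of the row inside the block -/
def off : Vert p m l → ℕ
  | .hub _ => 0
  | .bb _ _ => 0
  | .far _ .left t b => 2 * (l + 1) + 1 - (2 * t + b.toNat)
  | .near _ .left t b => 2 * (l + 1) + 1 - (2 * t + b.toNat)
  | .far _ .right t b => 2 + (2 * t + b.toNat)
  | .near _ .right t b => 2 + (2 * t + b.toNat)
  | .far _ (.bot _) _ _ => 2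
  | .near _ (.bot _) _ _ => 1
  | .far _ (.top _) _ _ => 2 * (l + 1) + 1
  | .near _ (.top _) _ _ => 2 * (l + 1) + 2

/-- integer abscissa -/
def xi : Vert p m l → ℕ
  | .hub _ => 0
  | .bb _ j => if j.val = m + 1 then wid m l else j.val
  | .far _ .left _ _ => 1
  | .near _ .left _ _ => 0
  | .far _ .right _ _ => wid m l - 1
  | .near _ .right _ _ => wid m l
  | .far _ (.bot j) t b => 2 + (pj l j + (2 * t + b.toNat))
  | .near _ (.bot j) t b => 2 + (pj l j + (2 * t + b.toNat))
  | .far _ (.top j) t b => 2 + (pj l j + (2 * (l + 1) - 1 - (2 * t + b.toNat)))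
  | .near _ (.top j) t b => 2 + (pj l j + (2 * (l + 1) - 1 - (2 * t + b.toNat)))

lemma toNat_le (b : Bool) : b.toNat ≤ 1 := by cases b <;> simp

lemma off_lt (a : Vert p m l) : off a < 2 * (l + 1) + 3 := by
  rcases a with b | ⟨i, j⟩ | ⟨f, s, t, b⟩ | ⟨f, s, t, b⟩
  · simp only [off]; omega
  · simp only [off]; omega
  · have := t.2; have := toNat_le b
    rcases s with _ | _ | j | j <;> simp only [off] <;> omega
  · have := t.2; have := toNat_le b
    rcases s with _ | _ | j | j <;> simp only [off] <;> omega

lemma xi_le (a : Vert p m l) : xi a ≤ wid m l := by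
  rcases a with b | ⟨i, j⟩ | ⟨f, s, t, b⟩ | ⟨f, s, t, b⟩
  · simp only [xi]; omega
  · have := j.2
    simp only [xi]
    split_ifs
    · exact le_rfl
    · have : m + 1 ≤ pj l (m + 1) := by simp only [pj]; nlinarith
      simp only [wid]; omega
  · have := t.2; have := toNat_le b
    rcases s with _ | _ | j | j <;> simp only [xi, wid]
    · omega
    · omega
    · have := pj_mono l (by have := j.2; omega : j.val ≤ m + 1); omega
    · have := pj_mono l (by have := j.2; omega : j.val ≤ m + 1); omega
  · have := t.2; have := toNat_le b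
    rcases s with _ | _ | j | j <;> simp only [xi, wid]
    · omega
    · omega
    · have := pj_mono l (by have := j.2; omega : j.val ≤ m + 1); omega
    · have := pj_mono l (by have := j.2; omega : j.val ≤ m + 1); omega

/-- the row -/
def rw' (a : Vert p m l) : ℤ := (blk a * (2 * (l + 1) + 3) + off a : ℕ)

lemma rw_eq {a b : Vert p m l} (h : rw' a = rw' b) : blk a = blk b ∧ off a = off b := by
  have ha := off_lt a
  have hb := off_lt b
  simp only [rw', Nat.cast_inj] at h
  have h1 : blk a = blk b := by
    have e1 := congrArg (· / (2 * (l + 1) + 3)) h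
    rw [Nat.add_comm, Nat.add_mul_div_right _ _ (by omega), Nat.div_eq_of_lt ha, Nat.zero_add,
      Nat.add_comm, Nat.add_mul_div_right _ _ (by omega), Nat.div_eq_of_lt hb, Nat.zero_add] at e1
    exact e1
  refine ⟨h1, ?_⟩
  rw [h1] at h
  omega

lemma rw_succ {a b : Vert p m l} (h : rw' b = rw' a + 1) :
    (blk a = blk b ∧ off b = off a + 1) ∨
      (blk b = blk a + 1 ∧ off a = 2 * (l + 1) + 2 ∧ off b = 0) := by
  have ha := off_lt a
  have hb := off_lt b
  simp only [rw'] at h
  have h' : blk b * (2 * (l + 1) + 3) + off b = blk a * (2 * (l + 1) + 3) + off a + 1 := by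
    exact_mod_cast h
  rcases lt_trichotomy (blk a) (blk b) with hlt | heq | hgt
  · right
    obtain ⟨d, hd⟩ := Nat.exists_eq_add_of_lt hlt
    have hd0 : d = 0 := by
      by_contra hne
      have h1 : 1 ≤ d := Nat.one_le_iff_ne_zero.2 hne
      have h2 : (blk a + d + 1) * (2 * (l + 1) + 3) ≥ (blk a + 2) * (2 * (l + 1) + 3) :=
        Nat.mul_le_mul_right _ (by omega)
      rw [hd] at h'
      have h3 : (blk a + 2) * (2 * (l + 1) + 3) =
          blk a * (2 * (l + 1) + 3) + 2 * (2 * (l + 1) + 3) := by ring
      omega
    subst hd0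
    rw [hd] at h'
    have h3 : (blk a + 0 + 1) * (2 * (l + 1) + 3) =
        blk a * (2 * (l + 1) + 3) + (2 * (l + 1) + 3) := by ring
    refine ⟨by omega, ?_, ?_⟩ <;> omega
  · left
    refine ⟨heq, ?_⟩
    rw [heq] at h'
    omega
  · exfalso
    have h2 : (blk b + 1) * (2 * (l + 1) + 3) ≤ blk a * (2 * (l + 1) + 3) :=
      Nat.mul_le_mul_right _ hgt
    have h3 : (blk b + 1) * (2 * (l + 1) + 3) =
        blk b * (2 * (l + 1) + 3) + (2 * (l + 1) + 3) := by ring
    omega

lemma pj_inj {j j' u u' : ℕ} (hu : u < 2 * (l + 1)) (hu' : u' < 2 * (l + 1))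
    (h : pj l j + u = pj l j' + u') : j = j' ∧ u = u' := by
  rcases lt_trichotomy j j' with hlt | heq | hgt
  · have := pj_step l hlt; omega
  · subst heq; exact ⟨rfl, by omega⟩
  · have := pj_step l hgt; omega

lemma toNat_inj {t t' : Fin (l + 1)} {b b' : Bool}
    (h : 2 * t.val + b.toNat = 2 * t'.val + b'.toNat) : t = t' ∧ b = b' := by
  cases b <;> cases b' <;> simp at h ⊢ <;> omega

lemma vert_inj {a b : Vert p m l} (ha : ∀ c, a ≠ .hub c) (hb : ∀ c, b ≠ .hub c)
    (h1 : blk a = blk b) (h2 : off a = off b) (h3 : xi a = xi b) : a = b := by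
  have hm1 : m + 1 ≤ pj l (m + 1) := by simp only [pj]; nlinarith
  rcases a with c | ⟨i, j⟩ | ⟨f, s, t, c⟩ | ⟨f, s, t, c⟩
  · exact absurd rfl (ha c)
  · rcases b with c' | ⟨i', j'⟩ | ⟨f', s', t', c'⟩ | ⟨f', s', t', c'⟩
    · exact absurd rfl (hb c')
    · have hj := j.2
      have hj' := j'.2
      simp only [blk] at h1
      simp only [xi, wid] at h3
      have e1 : i = i' := Fin.ext h1
      have e2 : j = j' := by
        ext
        split_ifs at h3 <;> omega
      rw [e1, e2]
    · exfalso
      have := t'.2; have := toNat_le c'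
      rcases s' with _ | _ | j' | j' <;> simp only [off] at h2 <;> omega
    · exfalso
      have := t'.2; have := toNat_le c'
      rcases s' with _ | _ | j' | j' <;> simp only [off] at h2 <;> omega
  · have ht := t.2
    have hc := toNat_le c
    rcases b with c' | ⟨i', j'⟩ | ⟨f', s', t', c'⟩ | ⟨f', s', t', c'⟩
    · exact absurd rfl (hb c')
    · exfalso
      rcases s with _ | _ | j | j <;> simp only [off] at h2 <;> omega
    · have ht' := t'.2
      have hc' := toNat_le c'
      have e1 : f = f' := Fin.ext h1
      subst e1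
      rcases s with _ | _ | j | j <;> rcases s' with _ | _ | j' | j' <;>
        simp only [off] at h2 <;> simp only [xi, wid] at h3 <;>
        try have hpj := pj_mono l (by have := j.2; omega : j.val ≤ m + 1)
      all_goals try have hpj' := pj_mono l (by have := j'.2; omega : j'.val ≤ m + 1)
      all_goals try (exfalso; omega)
      · obtain ⟨e2, e3⟩ := toNat_inj (l := l) (t := t) (t' := t') (b := c) (b' := c') (by omega)
        rw [e2, e3]
      · obtain ⟨e2, e3⟩ := toNat_inj (l := l) (t := t) (t' := t') (b := c) (b' := c') (by omega)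
        rw [e2, e3]
      · obtain ⟨e4, e5⟩ := pj_inj (l := l) (j := j) (j' := j') (u := 2 * t + c.toNat)
          (u' := 2 * t' + c'.toNat) (by omega) (by omega) (by omega)
        obtain ⟨e2, e3⟩ := toNat_inj (l := l) e5
        rw [e2, e3, Fin.ext e4]
      · obtain ⟨e4, e5⟩ := pj_inj (l := l) (j := j) (j' := j')
          (u := 2 * (l + 1) - 1 - (2 * t + c.toNat))
          (u' := 2 * (l + 1) - 1 - (2 * t' + c'.toNat)) (by omega) (by omega) (by omega)
        obtain ⟨e2, e3⟩ := toNat_inj (l := l) (t := t) (t' := t') (b := c) (b' := c') (by omega)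
        rw [e2, e3, Fin.ext e4]
    · exfalso
      have ht' := t'.2
      have hc' := toNat_le c'
      rcases s with _ | _ | j | j <;> rcases s' with _ | _ | j' | j' <;>
        simp only [off] at h2 <;> simp only [xi, wid] at h3 <;>
        try have hpj := pj_mono l (by have := j.2; omega : j.val ≤ m + 1)
      all_goals try have hpj' := pj_mono l (by have := j'.2; omega : j'.val ≤ m + 1)
      all_goals omega
  · have ht := t.2
    have hc := toNat_le c
    rcases b with c' | ⟨i', j'⟩ | ⟨f', s', t', c'⟩ | ⟨f', s', t', c'⟩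
    · exact absurd rfl (hb c')
    · exfalso
      rcases s with _ | _ | j | j <;> simp only [off] at h2 <;> omega
    · exfalso
      have ht' := t'.2
      have hc' := toNat_le c'
      rcases s with _ | _ | j | j <;> rcases s' with _ | _ | j' | j' <;>
        simp only [off] at h2 <;> simp only [xi, wid] at h3 <;>
        try have hpj := pj_mono l (by have := j.2; omega : j.val ≤ m + 1)
      all_goals try have hpj' := pj_mono l (by have := j'.2; omega : j'.val ≤ m + 1)
      all_goals omega
    · have ht' := t'.2
      have hc' := toNat_le c'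
      have e1 : f = f' := Fin.ext h1
      subst e1
      rcases s with _ | _ | j | j <;> rcases s' with _ | _ | j' | j' <;>
        simp only [off] at h2 <;> simp only [xi, wid] at h3 <;>
        try have hpj := pj_mono l (by have := j.2; omega : j.val ≤ m + 1)
      all_goals try have hpj' := pj_mono l (by have := j'.2; omega : j'.val ≤ m + 1)
      all_goals try (exfalso; omega)
      · obtain ⟨e2, e3⟩ := toNat_inj (l := l) (t := t) (t' := t') (b := c) (b' := c') (by omega)
        rw [e2, e3]
      · obtain ⟨e2, e3⟩ := toNat_inj (l := l) (t := t) (t' := t') (b := c) (b' := c') (by omega)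
        rw [e2, e3]
      · obtain ⟨e4, e5⟩ := pj_inj (l := l) (j := j) (j' := j') (u := 2 * t + c.toNat)
          (u' := 2 * t' + c'.toNat) (by omega) (by omega) (by omega)
        obtain ⟨e2, e3⟩ := toNat_inj (l := l) e5
        rw [e2, e3, Fin.ext e4]
      · obtain ⟨e4, e5⟩ := pj_inj (l := l) (j := j) (j' := j')
          (u := 2 * (l + 1) - 1 - (2 * t + c.toNat))
          (u' := 2 * (l + 1) - 1 - (2 * t' + c'.toNat)) (by omega) (by omega) (by omega)
        obtain ⟨e2, e3⟩ := toNat_inj (l := l) (t := t) (t' := t') (b := c) (b' := c') (by omega)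
        rw [e2, e3, Fin.ext e4]



/-- classification of the (non-hub) edges -/
inductive Cls : Vert p m l → Vert p m l → Prop
  | path (i : Fin (p + 2)) (j : Fin (m + 1)) : Cls (.bb i j.castSucc) (.bb i j.succ)
  | horiz (a b : Vert p m l) (h1 : blk a = blk b) (h2 : off a = off b) (h3 : xi b = xi a + 1) :
      Cls a b
  | up (f : Fin (p + 1)) (j : Fin (m + 2)) (t : Fin (l + 1)) (c : Bool) :
      Cls (.bb f.castSucc j) (.near f (.bot j) t c)
  | down (f : Fin (p + 1)) (j : Fin (m + 2)) (t : Fin (l + 1)) (c : Bool) :
      Cls (.near f (.top j) t c) (.bb f.succ j)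
  | vert (a b : Vert p m l) (h1 : blk a = blk b) (h2 : off b = off a + 1) (h3 : xi a = xi b)
      (h4 : 1 ≤ off a) (h5 : off a ≤ 2 * (l + 1) + 1) : Cls a b

lemma E.cls {a b : Vert p m l} (h : E a b) (ha : ∀ c, a ≠ .hub c) (hb : ∀ c, b ≠ .hub c) :
    Cls a b ∨ Cls b a := by
  cases h with
  | hubL i => exact absurd rfl (ha _)
  | hubR i => exact absurd rfl (ha _)
  | path i j => exact Or.inl (Cls.path i j)
  | spoke f s t c =>
    rcases s with _ | _ | j | j
    · exact absurd rfl (hb _)
    · exact absurd rfl (hb _)
    · exact Or.inr (Cls.up f j t c)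
    · exact Or.inl (Cls.down f j t c)
  | rung f s t c =>
    have ht := t.2
    have hc := toNat_le c
    rcases s with _ | _ | j | j
    · exact Or.inl (Cls.horiz _ _ rfl rfl rfl)
    · refine Or.inr (Cls.horiz _ _ rfl rfl ?_)
      simp only [xi, wid]; omega
    · refine Or.inl (Cls.vert _ _ rfl rfl rfl ?_ ?_) <;> simp only [off] <;> omega
    · refine Or.inr (Cls.vert _ _ rfl rfl rfl ?_ ?_) <;> simp only [off] <;> omega
  | pair f s t =>
    have ht := t.2
    rcases s with _ | _ | j | j
    · refine Or.inr (Cls.vert _ _ rfl ?_ rfl ?_ ?_) <;> simp only [off, Bool.toNat_true,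
        Bool.toNat_false] <;> omega
    · refine Or.inl (Cls.vert _ _ rfl ?_ rfl ?_ ?_) <;> simp only [off, Bool.toNat_true,
        Bool.toNat_false] <;> omega
    · refine Or.inl (Cls.horiz _ _ rfl rfl ?_); simp only [xi, Bool.toNat_true,
        Bool.toNat_false]; omega
    · refine Or.inr (Cls.horiz _ _ rfl rfl ?_); simp only [xi, Bool.toNat_true,
        Bool.toNat_false]; omega
  | farIn f s t =>
    have ht := t.2
    rcases s with _ | _ | j | j
    · refine Or.inr (Cls.vert _ _ rfl ?_ rfl ?_ ?_) <;> simp only [off, Bool.toNat_true,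
        Bool.toNat_false] <;> omega
    · refine Or.inl (Cls.vert _ _ rfl ?_ rfl ?_ ?_) <;> simp only [off, Bool.toNat_true,
        Bool.toNat_false] <;> omega
    · refine Or.inl (Cls.horiz _ _ rfl rfl ?_); simp only [xi, Bool.toNat_true,
        Bool.toNat_false]; omega
    · refine Or.inr (Cls.horiz _ _ rfl rfl ?_); simp only [xi, Bool.toNat_true,
        Bool.toNat_false]; omega
  | farStep f s t =>
    have ht := t.2
    rcases s with _ | _ | j | j
    · refine Or.inr (Cls.vert _ _ rfl ?_ rfl ?_ ?_) <;> simp only [off, Bool.toNat_true,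
        Bool.toNat_false, Fin.val_castSucc, Fin.val_succ] <;> omega
    · refine Or.inl (Cls.vert _ _ rfl ?_ rfl ?_ ?_) <;> simp only [off, Bool.toNat_true,
        Bool.toNat_false, Fin.val_castSucc, Fin.val_succ] <;> omega
    · refine Or.inl (Cls.horiz _ _ rfl rfl ?_); simp only [xi, Bool.toNat_true,
        Bool.toNat_false, Fin.val_castSucc, Fin.val_succ]; omega
    · refine Or.inr (Cls.horiz _ _ rfl rfl ?_); simp only [xi, Bool.toNat_true,
        Bool.toNat_false, Fin.val_castSucc, Fin.val_succ]; omega
  | farJ f s =>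
    rcases s with _ | _ | j | j
    · refine Or.inl (Cls.horiz _ _ rfl ?_ ?_)
      · simp only [off, Side.next, Bool.toNat_true, Fin.val_last]; omega
      · simp only [xi, Side.next, Bool.toNat_false, Fin.val_zero, pj_zero]
    · refine Or.inr (Cls.horiz _ _ rfl ?_ ?_)
      · simp only [off, Side.next, Bool.toNat_true, Fin.val_last]; omega
      · simp only [xi, Side.next, Bool.toNat_false, Fin.val_zero, Fin.val_last, wid]; omega
    · by_cases hj : j.val + 1 < m + 2
      · refine Or.inl (Cls.horiz _ _ rfl ?_ ?_)
        · simp only [off, Side.next, hj, dif_pos]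
        · simp only [xi, Side.next, hj, dif_pos, Bool.toNat_false, Bool.toNat_true, Fin.val_zero,
            Fin.val_last, pj_succ]; omega
      · have hj' : j.val = m + 1 := by have := j.2; omega
        have hn : Side.next (.bot j) = .right := by simp [Side.next, hj]
        rw [hn]
        refine Or.inl (Cls.horiz _ _ rfl ?_ ?_)
        · simp only [off, Bool.toNat_false, Fin.val_zero]
        · simp only [xi, Bool.toNat_true, Fin.val_last, wid, hj']; omega
    · by_cases hj : 0 < j.val
      · refine Or.inr (Cls.horiz _ _ rfl ?_ ?_)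
        · simp only [off, Side.next, hj, dif_pos]
        · have hj1 : pj l j.val = pj l (j.val - 1) + 2 * (l + 1) := by
            rw [← pj_succ]; congr 1; omega
          simp only [xi, Side.next, hj, dif_pos, Bool.toNat_false, Bool.toNat_true, Fin.val_zero,
            Fin.val_last]; omega
      · have hj' : j.val = 0 := by omega
        have hn : Side.next (.top j) = .left := by simp [Side.next, hj]
        rw [hn]
        refine Or.inr (Cls.horiz _ _ rfl ?_ ?_)
        · simp only [off, Bool.toNat_false, Fin.val_zero]; omega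
        · simp only [xi, Bool.toNat_true, Fin.val_last, hj', pj_zero]; omega

lemma off_bb {a : Vert p m l} (h : off a = 0) (ha : ∀ c, a ≠ .hub c) :
    ∃ i j, a = .bb i j := by
  rcases a with c | ⟨i, j⟩ | ⟨f, s, t, c⟩ | ⟨f, s, t, c⟩
  · exact absurd rfl (ha c)
  · exact ⟨i, j, rfl⟩
  · exfalso
    have := t.2; have := toNat_le c
    rcases s with _ | _ | j | j <;> simp only [off] at h <;> omega
  · exfalso
    have := t.2; have := toNat_le c
    rcases s with _ | _ | j | j <;> simp only [off] at h <;> omega

/-- edges inside a row have no vertex between their ends -/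
lemma Cls.between {a b c : Vert p m l} (h : Cls a b) (hrow : rw' a = rw' b)
    (hc : ∀ d, c ≠ .hub d) (hca : rw' c = rw' a) : ¬ (xi a < xi c ∧ xi c < xi b) ∧
      ¬ (xi b < xi c ∧ xi c < xi a) := by
  have hm1 : m + 1 ≤ pj l (m + 1) := by simp only [pj]; nlinarith
  have e := rw_eq hrow
  have e' := rw_eq hca
  cases h with
  | path i j =>
    obtain ⟨i', j', rfl⟩ := off_bb (a := c) (by rw [e'.2]; rfl) hc
    have := j.2; have := j'.2
    simp only [xi, wid, Fin.val_castSucc, Fin.val_succ]
    constructor <;> split_ifs <;> omega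
  | horiz a b h1 h2 h3 => constructor <;> omega
  | up f j t c =>
    exfalso
    have := e.2
    simp only [off] at this; omega
  | down f j t c =>
    exfalso
    have := e.2
    simp only [off] at this; omega
  | vert a b h1 h2 h3 h4 h5 => omega

lemma Cls.rw_le {a b : Vert p m l} (h : Cls a b) : rw' b = rw' a ∨ rw' b = rw' a + 1 := by
  cases h with
  | path i j => left; rfl
  | horiz a b h1 h2 h3 => left; simp only [rw', h1, h2]
  | up f j t c =>
    right
    simp only [rw', blk, off, Fin.val_castSucc]; push_cast; ring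
  | down f j t c =>
    right
    simp only [rw', blk, off, Fin.val_succ]; push_cast; ring
  | vert a b h1 h2 h3 h4 h5 => right; simp only [rw', h1, h2]; push_cast; ring

lemma xi_bb_mono {i i' : Fin (p + 2)} {j j' : Fin (m + 2)} (h : j ≤ j') :
    xi (.bb i j : Vert p m l) ≤ xi (.bb i' j' : Vert p m l) := by
  have hm1 : m + 1 ≤ pj l (m + 1) := by simp only [pj]; nlinarith
  have h' : j.val ≤ j'.val := h
  have := j'.2
  simp only [xi, wid]
  split_ifs <;> omega

lemma band_cond {a b c d : Vert p m l} (h : Cls a b) (h' : Cls c d) (hr : rw' b = rw' a + 1)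
    (hr2 : rw' c = rw' a) (hr3 : rw' d = rw' a + 1) (hx : xi a < xi c) : xi b ≤ xi d := by
  have e2 := rw_eq hr2
  have hr' : rw' d = rw' c + 1 := by rw [hr3, hr2]
  cases h with
  | path i j => exfalso; simp only [rw', blk, off] at hr; omega
  | horiz a b h1 h2 h3 => exfalso; simp only [rw', h1, h2] at hr; omega
  | up f j t u =>
    cases h' with
    | path i j => exfalso; simp only [rw', blk, off] at hr'; omega
    | horiz c d h1 h2 h3 => exfalso; simp only [rw', h1, h2] at hr'; omega
    | up f' j' t' u' =>
      have hjj : j.val < j'.val := by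
        by_contra hcon
        have := xi_bb_mono (p := p) (m := m) (l := l) (i := f'.castSucc) (i' := f.castSucc)
          (j := j') (j' := j) (by omega)
        omega
      have h3 := pj_step l hjj
      have := t.2; have := toNat_le u
      simp only [xi]; omega
    | down f' j' t' u' =>
      exfalso
      have := e2.2
      simp only [off] at this; omega
    | vert c d h1 h2 h3 h4 h5 =>
      exfalso
      have := e2.2
      have e0 : off (.bb f.castSucc j : Vert p m l) = 0 := rfl
      omega
  | down f j t u =>
    cases h' with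
    | path i j => exfalso; simp only [rw', blk, off] at hr'; omega
    | horiz c d h1 h2 h3 => exfalso; simp only [rw', h1, h2] at hr'; omega
    | up f' j' t' u' =>
      exfalso
      have := e2.2
      simp only [off] at this; omega
    | down f' j' t' u' =>
      have hjj : j.val ≤ j'.val := by
        by_contra hcon
        have := pj_step l (by omega : j'.val < j.val)
        have := t'.2; have := toNat_le u'
        simp only [xi] at hx
        omega
      exact xi_bb_mono hjj
    | vert c d h1 h2 h3 h4 h5 =>
      exfalso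
      have := e2.2
      have e0 : off (.near f (.top j) t u : Vert p m l) = 2 * (l + 1) + 2 := rfl
      omega
  | vert a b h1 h2 h3 h4 h5 =>
    cases h' with
    | path i j => exfalso; simp only [rw', blk, off] at hr'; omega
    | horiz c d h1 h2 h3 => exfalso; simp only [rw', h1, h2] at hr'; omega
    | up f' j' t' u' =>
      exfalso
      have := e2.2
      have e0 : off (.bb f'.castSucc j' : Vert p m l) = 0 := rfl
      omega
    | down f' j' t' u' =>
      exfalso
      have := e2.2
      have e0 : off (.near f' (.top j') t' u' : Vert p m l) = 2 * (l + 1) + 2 := rfl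
      omega
    | vert c d h1' h2' h3' h4' h5' => omega

lemma wid_pos : (0 : ℝ) < (wid m l : ℝ) := by
  have : 0 < wid m l := by simp only [wid]; omega
  exact_mod_cast this

lemma E.inv_hub {a b : Vert p m l} (h : E a b) {c : Bool} (hb : b = .hub c) :
    ∃ f s t b', a = .near f s t b' ∧ (center f s : Vert p m l) = .hub c := by
  cases h with
  | spoke f s t b' => exact ⟨f, s, t, b', rfl, hb⟩
  | hubL i => cases hb
  | hubR i => cases hb
  | path i j => cases hb
  | rung f s t b => cases hb
  | pair f s t => cases hb
  | farIn f s t => cases hb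
  | farStep f s t => cases hb
  | farJ f s => cases hb

lemma not_hub {a : Vert p m l} (h : a ≠ .hub false) (h' : a ≠ .hub true) : ∀ c, a ≠ .hub c := by
  rintro (_ | _)
  · exact h
  · exact h'

/-- the levelled drawing of the family -/
noncomputable def levelled (p m l : ℕ) : Levelled (Gr p m l) where
  L := .hub false
  R := .hub true
  row := rw'
  x := fun a => (xi a : ℝ) / (wid m l : ℝ)
  hLR := by simp
  nadj := by
    rw [Gr_adj']
    rintro (h | h)
    · obtain ⟨f, s, t, b', h1, _⟩ := h.inv_hub rfl
      cases h1
    · obtain ⟨f, s, t, b', h1, _⟩ := h.inv_hub rfl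
      cases h1
  x0 := fun a _ _ => by positivity
  x1 := fun a _ _ => by
    rw [div_le_one wid_pos]
    exact_mod_cast xi_le a
  inj := by
    intro a b ha ha' hb hb' h1 h2
    have e := rw_eq h1
    have hx : (xi a : ℝ) = (xi b : ℝ) := by
      have := wid_pos (m := m) (l := l)
      field_simp at h2
      exact h2
    exact vert_inj (not_hub ha ha') (not_hub hb hb') e.1 e.2 (by exact_mod_cast hx)
  hubL := by
    intro a h
    have hx : xi a = 0 := by
      rcases Gr_adj'.1 h with h | h
      · cases h with
        | hubL i => simp [xi]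
      · obtain ⟨f, s, t, b', h1, h2⟩ := h.inv_hub rfl
        subst h1
        cases s <;> simp [center] at h2 ⊢
        simp [xi]
    simp [hx]
  hubR := by
    intro a h
    have hx : xi a = wid m l := by
      rcases Gr_adj'.1 h with h | h
      · cases h with
        | hubR i => simp [xi]
      · obtain ⟨f, s, t, b', h1, h2⟩ := h.inv_hub rfl
        subst h1
        cases s <;> simp [center] at h2 ⊢
        simp [xi]
    rw [hx]
    exact div_self wid_pos.ne'
  edge := by
    intro a b ha ha' hb hb' h
    have hA := not_hub ha ha'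
    have hB := not_hub hb hb'
    have key : ∀ c d : Vert p m l, Cls c d → rw' c = rw' d →
        ∀ e : Vert p m l, e ≠ .hub false → e ≠ .hub true → rw' e = rw' c →
        ¬ ((xi c : ℝ) / (wid m l : ℝ) < (xi e : ℝ) / (wid m l : ℝ) ∧
            (xi e : ℝ) / (wid m l : ℝ) < (xi d : ℝ) / (wid m l : ℝ)) ∧
        ¬ ((xi d : ℝ) / (wid m l : ℝ) < (xi e : ℝ) / (wid m l : ℝ) ∧
            (xi e : ℝ) / (wid m l : ℝ) < (xi c : ℝ) / (wid m l : ℝ)) := by
      intro c d hcd hrow e he he' hrow'
      have hw := wid_pos (m := m) (l := l)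
      have := hcd.between hrow (not_hub he he') hrow'
      simp only [div_lt_div_iff_of_pos_right hw, Nat.cast_lt]
      exact this
    have main : Cls a b ∨ Cls b a := by
      rcases Gr_adj'.1 h with h | h
      · exact h.cls hA hB
      · exact (h.cls hB hA).symm
    rcases main with hc | hc
    · rcases hc.rw_le with hr | hr
      · left
        exact ⟨hr.symm, fun e he he' her => key a b hc hr.symm e he he' her⟩
      · right; left; exact hr
    · rcases hc.rw_le with hr | hr
      · left
        refine ⟨hr, fun e he he' her => ?_⟩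
        have := key b a hc hr.symm e he he' (her.trans hr)
        exact ⟨this.2, this.1⟩
      · right; right; exact hr
  band := by
    intro a b c d ha ha' hb hb' hc hc' hd hd' hab hcd hr hr2 hr3 hx
    have hw := wid_pos (m := m) (l := l)
    rw [div_lt_div_iff_of_pos_right hw, Nat.cast_lt] at hx
    rw [div_le_div_iff_of_pos_right hw, Nat.cast_le]
    have cls : ∀ u v : Vert p m l, (∀ c, u ≠ .hub c) → (∀ c, v ≠ .hub c) → (Gr p m l).Adj u v →
        rw' v = rw' u + 1 → Cls u v := by
      intro u v hu hv h hrow
      have main : Cls u v ∨ Cls v u := by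
        rcases Gr_adj'.1 h with h | h
        · exact h.cls hu hv
        · exact (h.cls hv hu).symm
      rcases main with h1 | h1
      · exact h1
      · exfalso
        rcases h1.rw_le with h2 | h2 <;> omega
    exact band_cond (cls a b (not_hub ha ha') (not_hub hb hb') hab hr)
      (cls c d (not_hub hc hc') (not_hub hd hd') hcd (by rw [hr3, hr2])) hr hr2 hr3 hx

theorem planar_Gr (p m l : ℕ) : Planar (Gr p m l) := (levelled p m l).planar

end H37.Chrom
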