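import Pool.Agent.H37.Chrom.Defs

/-!
Sums over colourings of weights that only depend on which vertices have equal colours are
polynomial in the number of colours.
-/

namespace H37.Chrom

open Polynomial

variable {V : Type} [Fintype V] [DecidableEq V]

instance finite_setoid : Finite (Setoid V) :=
  Finite.of_injective (fun s : Setoid V => (s.r : V → V → Prop)) (by
    intro s t h
    exact Setoid.ext (fun a b => by
      have := congrFun (congrFun h a) b
      exact iff_of_eq this))

noncomputable instance fintype_setoid : Fintype (Setoid V) := Fintype.ofFinite _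

/-- number of classes -/
noncomputable def ncl (s : Setoid V) : ℕ := Nat.card (Quotient s)

/-- colourings with a given kernel correspond to injective maps of the quotient -/
noncomputable def kerEquiv (s : Setoid V) (n : ℕ) :
    {f : V → Fin n // Setoid.ker f = s} ≃ (Quotient s ↪ Fin n) where
  toFun f := ⟨Quotient.lift f.1 (fun a b h => by
      have : (Setoid.ker f.1) a b := by rw [f.2]; exact h
      exact this), by
    intro x y
    induction x using Quotient.inductionOn with
    | _ a =>
      induction y using Quotient.inductionOn with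
      | _ b =>
        intro h
        apply Quotient.sound
        have : (Setoid.ker f.1) a b := h
        rw [f.2] at this
        exact this⟩
  invFun e := ⟨fun a => e (Quotient.mk s a), by
    ext a b
    constructor
    · intro h
      exact Quotient.exact (e.injective h)
    · intro h
      exact congrArg e (Quotient.sound h)⟩
  left_inv f := by
    ext a
    rfl
  right_inv e := by
    ext x
    induction x using Quotient.inductionOn with
    | _ a => rfl

open Classical in
lemma card_ker (s : Setoid V) (n : ℕ) :
    (Finset.univ.filter (fun f : V → Fin n => Setoid.ker f = s)).card =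
      n.descFactorial (ncl s) := by
  rw [← Fintype.card_subtype, Fintype.card_congr (kerEquiv s n), Fintype.card_embedding_eq,
    Fintype.card_fin, ncl, Nat.card_eq_fintype_card]

/-- the sum over all colourings with `q` colours of the weight `w`, extended to all `q` -/
noncomputable def setSum {A : Type} [CommRing A] (w : Setoid V → A) (q : A) : A :=
  ∑ s : Setoid V, w s * aeval q (descPochhammer ℤ (ncl s))

lemma setSum_nat {A : Type} [CommRing A] (w : Setoid V → A) (n : ℕ) :
    setSum w (n : A) = ∑ f : V → Fin n, w (Setoid.ker f) := by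
  classical
  rw [setSum, ← Finset.sum_fiberwise Finset.univ (fun f : V → Fin n => Setoid.ker f)]
  refine Finset.sum_congr rfl fun s _ => ?_
  rw [Finset.sum_congr rfl (g := fun _ => w s) (fun f hf => by
    rw [(Finset.mem_filter.1 hf).2]), Finset.sum_const, card_ker, nsmul_eq_mul, mul_comm]
  congr 1
  have h := descPochhammer_eval_eq_descFactorial ℤ n (ncl s)
  have h2 : aeval (n : A) (descPochhammer ℤ (ncl s)) =
      ((eval (n : ℤ) (descPochhammer ℤ (ncl s)) : ℤ) : A) := by
    have := Polynomial.eval₂_at_intCast (algebraMap ℤ A) (n := (n : ℤ))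
      (p := descPochhammer ℤ (ncl s))
    simp only [aeval_def]
    simpa using this
  rw [h2, h]
  simp

lemma setSum_map {A B : Type} [CommRing A] [CommRing B] (φ : A →+* B) (w : Setoid V → A) (q : A) :
    φ (setSum w q) = setSum (fun s => φ (w s)) (φ q) := by
  rw [setSum, setSum, map_sum]
  refine Finset.sum_congr rfl fun s _ => ?_
  rw [map_mul]
  congr 1
  simp only [aeval_def, Polynomial.hom_eval₂]
  congr 1
  ext; simp

/-- two polynomials over `ℂ` that agree at all natural numbers are equal -/
lemma poly_ext_nat {F G : ℂ[X]} (h : ∀ n : ℕ, F.eval (n : ℂ) = G.eval (n : ℂ)) : F = G := by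
  refine Polynomial.eq_of_infinite_eval_eq F G ?_
  refine Set.Infinite.mono (s := Set.range (fun n : ℕ => (n : ℂ))) ?_ ?_
  · rintro _ ⟨n, rfl⟩
    exact h n
  · exact Set.infinite_range_of_injective Nat.cast_injective

/-- the same, for large natural numbers -/
lemma poly_ext_nat' {F G : ℂ[X]} (N : ℕ) (h : ∀ n : ℕ, N ≤ n → F.eval (n : ℂ) = G.eval (n : ℂ)) :
    F = G := by
  refine Polynomial.eq_of_infinite_eval_eq F G ?_
  refine Set.Infinite.mono (s := Set.range (fun n : ℕ => ((n + N : ℕ) : ℂ))) ?_ ?_
  · rintro _ ⟨n, rfl⟩
    exact h _ (by omega)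
  · refine Set.infinite_range_of_injective ?_
    intro a b hab
    have h2 : ((a + N : ℕ) : ℂ) = ((b + N : ℕ) : ℂ) := hab
    have : a + N = b + N := by exact_mod_cast h2
    omega

open Classical in
/-- weight of a graph: 1 if the partition is proper -/
noncomputable def properWt (G : SimpleGraph V) (A : Type) [CommRing A] (s : Setoid V) : A :=
  if ∀ a b, G.Adj a b → ¬ s a b then 1 else 0

open Classical in
lemma sum_proper (G : SimpleGraph V) (A : Type) [CommRing A] (n : ℕ) :
    ∑ f : V → Fin n, properWt G A (Setoid.ker f) = (Nat.card (G.Coloring (Fin n)) : A) := by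
  simp only [properWt]
  rw [Finset.sum_boole]
  congr 1
  rw [Nat.card_eq_fintype_card, ← Fintype.card_subtype]
  refine Fintype.card_congr ?_
  exact {
    toFun := fun f => SimpleGraph.Coloring.mk f.1 (fun {a b} h => f.2 a b h)
    invFun := fun c => ⟨fun a => c a, fun a b h => c.valid h⟩
    left_inv := fun f => by ext; rfl
    right_inv := fun c => by ext; rfl }

/-- the chromatic polynomial -/
noncomputable def chromPoly (G : SimpleGraph V) : ℤ[X] := setSum (properWt G ℤ[X]) X

lemma chromPoly_eval (G : SimpleGraph V) (n : ℕ) :
    (chromPoly G).eval (n : ℤ) = (Nat.card (G.Coloring (Fin n)) : ℤ) := by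
  have h := setSum_map (evalRingHom (n : ℤ)) (properWt G ℤ[X]) X
  rw [coe_evalRingHom, eval_X] at h
  rw [chromPoly, h]
  have h2 : (fun s => eval (n : ℤ) (properWt G ℤ[X] s)) = properWt G ℤ := by
    funext s
    simp only [properWt]
    split_ifs <;> simp
  rw [h2, setSum_nat (properWt G ℤ) n, sum_proper]

lemma isChromaticPolynomial_chromPoly (G : SimpleGraph V) :
    IsChromaticPolynomial G (chromPoly G) := chromPoly_eval G

/-- a root criterion -/
lemma isChromaticRoot_of {G : SimpleGraph V} (F : ℂ[X])
    (hF : ∀ n : ℕ, F.eval (n : ℂ) = (Nat.card (G.Coloring (Fin n)) : ℂ)) {q : ℂ}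
    (hq : F.eval q = 0) : IsChromaticRoot G q := by
  refine ⟨chromPoly G, chromPoly_eval G, ?_⟩
  have h : (chromPoly G).map (algebraMap ℤ ℂ) = F := by
    refine poly_ext_nat fun n => ?_
    rw [hF n]
    have h1 : eval (n : ℂ) ((chromPoly G).map (algebraMap ℤ ℂ)) =
        (((chromPoly G).eval (n : ℤ) : ℤ) : ℂ) := by
      rw [eval_map]
      have := Polynomial.eval₂_at_intCast (algebraMap ℤ ℂ) (n := (n : ℤ)) (p := chromPoly G)
      simpa using this
    rw [h1, chromPoly_eval]
    simp
  rw [← h, eval_map] at hq
  rw [aeval_def]
  exact hq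

end H37.Chrom
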