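import Pool.Agent.H37.Chrom.Defs

/-!
A sufficient condition for planarity: vertices arranged in rows, two hubs on the left and the right.
-/

namespace H37.Chrom

variable {V : Type}

/-- A levelled arrangement of a graph with a left hub `L` and a right hub `R`. -/
structure Levelled (G : SimpleGraph V) where
  L : V
  R : V
  row : V → ℤ
  x : V → ℝ
  hLR : L ≠ R
  nadj : ¬ G.Adj L R
  x0 : ∀ a, a ≠ L → a ≠ R → 0 ≤ x a
  x1 : ∀ a, a ≠ L → a ≠ R → x a ≤ 1
  inj : ∀ a b, a ≠ L → a ≠ R → b ≠ L → b ≠ R → row a = row b → x a = x b → a = b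
  hubL : ∀ a, G.Adj L a → x a = 0
  hubR : ∀ a, G.Adj R a → x a = 1
  edge : ∀ a b, a ≠ L → a ≠ R → b ≠ L → b ≠ R → G.Adj a b →
    (row a = row b ∧ ∀ c, c ≠ L → c ≠ R → row c = row a →
      ¬ (x a < x c ∧ x c < x b) ∧ ¬ (x b < x c ∧ x c < x a)) ∨
    row b = row a + 1 ∨ row a = row b + 1
  band : ∀ a b c d, a ≠ L → a ≠ R → b ≠ L → b ≠ R → c ≠ L → c ≠ R → d ≠ L → d ≠ R →
    G.Adj a b → G.Adj c d → row b = row a + 1 → row c = row a → row d = row a + 1 →
    x a < x c → x b ≤ x d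

namespace Levelled

variable {G : SimpleGraph V} (D : Levelled G)

open Classical in
/-- positions of the vertices -/
noncomputable def pos (a : V) : ℝ × ℝ :=
  if a = D.L then (-1, 0) else if a = D.R then (2, 0) else (D.x a, (D.row a : ℝ))

lemma pos_L : D.pos D.L = (-1, 0) := by simp [pos]
lemma pos_R : D.pos D.R = (2, 0) := by simp [pos, D.hLR.symm]
lemma pos_of {a : V} (h1 : a ≠ D.L) (h2 : a ≠ D.R) : D.pos a = (D.x a, (D.row a : ℝ)) := by
  simp [pos, h1, h2]

lemma cases_pos (a : V) : (a = D.L ∧ D.pos a = (-1, 0)) ∨ (a = D.R ∧ D.pos a = (2, 0)) ∨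
    (a ≠ D.L ∧ a ≠ D.R ∧ D.pos a = (D.x a, (D.row a : ℝ)) ∧ 0 ≤ D.x a ∧ D.x a ≤ 1) := by
  by_cases h1 : a = D.L
  · left; exact ⟨h1, by rw [h1, D.pos_L]⟩
  · by_cases h2 : a = D.R
    · right; left; exact ⟨h2, by rw [h2, D.pos_R]⟩
    · right; right; exact ⟨h1, h2, D.pos_of h1 h2, D.x0 a h1 h2, D.x1 a h1 h2⟩

lemma pos_injective : Function.Injective D.pos := by
  intro a b h
  rcases D.cases_pos a with ⟨ha, ea⟩ | ⟨ha, ea⟩ | ⟨ha1, ha2, ea, ea0, ea1⟩ <;>
  rcases D.cases_pos b with ⟨hb, eb⟩ | ⟨hb, eb⟩ | ⟨hb1, hb2, eb, eb0, eb1⟩ <;>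
  rw [ea, eb] at h <;> simp only [Prod.mk.injEq] at h <;> obtain ⟨h1, h2⟩ := h
  · rw [ha, hb]
  · norm_num at h1
  · exfalso; linarith
  · norm_num at h1
  · rw [ha, hb]
  · exfalso; linarith
  · exfalso; linarith
  · exfalso; linarith
  · exact D.inj a b ha1 ha2 hb1 hb2 (by exact_mod_cast h2) h1

/-- interior points of the edges -/
inductive Kind : Sym2 V → ℝ × ℝ → Prop
  | hubL (a : V) (h : G.Adj D.L a) (P : ℝ × ℝ) (h1 : -1 < P.1) (h2 : P.1 < 0)
      (h3 : P.2 = (P.1 + 1) * (D.row a : ℝ)) : Kind s(D.L, a) P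
  | hubR (a : V) (h : G.Adj D.R a) (P : ℝ × ℝ) (h1 : 1 < P.1) (h2 : P.1 < 2)
      (h3 : P.2 = (2 - P.1) * (D.row a : ℝ)) : Kind s(D.R, a) P
  | hor (a b : V) (ha : a ≠ D.L) (ha' : a ≠ D.R) (hb : b ≠ D.L) (hb' : b ≠ D.R)
      (h : G.Adj a b) (hr : D.row a = D.row b)
      (hn : ∀ c, c ≠ D.L → c ≠ D.R → D.row c = D.row a → ¬ (D.x a < D.x c ∧ D.x c < D.x b))
      (P : ℝ × ℝ) (h1 : P.2 = (D.row a : ℝ))
      (h2 : D.x a < P.1) (h3 : P.1 < D.x b) : Kind s(a, b) P
  | band (a b : V) (ha : a ≠ D.L) (ha' : a ≠ D.R) (hb : b ≠ D.L) (hb' : b ≠ D.R)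
      (h : G.Adj a b) (hr : D.row b = D.row a + 1)
      (P : ℝ × ℝ) (h1 : (D.row a : ℝ) < P.2) (h2 : P.2 < (D.row a : ℝ) + 1)
      (h3 : P.1 = ((D.row a : ℝ) + 1 - P.2) * D.x a + (P.2 - (D.row a : ℝ)) * D.x b) :
      Kind s(a, b) P

lemma Kind.of_interior {u v : V} (h : G.Adj u v) {t : ℝ} (t0 : 0 < t) (t1 : t < 1) :
    D.Kind s(u, v) (AffineMap.lineMap (D.pos u) (D.pos v) t) := by
  have key : ∀ p q : ℝ × ℝ, (AffineMap.lineMap p q t : ℝ × ℝ) =
      (p.1 + t * (q.1 - p.1), p.2 + t * (q.2 - p.2)) := by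
    intro p q
    ext
    · simp [AffineMap.lineMap_apply]; ring
    · simp [AffineMap.lineMap_apply]; ring
  rw [key]
  rcases D.cases_pos u with ⟨hu, eu⟩ | ⟨hu, eu⟩ | ⟨hu1, hu2, eu, eu0, eu1⟩ <;>
  rcases D.cases_pos v with ⟨hv, ev⟩ | ⟨hv, ev⟩ | ⟨hv1, hv2, ev, ev0, ev1⟩
  · subst hu; subst hv; exact absurd h (G.loopless.irrefl _)
  · subst hu; subst hv; exact absurd h D.nadj
  · subst hu
    rw [eu, ev]
    have hx := D.hubL v h
    refine Kind.hubL v h _ ?_ ?_ ?_ <;> simp only [hx] <;> nlinarith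
  · subst hu; subst hv; exact absurd h.symm D.nadj
  · subst hu; subst hv; exact absurd h (G.loopless.irrefl _)
  · subst hu
    rw [eu, ev]
    have hx := D.hubR v h
    refine Kind.hubR v h _ ?_ ?_ ?_ <;> simp only [hx] <;> nlinarith
  · subst hv
    rw [eu, ev, Sym2.eq_swap]
    have hx := D.hubL u h.symm
    refine Kind.hubL u h.symm _ ?_ ?_ ?_ <;> simp only [hx] <;> nlinarith
  · subst hv
    rw [eu, ev, Sym2.eq_swap]
    have hx := D.hubR u h.symm
    refine Kind.hubR u h.symm _ ?_ ?_ ?_ <;> simp only [hx] <;> nlinarith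
  · rw [eu, ev]
    rcases D.edge u v hu1 hu2 hv1 hv2 h with ⟨hr, hn⟩ | hr | hr
    · have hne : D.x u ≠ D.x v := by
        intro hx
        exact h.ne (D.inj u v hu1 hu2 hv1 hv2 hr hx)
      have hr' : (D.row u : ℝ) = (D.row v : ℝ) := by exact_mod_cast hr
      rcases lt_or_gt_of_ne hne with hlt | hgt
      · refine Kind.hor u v hu1 hu2 hv1 hv2 h hr (fun c h1 h2 h3 => (hn c h1 h2 h3).1) _ ?_ ?_ ?_
        · simp only [hr']; ring
        · simp only; nlinarith
        · simp only; nlinarith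
      · rw [Sym2.eq_swap]
        refine Kind.hor v u hv1 hv2 hu1 hu2 h.symm hr.symm
          (fun c h1 h2 h3 => (hn c h1 h2 (h3.trans hr.symm)).2) _ ?_ ?_ ?_
        · simp only [hr']; ring
        · simp only; nlinarith
        · simp only; nlinarith
    · have hr' : (D.row v : ℝ) = (D.row u : ℝ) + 1 := by exact_mod_cast hr
      refine Kind.band u v hu1 hu2 hv1 hv2 h hr _ ?_ ?_ ?_
      · simp only [hr']; nlinarith
      · simp only [hr']; nlinarith
      · simp only [hr']; ring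
    · have hr' : (D.row u : ℝ) = (D.row v : ℝ) + 1 := by exact_mod_cast hr
      rw [Sym2.eq_swap]
      refine Kind.band v u hv1 hv2 hu1 hu2 h.symm hr _ ?_ ?_ ?_
      · simp only [hr']; nlinarith
      · simp only [hr']; nlinarith
      · simp only [hr']; ring

/-- abscissa bounds of interior points of non-hub edges -/
lemma band_bounds {a b : V} (ha : a ≠ D.L) (ha' : a ≠ D.R) (hb : b ≠ D.L) (hb' : b ≠ D.R)
    {P : ℝ × ℝ} (h1 : (D.row a : ℝ) < P.2) (h2 : P.2 < (D.row a : ℝ) + 1)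
    (h3 : P.1 = ((D.row a : ℝ) + 1 - P.2) * D.x a + (P.2 - (D.row a : ℝ)) * D.x b) :
    0 ≤ P.1 ∧ P.1 ≤ 1 := by
  have a0 := D.x0 a ha ha'
  have a1 := D.x1 a ha ha'
  have b0 := D.x0 b hb hb'
  have b1 := D.x1 b hb hb'
  rw [h3]
  constructor
  · have := mul_nonneg (by linarith : (0:ℝ) ≤ (D.row a : ℝ) + 1 - P.2) a0
    have := mul_nonneg (by linarith : (0:ℝ) ≤ P.2 - (D.row a : ℝ)) b0
    linarith
  · have := mul_le_mul_of_nonneg_left a1 (by linarith : (0:ℝ) ≤ (D.row a : ℝ) + 1 - P.2)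
    have := mul_le_mul_of_nonneg_left b1 (by linarith : (0:ℝ) ≤ P.2 - (D.row a : ℝ))
    linarith

lemma band_unique {a b c d : V} (ha : a ≠ D.L) (ha' : a ≠ D.R) (hb : b ≠ D.L) (hb' : b ≠ D.R)
    (hc : c ≠ D.L) (hc' : c ≠ D.R) (hd : d ≠ D.L) (hd' : d ≠ D.R)
    (hab : G.Adj a b) (hcd : G.Adj c d) (hr : D.row b = D.row a + 1) (hr2 : D.row c = D.row a)
    (hr3 : D.row d = D.row a + 1) {s : ℝ} (s0 : 0 < s) (s1 : s < 1)
    (h : (1 - s) * D.x a + s * D.x b = (1 - s) * D.x c + s * D.x d) :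
    a = c ∧ b = d := by
  have hac : D.x a = D.x c := by
    rcases lt_trichotomy (D.x a) (D.x c) with hlt | heq | hgt
    · have := D.band a b c d ha ha' hb hb' hc hc' hd hd' hab hcd hr hr2 hr3 hlt
      nlinarith
    · exact heq
    · have := D.band c d a b hc hc' hd hd' ha ha' hb hb' hcd hab (by rw [hr3, hr2]) hr2.symm
        (by rw [hr, hr2]) hgt
      nlinarith
  have hac' : a = c := D.inj a c ha ha' hc hc' hr2.symm hac
  refine ⟨hac', ?_⟩
  have hbd : D.x b = D.x d := by
    rw [hac] at h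
    have : s * D.x b = s * D.x d := by linarith
    exact mul_left_cancel₀ s0.ne' this
  exact D.inj b d hb hb' hd hd' (by rw [hr, hr3]) hbd

lemma Kind.unique {e e' : Sym2 V} {P : ℝ × ℝ} (h : D.Kind e P) (h' : D.Kind e' P) : e = e' := by
  have int_lt : ∀ (m n : ℤ) (y : ℝ), (m : ℝ) < y → y < (m : ℝ) + 1 → y = (n : ℝ) → False := by
    intro m n y h1 h2 h3
    rw [h3] at h1 h2
    have h1' : m < n := by exact_mod_cast h1
    have h2' : n < m + 1 := by exact_mod_cast h2
    omega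
  have int_eq : ∀ (m n : ℤ) (y : ℝ), (m : ℝ) < y → y < (m : ℝ) + 1 → (n : ℝ) < y →
      y < (n : ℝ) + 1 → m = n := by
    intro m n y h1 h2 h3 h4
    have h5 : (m : ℝ) < (n : ℝ) + 1 := by linarith
    have h6 : (n : ℝ) < (m : ℝ) + 1 := by linarith
    have h5' : m < n + 1 := by exact_mod_cast h5
    have h6' : n < m + 1 := by exact_mod_cast h6
    omega
  cases h with
  | hubL a h P h1 h2 h3 =>
    cases h' with
    | hubL b h' P h1' h2' h3' =>
      have hx := D.hubL a h
      have hx' := D.hubL b h'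
      have hne : P.1 + 1 ≠ 0 := by linarith
      have hrow : (D.row a : ℝ) = (D.row b : ℝ) := mul_left_cancel₀ hne (h3.symm.trans h3')
      have haL : a ≠ D.L := h.ne'
      have hbL : b ≠ D.L := h'.ne'
      have haR : a ≠ D.R := by rintro rfl; exact D.nadj h
      have hbR : b ≠ D.R := by rintro rfl; exact D.nadj h'
      have := D.inj a b haL haR hbL hbR (by exact_mod_cast hrow) (hx.trans hx'.symm)
      rw [this]
    | hubR b h' P h1' h2' h3' => exfalso; linarith
    | hor a' b' ha' ha'' hb' hb'' h' hr' hn' P h1' h2' h3' =>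
      exfalso
      have := D.x0 a' ha' ha''
      linarith
    | band a' b' ha' ha'' hb' hb'' h' hr' P h1' h2' h3' =>
      exfalso
      have := D.band_bounds ha' ha'' hb' hb'' h1' h2' h3'
      linarith [this.1]
  | hubR a h P h1 h2 h3 =>
    cases h' with
    | hubL b h' P h1' h2' h3' => exfalso; linarith
    | hubR b h' P h1' h2' h3' =>
      have hx := D.hubR a h
      have hx' := D.hubR b h'
      have hne : 2 - P.1 ≠ 0 := by linarith
      have hrow : (D.row a : ℝ) = (D.row b : ℝ) := mul_left_cancel₀ hne (h3.symm.trans h3')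
      have haR : a ≠ D.R := h.ne'
      have hbR : b ≠ D.R := h'.ne'
      have haL : a ≠ D.L := by rintro rfl; exact D.nadj h.symm
      have hbL : b ≠ D.L := by rintro rfl; exact D.nadj h'.symm
      have := D.inj a b haL haR hbL hbR (by exact_mod_cast hrow) (hx.trans hx'.symm)
      rw [this]
    | hor a' b' ha' ha'' hb' hb'' h' hr' hn' P h1' h2' h3' =>
      exfalso
      have := D.x1 b' hb' hb''
      linarith
    | band a' b' ha' ha'' hb' hb'' h' hr' P h1' h2' h3' =>
      exfalso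
      have := D.band_bounds ha' ha'' hb' hb'' h1' h2' h3'
      linarith [this.2]
  | hor a b ha ha2 hb hb2 h hr hn P h1 h2 h3 =>
    cases h' with
    | hubL b h' P h1' h2' h3' =>
      exfalso
      have := D.x0 a ha ha2
      linarith
    | hubR c h' P h1' h2' h3' =>
      exfalso
      have := D.x1 b hb hb2
      linarith
    | hor a' b' ha' ha'' hb' hb'' h' hr' hn' P h1' h2' h3' =>
      have hrow : D.row a = D.row a' := by
        have : (D.row a : ℝ) = (D.row a' : ℝ) := h1.symm.trans h1'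
        exact_mod_cast this
      have e1 : D.x a = D.x a' := by
        rcases lt_trichotomy (D.x a) (D.x a') with hlt | heq | hgt
        · exact absurd ⟨hlt, by linarith⟩ (hn a' ha' ha'' hrow.symm)
        · exact heq
        · exact absurd ⟨hgt, by linarith⟩ (hn' a ha ha2 hrow)
      have e2 : D.x b = D.x b' := by
        rcases lt_trichotomy (D.x b) (D.x b') with hlt | heq | hgt
        · exact absurd ⟨by linarith, hlt⟩ (hn' b hb hb2 (by rw [← hr, hrow]))
        · exact heq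
        · exact absurd ⟨by linarith, hgt⟩ (hn b' hb' hb'' (by rw [← hr', hrow]))
      rw [D.inj a a' ha ha2 ha' ha'' hrow e1,
        D.inj b b' hb hb2 hb' hb'' (by rw [← hr, ← hr', hrow]) e2]
    | band a' b' ha' ha'' hb' hb'' h' hr' P h1' h2' h3' =>
      exact (int_lt _ _ _ h1' h2' h1).elim
  | band a b ha ha2 hb hb2 h hr P h1 h2 h3 =>
    cases h' with
    | hubL b' h' P h1' h2' h3' =>
      exfalso
      have := D.band_bounds ha ha2 hb hb2 h1 h2 h3
      linarith [this.1]
    | hubR b' h' P h1' h2' h3' =>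
      exfalso
      have := D.band_bounds ha ha2 hb hb2 h1 h2 h3
      linarith [this.2]
    | hor a' b' ha' ha'' hb' hb'' h' hr' hn' P h1' h2' h3' =>
      exact (int_lt _ _ _ h1 h2 h1').elim
    | band a' b' ha' ha'' hb' hb'' h' hr' P h1' h2' h3' =>
      have hrow : D.row a = D.row a' := int_eq _ _ _ h1 h2 h1' h2'
      have hrowR : (D.row a' : ℝ) = (D.row a : ℝ) := by exact_mod_cast hrow.symm
      rw [hrowR] at h3'
      have := D.band_unique (s := P.2 - (D.row a : ℝ)) ha ha2 hb hb2 ha' ha'' hb' hb'' h h' hr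
        hrow.symm (by rw [hr', hrow]) (by linarith) (by linarith)
        (by
          have e : (1 - (P.2 - (D.row a : ℝ))) = ((D.row a : ℝ) + 1 - P.2) := by ring
          rw [e, ← h3, ← h3'])
      rw [this.1, this.2]

lemma Kind.ne_pos {e : Sym2 V} {P : ℝ × ℝ} (h : D.Kind e P) (w : V) : P ≠ D.pos w := by
  intro hP
  have int_lt : ∀ (m n : ℤ) (y : ℝ), (m : ℝ) < y → y < (m : ℝ) + 1 → y = (n : ℝ) → False := by
    intro m n y h1 h2 h3
    rw [h3] at h1 h2
    have h1' : m < n := by exact_mod_cast h1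
    have h2' : n < m + 1 := by exact_mod_cast h2
    omega
  rcases D.cases_pos w with ⟨hw, ew⟩ | ⟨hw, ew⟩ | ⟨hw1, hw2, ew, ew0, ew1⟩ <;> rw [ew] at hP <;>
  have hP1 := congrArg Prod.fst hP <;> have hP2 := congrArg Prod.snd hP <;>
  simp only at hP1 hP2 <;> cases h with
  | hubL a h P h1 h2 h3 => linarith
  | hubR a h P h1 h2 h3 => linarith
  | hor a b ha ha2 hb hb2 h hr hn P h1 h2 h3 =>
    have a0 := D.x0 a ha ha2
    have b1 := D.x1 b hb hb2
    first
      | linarith
      | exact hn w hw1 hw2 (by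
          have : (D.row w : ℝ) = (D.row a : ℝ) := hP2.symm.trans h1
          exact_mod_cast this) ⟨by linarith, by linarith⟩
  | band a b ha ha2 hb hb2 h hr P h1 h2 h3 =>
    have := D.band_bounds ha ha2 hb hb2 h1 h2 h3
    first
      | (exfalso; linarith [this.1, this.2])
      | exact int_lt _ _ _ h1 h2 hP2

include D in
theorem planar : Planar G := by
  refine ⟨{
    pos := D.pos
    arc := fun u v t => AffineMap.lineMap (D.pos u) (D.pos v) (t : ℝ)
    pos_injective := D.pos_injective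
    arc_continuous := ?_
    arc_injective := ?_
    arc_zero := ?_
    arc_one := ?_
    arc_symm := ?_
    vertex_on_arc := ?_
    arc_meet := ?_ }⟩
  · intro u v _
    exact AffineMap.lineMap_continuous.comp continuous_subtype_val
  · intro u v h s t hst
    have hne : D.pos u ≠ D.pos v := fun h' => h.ne (D.pos_injective h')
    exact Subtype.ext (AffineMap.lineMap_injective ℝ hne hst)
  · intro u v _
    simp
  · intro u v _
    simp
  · intro u v _ t
    simp only [unitInterval.coe_symm_eq]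
    exact (AffineMap.lineMap_apply_one_sub _ _ _).symm
  · intro u v h t w hw
    rcases eq_or_lt_of_le t.2.1 with h0 | h0
    · left
      rw [← h0, AffineMap.lineMap_apply_zero] at hw
      exact (D.pos_injective hw).symm
    · rcases eq_or_lt_of_le t.2.2 with h1 | h1
      · right
        rw [h1, AffineMap.lineMap_apply_one] at hw
        exact (D.pos_injective hw).symm
      · exact absurd hw (Kind.ne_pos D (Kind.of_interior D h h0 h1) w)
  · intro u v u' v' h h' hne t t' htt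
    rcases eq_or_lt_of_le t.2.1 with h0 | h0
    · exact ⟨u, by rw [← h0, AffineMap.lineMap_apply_zero]⟩
    rcases eq_or_lt_of_le t.2.2 with h1 | h1
    · exact ⟨v, by rw [h1, AffineMap.lineMap_apply_one]⟩
    rcases eq_or_lt_of_le t'.2.1 with h0' | h0'
    · exact ⟨u', by rw [htt, ← h0', AffineMap.lineMap_apply_zero]⟩
    rcases eq_or_lt_of_le t'.2.2 with h1' | h1'
    · exact ⟨v', by rw [htt, h1', AffineMap.lineMap_apply_one]⟩
    have k1 := Kind.of_interior D h h0 h1
    have k2 := Kind.of_interior D h' h0' h1'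
    rw [← htt] at k2
    exact absurd (Kind.unique D k1 k2) hne

end Levelled

end H37.Chrom
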