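import Pool.Agent.H37.Chrom.Theta
import Pool.Agent.H37.Chrom.FamConn
import Pool.Agent.H37.Chrom.FamPlanar

/-!
Branches of the eigenvalues; the open region that consists of limits of roots.
-/

namespace H37.Chrom

open Polynomial Metric Set Filter Topology

lemma exists_dom {q0 w0 : ℂ} (hq01 : q0 - 1 ≠ 0) (hw : 1 < ‖w0‖)
    (he : w0 + w0⁻¹ = q0 - 2 + 3 / (q0 - 1)) (h3 : ‖w0 - 1‖ < ‖q0 - 2‖ * ‖w0‖) :
    ∃ r > 0, ∃ lp lm ρ σ : ℂ → ℂ, Dom (ball q0 r) lp lm ρ σ := by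
  have hw0 : w0 ≠ 0 := by
    rintro rfl
    simp at hw
    linarith
  have hq02 : q0 - 2 ≠ 0 := by
    intro h0
    rw [h0] at h3
    simp at h3
    have := norm_nonneg (w0 - 1)
    linarith
  set T : ℂ → ℂ := fun q => q - 2 + 3 / (q - 1) with hT
  set δ0 : ℂ := w0 - w0⁻¹ with hδ0
  have hδne : δ0 ≠ 0 := by
    intro h0
    have h4 : w0 = w0⁻¹ := sub_eq_zero.1 h0
    have h5 : ‖w0‖ < 1 := by
      rw [h4, norm_inv]
      exact inv_lt_one_of_one_lt₀ hw
    linarith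
  have hT0 : T q0 = w0 + w0⁻¹ := he.symm
  have hδsq : T q0 ^ 2 - 4 = δ0 ^ 2 := by
    rw [hT0, hδ0]
    field_simp
    ring
  set dl : ℂ → ℂ := fun q => δ0 * Complex.exp (Complex.log ((T q ^ 2 - 4) / δ0 ^ 2) / 2) with hdl
  have hdl0 : dl q0 = δ0 := by
    simp only [hdl]
    rw [hδsq, div_self (pow_ne_zero _ hδne), Complex.log_one]
    simp
  set W : ℂ → ℂ := fun q => (T q + dl q) / 2 with hW
  set V : ℂ → ℂ := fun q => (T q - dl q) / 2 with hV
  have hW0 : W q0 = w0 := by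
    simp only [hW, hT0, hdl0, hδ0]; ring
  have hV0 : V q0 = w0⁻¹ := by
    simp only [hV, hT0, hdl0, hδ0]; ring
  have hTd : ∀ q, q - 1 ≠ 0 → DifferentiableAt ℂ T q := by
    intro q hq
    simp only [hT]
    fun_prop (disch := assumption)
  have hdld : ∀ q, q - 1 ≠ 0 → (T q ^ 2 - 4) / δ0 ^ 2 ∈ Complex.slitPlane →
      DifferentiableAt ℂ dl q := by
    intro q hq hs
    have h4 := hTd q hq
    have h5 : DifferentiableAt ℂ (fun q => (T q ^ 2 - 4) / δ0 ^ 2) q :=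
      ((h4.pow 2).sub_const _).div_const _
    have h6 : DifferentiableAt ℂ (fun q => Complex.log ((T q ^ 2 - 4) / δ0 ^ 2)) q :=
      h5.clog hs
    exact ((h6.div_const 2).cexp).const_mul δ0
  have hs0 : (T q0 ^ 2 - 4) / δ0 ^ 2 ∈ Complex.slitPlane := by
    rw [hδsq, div_self (pow_ne_zero _ hδne)]
    exact Complex.one_mem_slitPlane
  have hTc := (hTd q0 hq01).continuousAt
  have hdc := (hdld q0 hq01 hs0).continuousAt
  have hWc : ContinuousAt W q0 := (hTc.add hdc).div_const _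
  have hVc : ContinuousAt V q0 := (hTc.sub hdc).div_const _
  have ev1 : ∀ᶠ q in 𝓝 q0, q - 1 ≠ 0 :=
    (ContinuousAt.sub continuousAt_id continuousAt_const).eventually_ne hq01
  have ev2 : ∀ᶠ q in 𝓝 q0, q - 2 ≠ 0 :=
    (ContinuousAt.sub continuousAt_id continuousAt_const).eventually_ne hq02
  have ev3 : ∀ᶠ q in 𝓝 q0, (T q ^ 2 - 4) / δ0 ^ 2 ∈ Complex.slitPlane := by
    have hc : ContinuousAt (fun q => (T q ^ 2 - 4) / δ0 ^ 2) q0 :=
      ((hTc.pow 2).sub continuousAt_const).div_const _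
    exact hc.eventually (Complex.isOpen_slitPlane.mem_nhds hs0)
  have ev4 : ∀ᶠ q in 𝓝 q0, ‖V q‖ < 1 := by
    refine hVc.norm.eventually (gt_mem_nhds ?_)
    show ‖V q0‖ < 1
    rw [hV0, norm_inv]
    exact inv_lt_one_of_one_lt₀ hw
  have ev5 : ∀ᶠ q in 𝓝 q0, ‖(W q - 1) * V q / (q - 2)‖ < 1 := by
    have hc : ContinuousAt (fun q => (W q - 1) * V q / (q - 2)) q0 :=
      ((hWc.sub continuousAt_const).mul hVc).div
        (ContinuousAt.sub continuousAt_id continuousAt_const) hq02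
    refine hc.norm.eventually (gt_mem_nhds ?_)
    show ‖(W q0 - 1) * V q0 / (q0 - 2)‖ < 1
    rw [hW0, hV0, norm_div, norm_mul, norm_inv, div_lt_one (norm_pos_iff.2 hq02),
      ← div_eq_mul_inv, div_lt_iff₀ (by linarith)]
    exact h3
  obtain ⟨r, hr, hrs⟩ := Metric.eventually_nhds_iff_ball.1
    (ev1.and (ev2.and (ev3.and (ev4.and ev5))))
  have hWV : ∀ q, (T q ^ 2 - 4) / δ0 ^ 2 ∈ Complex.slitPlane → W q * V q = 1 := by
    intro q hs
    have h4 : dl q ^ 2 = T q ^ 2 - 4 := by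
      simp only [hdl]
      rw [mul_pow, ← Complex.exp_nat_mul]
      push_cast
      rw [mul_div_cancel₀ _ (two_ne_zero), Complex.exp_log (Complex.slitPlane_ne_zero hs),
        mul_div_cancel₀ _ (pow_ne_zero _ hδne)]
    simp only [hW, hV]
    linear_combination -(1 / 4 : ℂ) * h4
  have hWaddV : ∀ q, W q + V q = T q := by
    intro q
    simp only [hW, hV]; ring
  have hdT : DifferentiableOn ℂ T (ball q0 r) := fun q hq =>
    (hTd q (hrs q hq).1).differentiableWithinAt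
  have hddl : DifferentiableOn ℂ dl (ball q0 r) := fun q hq =>
    (hdld q (hrs q hq).1 (hrs q hq).2.2.1).differentiableWithinAt
  have hdW : DifferentiableOn ℂ W (ball q0 r) := (hdT.add hddl).div_const _
  have hdV : DifferentiableOn ℂ V (ball q0 r) := (hdT.sub hddl).div_const _
  refine ⟨r, hr, fun q => (q - 2) ^ 2 * (q - 1) * W q, fun q => (q - 2) ^ 2 * (q - 1) * V q,
    fun q => V q ^ 2, fun q => ((W q - 1) * V q / (q - 2)) ^ 2, ?_⟩
  refine ⟨isOpen_ball, ?_, ?_, ?_, ?_, ?_, ?_, ?_, ?_, ?_, ?_, ?_, ?_, ?_⟩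
  · fun_prop
  · fun_prop
  · fun_prop
  · refine DifferentiableOn.pow (DifferentiableOn.div (by fun_prop) (by fun_prop) ?_) 2
    intro q hq
    exact (hrs q hq).2.1
  · intro q hq
    have h4 := (hrs q hq).1
    rw [← mul_add, hWaddV, trT]
    simp only [hT]
    field_simp
    ring
  · intro q hq
    have h4 := hWV q (hrs q hq).2.2.1
    rw [dtT]
    linear_combination ((q - 2) ^ 2 * (q - 1)) ^ 2 * h4
  · intro q hq h0
    exact (hrs q hq).1 (sub_eq_zero.2 h0)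
  · intro q hq h0
    exact (hrs q hq).2.1 (sub_eq_zero.2 h0)
  · intro q hq
    have h4 := hWV q (hrs q hq).2.2.1
    linear_combination -((q - 2) ^ 2 * (q - 1) * V q) * h4
  · intro q hq
    have h4 := hWV q (hrs q hq).2.2.1
    have h5 := (hrs q hq).1
    have h6 := (hrs q hq).2.1
    have h7 := hWaddV q
    have h8 : (q - 2) ^ 2 * (q - 1) * W q * ((W q - 1) * V q / (q - 2)) ^ 2 =
        (q - 1) * (W q * V q) * ((W q - 1) ^ 2 * V q) := by
      field_simp
    rw [h8, h4, mul_one]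
    have h9 : (W q - 1) ^ 2 * V q = T q - 2 := by
      linear_combination (W q - 2) * h4 + h7
    rw [h9, kap]
    simp only [hT]
    field_simp
    ring
  · intro q hq h0
    have h5 := (hrs q hq).1
    have h6 := (hrs q hq).2.1
    have h7 : (q - 2) ^ 2 * (q - 1) ≠ 0 := mul_ne_zero (pow_ne_zero _ h6) h5
    have h8 : W q = V q := mul_left_cancel₀ h7 h0
    have h9 : dl q = 0 := by
      have : W q - V q = dl q := by simp only [hW, hV]; ring
      rw [← this, h8, sub_self]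
    simp only [hdl] at h9
    rcases mul_eq_zero.1 h9 with h | h
    · exact hδne h
    · exact Complex.exp_ne_zero _ h
  · intro q hq
    have h4 := (hrs q hq).2.2.2.1
    rw [norm_pow]
    exact pow_lt_one₀ (norm_nonneg _) h4 two_ne_zero
  · intro q hq
    have h4 := (hrs q hq).2.2.2.2
    rw [norm_pow]
    exact pow_lt_one₀ (norm_nonneg _) h4 two_ne_zero

/-- points with modulus larger than one near a point of modulus at least one -/
lemma exists_larger {a : ℂ} (h : 1 ≤ ‖a‖) {ε : ℝ} (hε : 0 < ε) : ∃ b : ℂ, ‖b - a‖ < ε ∧ 1 < ‖b‖ := by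
  have ha : 0 < ‖a‖ := by linarith
  refine ⟨(1 + ε / (2 * ‖a‖) : ℝ) * a, ?_, ?_⟩
  · have e : ((1 + ε / (2 * ‖a‖) : ℝ) : ℂ) * a - a = ((ε / (2 * ‖a‖) : ℝ) : ℂ) * a := by
      push_cast; ring
    rw [e, norm_mul, Complex.norm_real, Real.norm_of_nonneg (by positivity)]
    have : ε / (2 * ‖a‖) * ‖a‖ = ε / 2 := by field_simp
    rw [this]
    linarith
  · rw [norm_mul, Complex.norm_real, Real.norm_of_nonneg (by positivity)]
    have h2 : 0 < ε / (2 * ‖a‖) := by positivity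
    nlinarith

/-- the region of limits of roots -/
theorem region_subset {q0 w0 : ℂ} (h1 : 1 ≤ ‖q0 - 1‖) (hw : 1 < ‖w0‖)
    (he : w0 + w0⁻¹ = q0 - 2 + 3 / (q0 - 1)) (h3 : ‖w0 - 1‖ < ‖q0 - 2‖ * ‖w0‖) :
    q0 ∈ closure rootSet := by
  rw [Metric.mem_closure_iff]
  intro ε hε
  have hq01 : q0 - 1 ≠ 0 := by
    intro h0
    rw [h0] at h1
    simp at h1
    linarith
  obtain ⟨r, hr, lp, lm, ρ, σ, D⟩ := exists_dom hq01 hw he h3
  have hmin : 0 < min (r / 2) (ε / 3) := lt_min (half_pos hr) (by linarith)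
  obtain ⟨b, hb, hb1⟩ := exists_larger h1 hmin
  have hb2 : 1 < ‖(1 + b) - 1‖ := by
    rw [add_sub_cancel_left]; exact hb1
  obtain ⟨q1, hq1, p, m, hth⟩ := theta_dense hb2 hmin
  have hbq : ‖(1 + b) - q0‖ < min (r / 2) (ε / 3) := by
    have e : (1 + b) - q0 = b - (q0 - 1) := by ring
    rw [e]; exact hb
  have hqq : ‖q1 - q0‖ < min (r / 2) (ε / 3) + min (r / 2) (ε / 3) := by
    calc ‖q1 - q0‖ = ‖(q1 - (1 + b)) + ((1 + b) - q0)‖ := by ring_nf
      _ ≤ ‖q1 - (1 + b)‖ + ‖(1 + b) - q0‖ := norm_add_le _ _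
      _ < _ := add_lt_add hq1 hbq
  have hq1r : q1 ∈ ball q0 r := by
    rw [mem_ball, dist_eq_norm]
    have := min_le_left (r / 2) (ε / 3)
    linarith
  obtain ⟨q, hq, l, hroot⟩ := local_root D hq1r hth (ε := ε / 3) (by linarith)
  refine ⟨q, ⟨Vert p m l, inferInstance, Gr p m l, threeConnected_Gr p m l, planar_Gr p m l,
    hroot⟩, ?_⟩
  rw [dist_comm, dist_eq_norm]
  have h4 := min_le_right (r / 2) (ε / 3)
  calc ‖q - q0‖ = ‖(q - q1) + (q1 - q0)‖ := by ring_nf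
    _ ≤ ‖q - q1‖ + ‖q1 - q0‖ := norm_add_le _ _
    _ < ε := by linarith

end H37.Chrom
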