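import Pool.Agent.H37.Chrom.RankOne

/-!
Closed form for the iterated kernels.
-/

namespace H37.Chrom

open Ker Polynomial

variable {A : Type} [CommRing A]

/-- scaling of kernels -/
def sc (μ : A) (w : Ker A) : Ker A := ⟨μ * w.a, μ * w.b, μ * w.c, μ * w.d, μ * w.s⟩

lemma sc_val (μ : A) (w : Ker A) (P Q R : Prop) : (sc μ w).val P Q R = μ * w.val P Q R := by
  simp only [val, sc]
  split_ifs <;> ring

lemma skW_sc {p m : ℕ} (μ : A) (w : Ker A) (r : Sk p m → Sk p m → Prop) :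
    skW (sc μ w) r = μ ^ Fintype.card (Ix p m) * skW w r := by
  simp only [skW, sc_val, Finset.prod_mul_distrib, Finset.prod_const, Finset.card_univ]
  ring

lemma Z_sc (p m : ℕ) (μ : ℂ) (w : Ker ℂ) (q : ℂ) :
    Z p m (sc μ w) q = μ ^ Fintype.card (Ix p m) * Z p m w q := by
  simp only [Z, setSum, skW_sc, Finset.mul_sum]
  refine Finset.sum_congr rfl fun s _ => ?_
  ring

lemma step_sc (q μ : A) (w : Ker A) :
    Ker.comp q (blk q) (Ker.comp q (adj A) (sc μ w)) = sc μ (Ker.comp q (blk q) (Ker.comp q (adj A) w)) := by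
  ext <;> simp only [Ker.comp, sc, blk, adj] <;> ring

/-- eigenvalue of the nontrivial part -/
def kap (q : A) : A := q ^ 2 - 5 * q + 7

/-- trace of the transfer matrix -/
def trT (q : A) : A := (q - 2) ^ 2 * (q ^ 2 - 3 * q + 5)

/-- determinant of the transfer matrix -/
def dtT (q : A) : A := (q - 1) ^ 2 * (q - 2) ^ 4

/-- entries of the transfer matrix -/
def t11 (q : A) : A := (q - 1) * (q - 2) ^ 2
/-- entries of the transfer matrix -/
def t12 (q : A) : A := (q - 1) * (q - 2) ^ 3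
/-- entries of the transfer matrix -/
def t21 (q : A) : A := (q - 2) * kap q
/-- entries of the transfer matrix -/
def t22 (q : A) : A := (q - 2) ^ 2 * (q - 1 + kap q)
/-- entries of the block matrix -/
def g12 (q : A) : A := (q - 1) * (q - 2) ^ 2
/-- entries of the block matrix -/
def g21 (q : A) : A := (q - 2) ^ 2
/-- entries of the block matrix -/
def g22 (q : A) : A := (q - 2) * kap q

/-- the kernel (times `(q - 1) (lp - lm)`) with coordinates `al`, `be`, `ga` along the three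
eigenspaces -/
def Ku (q lp lm al be ga : A) : Ker A where
  a := (q - 1) * ((al - be) * (t12 q * g21 q))
  b := (al - be) * (t11 q * g12 q + t12 q * g22 q) - (al * lm - be * lp) * g12 q
  c := (q - 1) * ((al - be) * (t22 q * g21 q) - (al * lm - be * lp) * g21 q)
  d := (al - be) * (t21 q * g12 q + t22 q * g22 q) - (al * lm - be * lp) * g22 q
    + kap q * (lp - lm) * ga
  s := -((q - 1) * (kap q * (lp - lm) * ga))

lemma Ku_zero (q lp lm : A) : Ku q lp lm 1 1 1 = sc ((q - 1) * (lp - lm)) (blk q) := by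
  ext <;> simp only [Ku, sc, blk, t11, t12, t21, t22, g12, g21, g22, kap] <;> ring

lemma Ku_step (q lp lm al be ga : A) (h1 : lp + lm = trT q) (h2 : lp * lm = dtT q) :
    Ker.comp q (blk q) (Ker.comp q (adj A) (Ku q lp lm al be ga)) =
      Ku q lp lm (lp * al) (lm * be) (kap q * ga) := by
  obtain rfl : lm = trT q - lp := by rw [← h1]; ring
  have h3 : lp * (trT q - lp) - dtT q = 0 := by rw [h2]; ring
  ext
  · simp only [Ku, Ker.comp, blk, adj, t11, t12, t21, t22, g12, g21, g22, kap, trT, dtT] at h3 ⊢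
    ring
  · simp only [Ku, Ker.comp, blk, adj, t11, t12, t21, t22, g12, g21, g22, kap, trT, dtT] at h3 ⊢
    linear_combination (al - be) * ((q - 1) * (q - 2) ^ 2) * h3
  · simp only [Ku, Ker.comp, blk, adj, t11, t12, t21, t22, g12, g21, g22, kap, trT, dtT] at h3 ⊢
    linear_combination (al - be) * ((q - 1) * (q - 2) ^ 2) * h3
  · simp only [Ku, Ker.comp, blk, adj, t11, t12, t21, t22, g12, g21, g22, kap, trT, dtT] at h3 ⊢
    linear_combination (al - be) * ((q - 2) * (q ^ 2 - 5 * q + 7)) * h3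
  · simp only [Ku, Ker.comp, blk, adj, t11, t12, t21, t22, g12, g21, g22, kap, trT, dtT] at h3 ⊢
    ring

lemma it_closed (q lp lm : A) (h1 : lp + lm = trT q) (h2 : lp * lm = dtT q) (l : ℕ) :
    sc ((q - 1) * (lp - lm)) (it q l) = Ku q lp lm (lp ^ l) (lm ^ l) (kap q ^ l) := by
  induction l with
  | zero => simp only [pow_zero, Ku_zero, it]
  | succ l ih =>
    rw [it, ← step_sc, ih, Ku_step q lp lm _ _ _ h1 h2]
    simp only [pow_succ, mul_comm]

lemma Ku_sc (q lp lm al be ga μ : A) :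
    Ku q lp lm (μ * al) (μ * be) (μ * ga) = sc μ (Ku q lp lm al be ga) := by
  ext <;> simp only [Ku, sc] <;> ring

theorem root_of_Ku {p m l : ℕ} {q lp lm ρ σ : ℂ} (h1 : lp + lm = trT q) (h2 : lp * lm = dtT q)
    (hq : q ≠ 1) (hlm : lm = lp * ρ) (hk : kap q = lp * σ) (hne : lp ≠ lm)
    (hZ : Z p m (Ku q lp lm 1 (ρ ^ l) (σ ^ l)) q = 0) : IsChromaticRoot (Gr p m l) q := by
  refine root_of_Z ?_
  have h3 : ((q - 1) * (lp - lm)) ^ Fintype.card (Ix p m) * Z p m (it q l) q = 0 := by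
    rw [← Z_sc, it_closed q lp lm h1 h2]
    have e : Ku q lp lm (lp ^ l) (lm ^ l) (kap q ^ l) = sc (lp ^ l) (Ku q lp lm 1 (ρ ^ l) (σ ^ l)) := by
      rw [← Ku_sc, mul_one, ← mul_pow, ← mul_pow, ← hlm, ← hk]
    rw [e, Z_sc, hZ, mul_zero]
  rcases mul_eq_zero.1 h3 with h | h
  · exact absurd h (pow_ne_zero _ (mul_ne_zero (sub_ne_zero.2 hq) (sub_ne_zero.2 hne)))
  · exact h

/-- `J` of the product matrix -/
def j1 (q : A) : A := (q - 1) * (t12 q * g21 q) +
  (q - 2) * (t11 q * g12 q + t12 q * g22 q + (q - 1) * (t22 q * g21 q)) +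
  (q ^ 2 - 3 * q + 3) * (t21 q * g12 q + t22 q * g22 q)

/-- `J` of the block matrix -/
def j0 (q : A) : A := (q - 2) * (g12 q + (q - 1) * g21 q) + (q ^ 2 - 3 * q + 3) * g22 q

/-- the resultant -/
def rsl (q : A) : A := j1 q ^ 2 - trT q * j1 q * j0 q + dtT q * j0 q ^ 2

lemma fJ_Ku (q lp lm : A) : fJ (Ku q lp lm 1 0 0) q = j1 q - lm * j0 q := by
  simp only [fJ, Ku, j1, j0]
  ring

lemma rsl_of_fJ {q lp lm : A} (h1 : lp + lm = trT q) (h2 : lp * lm = dtT q)
    (h : fJ (Ku q lp lm 1 0 0) q = 0) : rsl q = 0 := by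
  rw [fJ_Ku] at h
  rw [rsl]
  linear_combination (j1 q - lp * j0 q) * h + j1 q * j0 q * h1 - j0 q ^ 2 * h2

theorem Z_Ku_limit (p m : ℕ) {q lp lm : ℂ} (h1 : lp + lm = trT q) (h2 : lp * lm = dtT q)
    (hq1 : q ≠ 1) (hq2 : q ≠ 2) :
    Z p m (Ku q lp lm 1 0 0) q =
      thP p m q * fJ (Ku q lp lm 1 0 0) q ^ Fintype.card (Ix p m) := by
  have ha : (Ku q lp lm 1 0 0).a ≠ 0 := by
    simp only [Ku, t12, g21]
    have e1 := sub_ne_zero.2 hq1
    have e2 := sub_ne_zero.2 hq2
    rw [sub_zero, one_mul]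
    exact mul_ne_zero e1 (mul_ne_zero (mul_ne_zero e1 (pow_ne_zero _ e2)) (pow_ne_zero _ e2))
  have hs : (Ku q lp lm 1 0 0).s = 0 := by
    simp only [Ku]; ring
  have hd : (Ku q lp lm 1 0 0).a * (Ku q lp lm 1 0 0).d =
      (Ku q lp lm 1 0 0).b * (Ku q lp lm 1 0 0).c := by
    have h3 : t12 q * t21 q - (t11 q - lm) * (t22 q - lm) = 0 := by
      have e1 : t11 q + t22 q = trT q := by simp only [t11, t22, trT, kap]; ring
      have e2 : t11 q * t22 q - t12 q * t21 q = dtT q := by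
        simp only [t11, t12, t21, t22, dtT, kap]; ring
      linear_combination (-1 : ℂ) * e2 + lm * e1 - lm * h1 + h2
    simp only [Ku]
    linear_combination (q - 1) * g21 q * g12 q * h3
  have hrk : Ku q lp lm 1 0 0 = rk 1 ((Ku q lp lm 1 0 0).c / (Ku q lp lm 1 0 0).a)
      (Ku q lp lm 1 0 0).a (Ku q lp lm 1 0 0).b := by
    ext
    · simp [rk]
    · simp [rk]
    · simp only [rk]; field_simp
    · simp only [rk]; field_simp; linear_combination hd
    · simp [rk, hs]
  rw [hrk, Z_rank_one]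

end H37.Chrom
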