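import Mathlib

/-!
Definitions for MP_5e2eaf_co: chromatic roots, 3-connected graphs, planar graphs.
-/

namespace H37.Chrom

open Polynomial

/-- `P` is the chromatic polynomial of `G`: for every natural number `n` its value at `n` is the
number of proper colourings of the vertices of `G` with `n` colours. -/
def IsChromaticPolynomial {V : Type} (G : SimpleGraph V) (P : ℤ[X]) : Prop :=
  ∀ n : ℕ, P.eval (n : ℤ) = (Nat.card (G.Coloring (Fin n)) : ℤ)

/-- `q` is a chromatic root of `G`. -/
def IsChromaticRoot {V : Type} (G : SimpleGraph V) (q : ℂ) : Prop :=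
  ∃ P : ℤ[X], IsChromaticPolynomial G P ∧ aeval q P = 0

/-- `G` is 3-connected: at least four vertices, and deleting any set of at most two vertices
leaves a connected graph. -/
def ThreeConnected {V : Type} [Fintype V] (G : SimpleGraph V) : Prop :=
  4 ≤ Fintype.card V ∧ ∀ S : Finset V, S.card ≤ 2 → (G.induce {v | v ∉ S}).Connected

/-- A drawing of `G` in the plane without edge crossings: vertices are distinct points, every edge
`uv` is a simple arc `arc u v` from `pos u` to `pos v`, an arc passes through no vertex other than
its two ends, and two arcs of different edges can only meet in (the position of) a vertex, hence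
only in a common end. -/
structure PlaneDrawing {V : Type} (G : SimpleGraph V) where
  /-- position of the vertices -/
  pos : V → ℝ × ℝ
  /-- the arcs -/
  arc : V → V → unitInterval → ℝ × ℝ
  pos_injective : Function.Injective pos
  arc_continuous : ∀ u v, G.Adj u v → Continuous (arc u v)
  arc_injective : ∀ u v, G.Adj u v → Function.Injective (arc u v)
  arc_zero : ∀ u v, G.Adj u v → arc u v 0 = pos u
  arc_one : ∀ u v, G.Adj u v → arc u v 1 = pos v
  arc_symm : ∀ u v, G.Adj u v → ∀ t, arc v u t = arc u v (unitInterval.symm t)
  vertex_on_arc : ∀ u v, G.Adj u v → ∀ t w, arc u v t = pos w → w = u ∨ w = v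
  arc_meet : ∀ u v u' v', G.Adj u v → G.Adj u' v' → s(u, v) ≠ s(u', v') →
    ∀ t t', arc u v t = arc u' v' t' → ∃ w, arc u v t = pos w

/-- `G` is planar: it can be drawn in the plane without edge crossings. -/
def Planar {V : Type} (G : SimpleGraph V) : Prop := Nonempty (PlaneDrawing G)

/-- The set of all chromatic roots of finite 3-connected planar graphs. -/
def rootSet : Set ℂ :=
  {q | ∃ (V : Type) (_ : Fintype V) (G : SimpleGraph V),
    ThreeConnected G ∧ Planar G ∧ IsChromaticRoot G q}

end H37.Chrom
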