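import Pool.Agent.H37.Chrom.Kernel

/-!
Number of fillings of one side of a collar.
-/

namespace H37.Chrom

open Ker

/-- colours of a block: far, far, near, near -/
abbrev Blk (n : ℕ) := Fin n × Fin n × Fin n × Fin n

/-- a side of a collar is properly coloured, with centre colour `u` -/
def segOK {n l : ℕ} (u : Fin n) (σ : Fin (l + 1) → Blk n) : Prop :=
  (∀ t, okBlk u (σ t).1 (σ t).2.1 (σ t).2.2.1 (σ t).2.2.2) ∧
    ∀ t : Fin l, (σ t.castSucc).2.1 ≠ (σ t.succ).1

instance {n l : ℕ} (u : Fin n) (σ : Fin (l + 1) → Blk n) : Decidable (segOK u σ) := by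
  unfold segOK; infer_instance

lemma segOK_cons {n l : ℕ} (u : Fin n) (b : Blk n) (σ : Fin (l + 1) → Blk n) :
    segOK u (Fin.cons b σ : Fin (l + 2) → Blk n) ↔
      okBlk u b.1 b.2.1 b.2.2.1 b.2.2.2 ∧ b.2.1 ≠ (σ 0).1 ∧ segOK u σ := by
  have h : ∀ t : Fin l, (Fin.cons b σ : Fin (l + 2) → Blk n) (t.succ.castSucc) =
      σ t.castSucc := by
    intro t
    rw [← Fin.succ_castSucc, Fin.cons_succ]
  constructor
  · rintro ⟨h1, h2⟩
    refine ⟨by simpa using h1 0, by simpa using h2 0, fun t => by simpa using h1 t.succ,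
      fun t => ?_⟩
    have := h2 t.succ
    rwa [h, Fin.cons_succ] at this
  · rintro ⟨h1, h2, h3, h4⟩
    refine ⟨fun t => ?_, fun t => ?_⟩
    · refine Fin.cases ?_ (fun t => ?_) t
      · simpa using h1
      · simpa using h3 t
    · refine Fin.cases ?_ (fun t => ?_) t
      · simpa using h2
      · rw [h, Fin.cons_succ]
        exact h4 t

lemma sum_blk {A : Type} [CommRing A] {n : ℕ} (F : Fin n → Fin n → Fin n → Fin n → A) :
    ∑ b : Blk n, F b.1 b.2.1 b.2.2.1 b.2.2.2 = ∑ x, ∑ y, ∑ r, ∑ t, F x y r t := by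
  rw [Fintype.sum_prod_type]
  refine Finset.sum_congr rfl fun x _ => ?_
  rw [Fintype.sum_prod_type]
  refine Finset.sum_congr rfl fun y _ => ?_
  rw [Fintype.sum_prod_type]

lemma seg_sum {A : Type} [CommRing A] {n : ℕ} (u y : Fin n) (l : ℕ) : ∀ (F : Fin n → A),
    ∑ σ : Fin (l + 1) → Blk n, (if segOK u σ then (1 : A) else 0) * F (σ 0).1 *
      (if (σ (Fin.last l)).2.1 = y then 1 else 0) =
    ∑ x, F x * (it (n : A) l).val (x = u) (y = u) (x = y) := by
  classical
  induction l with
  | zero =>
    intro F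
    rw [← (Equiv.funUnique (Fin 1) (Blk n)).symm.sum_comp]
    have h : ∀ b : Blk n, (if segOK u ((Equiv.funUnique (Fin 1) (Blk n)).symm b) then (1 : A)
        else 0) * F (((Equiv.funUnique (Fin 1) (Blk n)).symm b) 0).1 *
        (if (((Equiv.funUnique (Fin 1) (Blk n)).symm b) (Fin.last 0)).2.1 = y then 1 else 0) =
        (if okBlk u b.1 b.2.1 b.2.2.1 b.2.2.2 then (1 : A) else 0) * F b.1 *
          (if b.2.1 = y then 1 else 0) := by
      intro b
      have e : ∀ t, ((Equiv.funUnique (Fin 1) (Blk n)).symm b) t = b := fun t => rfl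
      simp only [segOK, e]
      simp
    rw [Finset.sum_congr rfl (fun b _ => h b)]
    rw [sum_blk (fun x z r t => (if okBlk u x z r t then (1 : A) else 0) * F x *
      (if z = y then 1 else 0))]
    refine Finset.sum_congr rfl fun x _ => ?_
    have h2 : ∀ z : Fin n, ∑ r : Fin n, ∑ t : Fin n, (if okBlk u x z r t then (1 : A) else 0) * F x *
        (if z = y then 1 else 0) = if z = y then F x * (blk (n : A)).val (x = u) (y = u) (x = y)
          else 0 := by
      intro z
      by_cases hz : z = y
      · subst hz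
        simp only [if_true, mul_one]
        rw [← blk_val]
        simp only [Finset.mul_sum]
        refine Finset.sum_congr rfl fun r _ => Finset.sum_congr rfl fun t _ => mul_comm _ _
      · simp [hz]
    simp only [h2, Finset.sum_ite_eq', Finset.mem_univ, if_true]
    rfl
  | succ l ih =>
    intro F
    rw [← (Fin.consEquiv (fun _ => Blk n)).sum_comp]
    rw [Fintype.sum_prod_type]
    have h : ∀ (b : Blk n) (σ : Fin (l + 1) → Blk n),
        (if segOK u ((Fin.consEquiv (fun _ => Blk n)) (b, σ)) then (1 : A) else 0) *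
          F (((Fin.consEquiv (fun _ => Blk n)) (b, σ)) 0).1 *
          (if (((Fin.consEquiv (fun _ => Blk n)) (b, σ)) (Fin.last (l + 1))).2.1 = y
            then 1 else 0) =
        ((if okBlk u b.1 b.2.1 b.2.2.1 b.2.2.2 then (1 : A) else 0) * F b.1) *
          ((if segOK u σ then (1 : A) else 0) * (if b.2.1 ≠ (σ 0).1 then (1 : A) else 0) *
            (if (σ (Fin.last l)).2.1 = y then 1 else 0)) := by
      intro b σ
      have e1 : (Fin.consEquiv (fun _ => Blk n)) (b, σ) = (Fin.cons b σ : Fin (l + 2) → Blk n) :=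
        rfl
      rw [e1]
      have e2 : (Fin.cons b σ : Fin (l + 2) → Blk n) (Fin.last (l + 1)) = σ (Fin.last l) := by
        rw [← Fin.succ_last, Fin.cons_succ]
      rw [e2, Fin.cons_zero]
      simp only [segOK_cons]
      by_cases h1 : okBlk u b.1 b.2.1 b.2.2.1 b.2.2.2 <;> by_cases h2 : b.2.1 ≠ (σ 0).1 <;>
        by_cases h3 : segOK u σ <;> simp [h1, h2, h3]
    have h' : ∀ b : Blk n, ∑ σ : Fin (l + 1) → Blk n,
        (if segOK u ((Fin.consEquiv (fun _ => Blk n)) (b, σ)) then (1 : A) else 0) *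
          F (((Fin.consEquiv (fun _ => Blk n)) (b, σ)) 0).1 *
          (if (((Fin.consEquiv (fun _ => Blk n)) (b, σ)) (Fin.last (l + 1))).2.1 = y
            then 1 else 0) =
        ((if okBlk u b.1 b.2.1 b.2.2.1 b.2.2.2 then (1 : A) else 0) * F b.1) *
          ∑ z : Fin n, (if b.2.1 ≠ z then (1 : A) else 0) *
            (it (n : A) l).val (z = u) (y = u) (z = y) := by
      intro b
      rw [Finset.sum_congr rfl (fun σ _ => h b σ), ← Finset.mul_sum]
      congr 1
      exact ih (fun z => if b.2.1 ≠ z then (1 : A) else 0)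
    rw [Finset.sum_congr rfl (fun b _ => h' b)]
    rw [sum_blk (fun x z r t => ((if okBlk u x z r t then (1 : A) else 0) * F x) *
          ∑ z' : Fin n, (if z ≠ z' then (1 : A) else 0) *
            (it (n : A) l).val (z' = u) (y = u) (z' = y))]
    refine Finset.sum_congr rfl fun x _ => ?_
    have h3 : ∀ z : Fin n, ∑ z' : Fin n, (if z ≠ z' then (1 : A) else 0) *
            (it (n : A) l).val (z' = u) (y = u) (z' = y) =
        (comp (n : A) (adj A) (it (n : A) l)).val (z = u) (y = u) (z = y) := by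
      intro z
      rw [← comp_val]
      refine Finset.sum_congr rfl fun z' _ => ?_
      rw [adj_val z z' u]
    simp only [h3]
    rw [it, ← comp_val, Finset.mul_sum]
    refine Finset.sum_congr rfl fun z _ => ?_
    rw [← blk_val, Finset.sum_mul, Finset.mul_sum]
    refine Finset.sum_congr rfl fun r _ => ?_
    rw [Finset.sum_mul, Finset.mul_sum]
    refine Finset.sum_congr rfl fun t _ => ?_
    ring

/-- number of fillings of a side with prescribed ends -/
lemma seg_count {A : Type} [CommRing A] {n : ℕ} (u x y : Fin n) (l : ℕ) :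
    ∑ σ : Fin (l + 1) → Blk n, (if segOK u σ then (1 : A) else 0) *
      (if (σ 0).1 = x ∧ (σ (Fin.last l)).2.1 = y then 1 else 0) =
    (it (n : A) l).val (x = u) (y = u) (x = y) := by
  classical
  have h := seg_sum (A := A) u y l (fun z => if z = x then 1 else 0)
  have h2 : ∑ z, (if z = x then (1 : A) else 0) * (it (n : A) l).val (z = u) (y = u) (z = y) =
      (it (n : A) l).val (x = u) (y = u) (x = y) := by
    rw [Finset.sum_eq_single x]
    · simp
    · intro z _ hz; simp [hz]
    · intro h; exact absurd (Finset.mem_univ _) h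
  rw [← h2, ← h]
  refine Finset.sum_congr rfl fun σ _ => ?_
  by_cases h1 : (σ 0).1 = x <;> by_cases h3 : (σ (Fin.last l)).2.1 = y <;> simp [h1, h3]

end H37.Chrom
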