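import Pool.Agent.H37.Chrom.Family
import Pool.Agent.H37.Chrom.Count
import Pool.Agent.H37.Chrom.Segment

/-!
The number of colourings of the family as a weighted sum over the skeleton.
-/

namespace H37.Chrom

open Ker Polynomial

/-- vertices of the theta graph -/
abbrev Base (p m : ℕ) := Bool ⊕ (Fin (p + 2) × Fin (m + 2))

/-- sides of collars -/
abbrev Ix (p m : ℕ) := Fin (p + 1) × Side m

/-- skeleton vertices -/
abbrev Sk (p m : ℕ) := Base p m ⊕ (Ix p m × Bool)

/-- centre of a side -/
def cen {p m : ℕ} : Ix p m → Base p m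
  | (_, .left) => .inl false
  | (_, .right) => .inl true
  | (f, .bot j) => .inr (f.castSucc, j)
  | (f, .top j) => .inr (f.succ, j)

/-- next side of the same collar -/
def nx {p m : ℕ} (i : Ix p m) : Ix p m := (i.1, i.2.next)

/-- the rotation as a permutation -/
def nxPerm (p m : ℕ) : Equiv.Perm (Ix p m) where
  toFun := nx
  invFun := fun i => (i.1, i.2.prev)
  left_inv := fun i => by simp [nx, Side.prev_next]
  right_inv := fun i => by simp [nx, Side.next_prev]

/-- properness on the theta graph -/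
def baseOK {p m : ℕ} (r : Base p m → Base p m → Prop) : Prop :=
  (∀ i, ¬ r (.inl false) (.inr (i, 0))) ∧ (∀ i, ¬ r (.inl true) (.inr (i, Fin.last _))) ∧
    ∀ i (j : Fin (m + 1)), ¬ r (.inr (i, j.castSucc)) (.inr (i, j.succ))

open Classical in
/-- the weight of a relation on the skeleton -/
noncomputable def skW {p m : ℕ} {A : Type} [CommRing A] (w : Ker A)
    (r : Sk p m → Sk p m → Prop) : A :=
  (if baseOK (fun a b => r (.inl a) (.inl b)) then 1 else 0) *
    ((∏ i : Ix p m, w.val (r (.inr (i, false)) (.inl (cen i))) (r (.inr (i, true)) (.inl (cen i)))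
      (r (.inr (i, false)) (.inr (i, true)))) *
    ∏ i : Ix p m, (if r (.inr (i, true)) (.inr (nx i, false)) then 0 else 1))

lemma skW_map {p m : ℕ} {A B : Type} [CommRing A] [CommRing B] (φ : A →+* B) (w : Ker A)
    (r : Sk p m → Sk p m → Prop) : φ (skW w r) = skW (w.map φ) r := by
  simp only [skW, map_mul, map_prod, map_val]
  congr 1
  · split_ifs <;> simp
  · congr 1
    refine Finset.prod_congr rfl fun i _ => ?_
    split_ifs <;> simp

/-- colourings of the skeleton -/
def skEquiv (p m n : ℕ) : (Sk p m → Fin n) ≃ (Base p m → Fin n) × (Ix p m → Fin n × Fin n) where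
  toFun g := (fun a => g (.inl a), fun i => (g (.inr (i, false)), g (.inr (i, true))))
  invFun d := fun a => match a with
    | .inl a => d.1 a
    | .inr (i, false) => (d.2 i).1
    | .inr (i, true) => (d.2 i).2
  left_inv g := by
    funext a
    rcases a with a | ⟨i, (_ | _)⟩ <;> rfl
  right_inv d := rfl

lemma ite_eq_ite_of {A : Type} {P Q : Prop} {iP : Decidable P} {iQ : Decidable Q} (h : P ↔ Q)
    {x y : A} : @ite A P iP x y = @ite A Q iQ x y := by
  by_cases hP : P
  · rw [if_pos hP, if_pos (h.1 hP)]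
  · rw [if_neg hP, if_neg (fun hq => hP (h.2 hq))]

open Classical in
lemma sum_skW {p m n : ℕ} {A : Type} [CommRing A] (w : Ker A) :
    ∑ g : Sk p m → Fin n, skW w (fun a b => g a = g b) =
      ∑ φ : Base p m → Fin n, (if baseOK (fun a b => φ a = φ b) then (1 : A) else 0) *
        ∑ z : Ix p m → Fin n × Fin n,
          (∏ i, w.val ((z i).1 = φ (cen i)) ((z i).2 = φ (cen i)) ((z i).1 = (z i).2)) *
            ∏ i, (if (z i).2 = (z (nx i)).1 then 0 else 1) := by
  rw [← (skEquiv p m n).symm.sum_comp, Fintype.sum_prod_type]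
  refine Finset.sum_congr rfl fun φ _ => ?_
  rw [Finset.mul_sum]
  refine Finset.sum_congr rfl fun z _ => ?_
  rw [skW]
  refine congrArg₂ (· * ·) (if_congr Iff.rfl rfl rfl) (congrArg₂ (· * ·) rfl ?_)
  exact Finset.prod_congr rfl fun i _ => ite_eq_ite_of Iff.rfl

/-- colourings of the family -/
def vertEquiv (p m l n : ℕ) : (Vert p m l → Fin n) ≃
    (Base p m → Fin n) × (Ix p m → Fin (l + 1) → Blk n) where
  toFun F := (fun a => match a with
      | .inl c => F (.hub c)
      | .inr (i, j) => F (.bb i j),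
    fun i t => (F (.far i.1 i.2 t false), F (.far i.1 i.2 t true), F (.near i.1 i.2 t false),
      F (.near i.1 i.2 t true)))
  invFun d := fun v => match v with
    | .hub c => d.1 (.inl c)
    | .bb i j => d.1 (.inr (i, j))
    | .far f s t false => (d.2 (f, s) t).1
    | .far f s t true => (d.2 (f, s) t).2.1
    | .near f s t false => (d.2 (f, s) t).2.2.1
    | .near f s t true => (d.2 (f, s) t).2.2.2
  left_inv F := by
    funext v
    rcases v with c | ⟨i, j⟩ | ⟨f, s, t, (_ | _)⟩ | ⟨f, s, t, (_ | _)⟩ <;> rfl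
  right_inv d := by
    refine Prod.ext ?_ ?_
    · funext a
      rcases a with c | ⟨i, j⟩ <;> rfl
    · rfl

lemma proper_iff {p m l n : ℕ} (φ : Base p m → Fin n) (S : Ix p m → Fin (l + 1) → Blk n) :
    (∀ a b, (Gr p m l).Adj a b →
        (vertEquiv p m l n).symm (φ, S) a ≠ (vertEquiv p m l n).symm (φ, S) b) ↔
      baseOK (fun a b => φ a = φ b) ∧ (∀ i, segOK (φ (cen i)) (S i)) ∧
        ∀ i, (S i (Fin.last l)).2.1 ≠ (S (nx i) 0).1 := by
  have hE : (∀ a b, (Gr p m l).Adj a b →
        (vertEquiv p m l n).symm (φ, S) a ≠ (vertEquiv p m l n).symm (φ, S) b) ↔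
      (∀ a b, E a b →
        (vertEquiv p m l n).symm (φ, S) a ≠ (vertEquiv p m l n).symm (φ, S) b) := by
    constructor
    · intro h a b hab
      exact h a b hab.adj
    · intro h a b hab
      rcases Gr_adj'.1 hab with h1 | h1
      · exact h a b h1
      · exact (h b a h1).symm
  rw [hE]
  have hcen : ∀ f s, (vertEquiv p m l n).symm (φ, S) (center f s) = φ (cen (f, s)) := by
    intro f s
    cases s <;> rfl
  constructor
  · intro h
    refine ⟨⟨fun i => h _ _ (E.hubL i), fun i => h _ _ (E.hubR i),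
      fun i j => h _ _ (E.path i j)⟩, ?_, ?_⟩
    · rintro ⟨f, s⟩
      refine ⟨fun t => ⟨h _ _ (E.farIn f s t), h _ _ (E.rung f s t false),
        h _ _ (E.rung f s t true), ?_, ?_, h _ _ (E.pair f s t)⟩,
        fun t => h _ _ (E.farStep f s t)⟩
      · have := h _ _ (E.spoke f s t false)
        rw [hcen] at this
        exact this
      · have := h _ _ (E.spoke f s t true)
        rw [hcen] at this
        exact this
    · rintro ⟨f, s⟩
      exact h _ _ (E.farJ f s)
  · rintro ⟨⟨h1, h2, h3⟩, h4, h5⟩ a b hab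
    cases hab with
    | hubL i => exact h1 i
    | hubR i => exact h2 i
    | path i j => exact h3 i j
    | spoke f s t b =>
      rw [hcen]
      cases b with
      | false => exact ((h4 (f, s)).1 t).2.2.2.1
      | true => exact ((h4 (f, s)).1 t).2.2.2.2.1
    | rung f s t b =>
      cases b with
      | false => exact ((h4 (f, s)).1 t).2.1
      | true => exact ((h4 (f, s)).1 t).2.2.1
    | pair f s t => exact ((h4 (f, s)).1 t).2.2.2.2.2
    | farIn f s t => exact ((h4 (f, s)).1 t).1
    | farStep f s t => exact (h4 (f, s)).2 t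
    | farJ f s => exact h5 (f, s)

lemma pi_fiber {I S T A : Type} [Fintype I] [DecidableEq I] [Fintype S] [Fintype T]
    [DecidableEq T] [CommRing A] (ok : I → S → A) (e : S → T) (H : (I → T) → A) :
    ∑ σ : I → S, (∏ i, ok i (σ i)) * H (fun i => e (σ i)) =
      ∑ z : I → T, (∏ i, ∑ s, ok i s * (if e s = z i then 1 else 0)) * H z := by
  classical
  have h : ∀ z : I → T, (∏ i, ∑ s, ok i s * (if e s = z i then 1 else 0)) =
      ∑ σ : I → S, (∏ i, ok i (σ i)) * (if (fun i => e (σ i)) = z then 1 else 0) := by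
    intro z
    rw [Finset.prod_univ_sum, Fintype.piFinset_univ]
    refine Finset.sum_congr rfl fun σ _ => ?_
    rw [Finset.prod_mul_distrib]
    congr 1
    by_cases hz : (fun i => e (σ i)) = z
    · rw [if_pos hz]
      refine Finset.prod_eq_one fun i _ => ?_
      rw [if_pos (congrFun hz i)]
    · rw [if_neg hz]
      obtain ⟨i, hi⟩ : ∃ i, e (σ i) ≠ z i := by
        by_contra hcon
        push Not at hcon
        exact hz (funext hcon)
      exact Finset.prod_eq_zero (Finset.mem_univ i) (if_neg hi)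
  simp only [h, Finset.sum_mul]
  rw [Finset.sum_comm]
  refine Finset.sum_congr rfl fun σ _ => ?_
  rw [Finset.sum_eq_single (fun i => e (σ i))]
  · simp
  · intro z _ hz
    rw [if_neg (fun h => hz h.symm)]
    simp
  · intro h; exact absurd (Finset.mem_univ _) h

lemma ite_and3 {A : Type} [CommRing A] (P Q R : Prop) [Decidable P] [Decidable Q]
    [Decidable R] [Decidable (P ∧ Q ∧ R)] :
    (if P ∧ Q ∧ R then (1 : A) else 0) =
      (if P then 1 else 0) * ((if Q then 1 else 0) * (if R then 1 else 0)) := by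
  by_cases hP : P <;> by_cases hQ : Q <;> by_cases hR : R <;> simp [hP, hQ, hR]

/-- the number of colourings of the family -/
theorem card_coloring (p m l n : ℕ) {A : Type} [CommRing A] :
    (Nat.card ((Gr p m l).Coloring (Fin n)) : A) =
      ∑ g : Sk p m → Fin n, skW (it (n : A) l) (fun a b => g a = g b) := by
  classical
  rw [← sum_proper (Gr p m l) A n, sum_skW]
  rw [← (vertEquiv p m l n).symm.sum_comp, Fintype.sum_prod_type]
  refine Finset.sum_congr rfl fun φ _ => ?_
  have h1 : ∀ S : Ix p m → Fin (l + 1) → Blk n,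
      properWt (Gr p m l) A (Setoid.ker ((vertEquiv p m l n).symm (φ, S))) =
      (if baseOK (fun a b => φ a = φ b) then (1 : A) else 0) *
        ((∏ i, (if segOK (φ (cen i)) (S i) then (1 : A) else 0)) *
          ∏ i, (if (S i (Fin.last l)).2.1 = (S (nx i) 0).1 then 0 else 1)) := by
    intro S
    have h2 : (∏ i, (if segOK (φ (cen i)) (S i) then (1 : A) else 0)) =
        if ∀ i, segOK (φ (cen i)) (S i) then 1 else 0 := by
      rw [Finset.prod_ite_zero]
      simp
    have h3 : (∏ i, (if (S i (Fin.last l)).2.1 = (S (nx i) 0).1 then (0 : A) else 1)) =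
        if ∀ i, (S i (Fin.last l)).2.1 ≠ (S (nx i) 0).1 then 1 else 0 := by
      have : ∀ i, (if (S i (Fin.last l)).2.1 = (S (nx i) 0).1 then (0 : A) else 1) =
          if (S i (Fin.last l)).2.1 ≠ (S (nx i) 0).1 then 1 else 0 := by
        intro i
        split_ifs <;> simp_all
      simp only [this]
      rw [Finset.prod_ite_zero]
      simp
    have h4 : properWt (Gr p m l) A (Setoid.ker ((vertEquiv p m l n).symm (φ, S))) =
        if baseOK (fun a b => φ a = φ b) ∧ (∀ i, segOK (φ (cen i)) (S i)) ∧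
        ∀ i, (S i (Fin.last l)).2.1 ≠ (S (nx i) 0).1 then 1 else 0 := by
      rw [properWt]
      refine if_congr ?_ rfl rfl
      exact proper_iff φ S
    rw [h2, h3, h4]
    exact ite_and3 (A := A) _ _ _
  rw [Finset.sum_congr rfl (fun S _ => h1 S), ← Finset.mul_sum]
  congr 1
  have h5 := pi_fiber (I := Ix p m) (S := Fin (l + 1) → Blk n) (T := Fin n × Fin n) (A := A)
    (fun i σ => if segOK (φ (cen i)) σ then (1 : A) else 0)
    (fun σ => ((σ 0).1, (σ (Fin.last l)).2.1))
    (fun z => ∏ i, (if (z i).2 = (z (nx i)).1 then 0 else 1))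
  rw [h5]
  refine Finset.sum_congr rfl fun z _ => ?_
  congr 1
  refine Finset.prod_congr rfl fun i _ => ?_
  rw [← seg_count (A := A) (φ (cen i)) (z i).1 (z i).2 l]
  refine Finset.sum_congr rfl fun σ _ => ?_
  congr 1
  refine if_congr ?_ rfl rfl
  rw [Prod.ext_iff]

/-- the polynomial -/
noncomputable def famPoly (p m l : ℕ) : ℂ[X] :=
  setSum (fun s : Setoid (Sk p m) => skW (it (X : ℂ[X]) l) (fun a b => s a b)) X

/-- evaluation of weighted sums at complex numbers -/
noncomputable def Z (p m : ℕ) (w : Ker ℂ) (q : ℂ) : ℂ :=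
  setSum (fun s : Setoid (Sk p m) => skW w (fun a b => s a b)) q

lemma Z_nat (p m : ℕ) (w : Ker ℂ) (n : ℕ) :
    Z p m w (n : ℂ) = ∑ g : Sk p m → Fin n, skW w (fun a b => g a = g b) := by
  rw [Z, setSum_nat]
  rfl

lemma famPoly_eval (p m l : ℕ) (q : ℂ) : (famPoly p m l).eval q = Z p m (it q l) q := by
  have h := setSum_map (evalRingHom q)
    (fun s : Setoid (Sk p m) => skW (it (X : ℂ[X]) l) (fun a b => s a b)) X
  rw [coe_evalRingHom, eval_X] at h
  rw [famPoly, h, Z]
  congr 1
  funext s
  have := skW_map (evalRingHom q) (it (X : ℂ[X]) l) (fun a b => s a b)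
  rw [map_it, coe_evalRingHom, eval_X] at this
  exact this

lemma famPoly_nat (p m l n : ℕ) :
    (famPoly p m l).eval (n : ℂ) = (Nat.card ((Gr p m l).Coloring (Fin n)) : ℂ) := by
  rw [famPoly_eval, Z_nat, card_coloring]

theorem root_of_Z {p m l : ℕ} {q : ℂ} (h : Z p m (it q l) q = 0) :
    IsChromaticRoot (Gr p m l) q :=
  isChromaticRoot_of (famPoly p m l) (famPoly_nat p m l) (by rw [famPoly_eval]; exact h)

end H37.Chrom
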