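import Pool.Agent.H37.Chrom.Level

/-!
The family of graphs: a generalized theta graph with a collar in each bounded face.
-/

namespace H37.Chrom

/-- the sides of a collar: one for each vertex on the boundary of the face -/
inductive Side (m : ℕ)
  | left
  | right
  | bot (j : Fin (m + 2))
  | top (j : Fin (m + 2))
  deriving DecidableEq, Fintype

/-- the next side in cyclic order -/
def Side.next {m : ℕ} : Side m → Side m
  | .left => .bot 0
  | .right => .top (Fin.last _)
  | .bot j => if h : j.val + 1 < m + 2 then .bot ⟨j.val + 1, h⟩ else .right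
  | .top j => if h : 0 < j.val then .top ⟨j.val - 1, by omega⟩ else .left

/-- the previous side in cyclic order -/
def Side.prev {m : ℕ} : Side m → Side m
  | .right => .bot (Fin.last _)
  | .left => .top 0
  | .top j => if h : j.val + 1 < m + 2 then .top ⟨j.val + 1, h⟩ else .right
  | .bot j => if h : 0 < j.val then .bot ⟨j.val - 1, by omega⟩ else .left

lemma Side.prev_next {m : ℕ} (s : Side m) : s.next.prev = s := by
  cases s with
  | left => simp [Side.next, Side.prev]
  | right => simp [Side.next, Side.prev]
  | bot j =>
    simp only [Side.next]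
    split_ifs with h
    · simp [Side.prev]
    · simp only [Side.prev, Side.bot.injEq]
      ext; simp; omega
  | top j =>
    simp only [Side.next]
    split_ifs with h
    · simp only [Side.prev]
      rw [dif_pos (by simp; omega)]
      simp only [Side.top.injEq]
      ext; simp; omega
    · simp only [Side.prev, Side.top.injEq]
      ext; simp; omega

lemma Side.next_prev {m : ℕ} (s : Side m) : s.prev.next = s := by
  cases s with
  | left => simp [Side.next, Side.prev]
  | right => simp [Side.next, Side.prev]
  | top j =>
    simp only [Side.prev]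
    split_ifs with h
    · simp [Side.next]
    · simp only [Side.next, Side.top.injEq]
      ext; simp; omega
  | bot j =>
    simp only [Side.prev]
    split_ifs with h
    · simp only [Side.next]
      rw [dif_pos (by simp; omega)]
      simp only [Side.bot.injEq]
      ext; simp; omega
    · simp only [Side.next, Side.bot.injEq]
      ext; simp; omega

/-- cyclic rotation of the sides -/
def Side.rot (m : ℕ) : Equiv.Perm (Side m) where
  toFun := Side.next
  invFun := Side.prev
  left_inv := Side.prev_next
  right_inv := Side.next_prev

/-- vertices: two hubs, `p + 2` backbones with `m + 2` inner vertices each, and in each of the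
`p + 1` bounded faces a far rail and a near rail with `2 (l + 1)` vertices on each side -/
inductive Vert (p m l : ℕ)
  | hub (b : Bool)
  | bb (i : Fin (p + 2)) (j : Fin (m + 2))
  | far (f : Fin (p + 1)) (s : Side m) (t : Fin (l + 1)) (b : Bool)
  | near (f : Fin (p + 1)) (s : Side m) (t : Fin (l + 1)) (b : Bool)
  deriving DecidableEq, Fintype

/-- the vertex of the theta graph that belongs to a side of a face -/
def center {p m l : ℕ} (f : Fin (p + 1)) : Side m → Vert p m l
  | .left => .hub false
  | .right => .hub true
  | .bot j => .bb f.castSucc j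
  | .top j => .bb f.succ j

/-- edges (oriented) -/
inductive E {p m l : ℕ} : Vert p m l → Vert p m l → Prop
  | hubL (i : Fin (p + 2)) : E (.hub false) (.bb i 0)
  | hubR (i : Fin (p + 2)) : E (.hub true) (.bb i (Fin.last _))
  | path (i : Fin (p + 2)) (j : Fin (m + 1)) : E (.bb i j.castSucc) (.bb i j.succ)
  | spoke (f : Fin (p + 1)) (s : Side m) (t : Fin (l + 1)) (b : Bool) :
      E (.near f s t b) (center f s)
  | rung (f : Fin (p + 1)) (s : Side m) (t : Fin (l + 1)) (b : Bool) :
      E (.near f s t b) (.far f s t b)
  | pair (f : Fin (p + 1)) (s : Side m) (t : Fin (l + 1)) :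
      E (.near f s t false) (.near f s t true)
  | farIn (f : Fin (p + 1)) (s : Side m) (t : Fin (l + 1)) :
      E (.far f s t false) (.far f s t true)
  | farStep (f : Fin (p + 1)) (s : Side m) (t : Fin l) :
      E (.far f s t.castSucc true) (.far f s t.succ false)
  | farJ (f : Fin (p + 1)) (s : Side m) :
      E (.far f s (Fin.last l) true) (.far f s.next 0 false)

/-- the graph -/
def Gr (p m l : ℕ) : SimpleGraph (Vert p m l) := SimpleGraph.fromRel E

variable {p m l : ℕ}

lemma Gr_adj {a b : Vert p m l} : (Gr p m l).Adj a b ↔ a ≠ b ∧ (E a b ∨ E b a) := by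
  rw [Gr, SimpleGraph.fromRel_adj]

lemma E.ne {a b : Vert p m l} (h : E a b) : a ≠ b := by
  cases h with
  | hubL i => simp
  | hubR i => simp
  | path i j => simp [Fin.ext_iff]
  | spoke f s t b => cases s <;> simp [center]
  | rung f s t b => simp
  | pair f s t => simp
  | farIn f s t => simp
  | farStep f s t => simp
  | farJ f s => simp

lemma E.adj {a b : Vert p m l} (h : E a b) : (Gr p m l).Adj a b := Gr_adj.2 ⟨h.ne, Or.inl h⟩

lemma Gr_adj' {a b : Vert p m l} : (Gr p m l).Adj a b ↔ (E a b ∨ E b a) := by
  rw [Gr_adj]
  constructor
  · exact fun h => h.2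
  · rintro (h | h)
    · exact ⟨h.ne, Or.inl h⟩
    · exact ⟨h.ne.symm, Or.inr h⟩

end H37.Chrom
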