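import Mathlib

/-!
Kernels on colours that only depend on coincidences with a distinguished colour `u`.
-/

namespace H37.Chrom

/-- five coefficients: both ends equal `u`; first; second; none; and the diagonal correction -/
@[ext]
structure Ker (A : Type) where
  a : A
  b : A
  c : A
  d : A
  s : A

namespace Ker

variable {A : Type} [CommRing A]

open Classical in
/-- value of the kernel: `P` is `x = u`, `Q` is `y = u`, `R` is `x = y` -/
noncomputable def val (w : Ker A) (P Q R : Prop) : A :=
  if P then (if Q then w.a else w.b) else (if Q then w.c else w.d + if R then w.s else 0)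

/-- composition of kernels with `n` colours -/
def comp (n : A) (w w' : Ker A) : Ker A where
  a := w.a * w'.a + (n - 1) * (w.b * w'.c)
  b := w.a * w'.b + (n - 1) * (w.b * w'.d) + w.b * w'.s
  c := w.c * w'.a + (n - 1) * (w.d * w'.c) + w.s * w'.c
  d := w.c * w'.b + (n - 1) * (w.d * w'.d) + w.s * w'.d + w.d * w'.s
  s := w.s * w'.s

/-- ring homomorphisms act on kernels -/
def map {B : Type} [CommRing B] (φ : A →+* B) (w : Ker A) : Ker B :=
  ⟨φ w.a, φ w.b, φ w.c, φ w.d, φ w.s⟩

lemma map_val {B : Type} [CommRing B] (φ : A →+* B) (w : Ker A) (P Q R : Prop) :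
    φ (w.val P Q R) = (w.map φ).val P Q R := by
  simp only [val, map]
  split_ifs <;> simp

lemma map_comp {B : Type} [CommRing B] (φ : A →+* B) (n : A) (w w' : Ker A) :
    (comp n w w').map φ = comp (φ n) (w.map φ) (w'.map φ) := by
  simp only [comp, map, map_add, map_mul, map_sub, map_one]

/-- the kernel of adjacency in the complete graph -/
def adj (A : Type) [CommRing A] : Ker A := ⟨0, 1, 1, 1, -1⟩

lemma adj_val {n : ℕ} (x y u : Fin n) :
    (adj A).val (x = u) (y = u) (x = y) = if x ≠ y then 1 else 0 := by
  simp only [val, adj]
  split_ifs with h1 h2 h3 h3 h4 h5 <;> simp_all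

lemma comp_val {n : ℕ} (w w' : Ker A) (x y u : Fin n) :
    ∑ z : Fin n, w.val (x = u) (z = u) (x = z) * w'.val (z = u) (y = u) (z = y) =
      (comp (n : A) w w').val (x = u) (y = u) (x = y) := by
  classical
  by_cases hx : x = u <;> by_cases hy : y = u
  · subst hx; subst hy
    have h : ∀ z : Fin n, w.val (y = y) (z = y) (y = z) * w'.val (z = y) (y = y) (z = y) =
        w.b * w'.c + (if z = y then w.a * w'.a - w.b * w'.c else 0) := by
      intro z
      simp only [val]
      split_ifs <;> simp_all
    rw [Finset.sum_congr rfl (fun z _ => h z)]
    simp only [Finset.sum_add_distrib, Finset.sum_const, Finset.card_univ, Fintype.card_fin,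
      nsmul_eq_mul, Finset.sum_ite_eq', Finset.mem_univ, if_true]
    simp only [val, comp]
    simp only [if_true]
    ring
  · subst hx
    have h : ∀ z : Fin n, w.val (x = x) (z = x) (x = z) * w'.val (z = x) (y = x) (z = y) =
        w.b * w'.d + (if z = x then w.a * w'.b - w.b * w'.d else 0) +
          (if z = y then w.b * w'.s else 0) := by
      intro z
      simp only [val]
      by_cases h1 : z = x
      · subst h1
        have : ¬ z = y := fun h => hy h.symm
        simp [hy, this]
      · by_cases h2 : z = y
        · subst h2; simp [h1]; ring
        · simp [h1, h2, hy]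
    rw [Finset.sum_congr rfl (fun z _ => h z)]
    simp only [Finset.sum_add_distrib, Finset.sum_const, Finset.card_univ, Fintype.card_fin,
      nsmul_eq_mul, Finset.sum_ite_eq', Finset.mem_univ, if_true]
    simp only [val, comp, hy]
    simp only [if_true, if_false]
    ring
  · subst hy
    have h : ∀ z : Fin n, w.val (x = y) (z = y) (x = z) * w'.val (z = y) (y = y) (z = y) =
        w.d * w'.c + (if z = y then w.c * w'.a - w.d * w'.c else 0) +
          (if z = x then w.s * w'.c else 0) := by
      intro z
      simp only [val]
      by_cases h1 : z = y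
      · subst h1
        have : ¬ z = x := fun h => hx h.symm
        simp [hx, this]
      · by_cases h2 : z = x
        · subst h2; simp [h1]; ring
        · have : ¬ x = z := fun h => h2 h.symm
          simp [h1, h2, hx, this]
    rw [Finset.sum_congr rfl (fun z _ => h z)]
    simp only [Finset.sum_add_distrib, Finset.sum_const, Finset.card_univ, Fintype.card_fin,
      nsmul_eq_mul, Finset.sum_ite_eq', Finset.mem_univ, if_true]
    simp only [val, comp, hx]
    simp only [if_true, if_false]
    ring
  · by_cases hxy : x = y
    · subst hxy
      have h : ∀ z : Fin n, w.val (x = u) (z = u) (x = z) * w'.val (z = u) (x = u) (z = x) =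
          w.d * w'.d + (if z = u then w.c * w'.b - w.d * w'.d else 0) +
            (if z = x then w.s * w'.d + w.d * w'.s + w.s * w'.s else 0) := by
        intro z
        simp only [val]
        by_cases h1 : z = u
        · subst h1
          have : ¬ z = x := fun h => hx h.symm
          simp [hx, this]
        · by_cases h2 : z = x
          · subst h2; simp [h1]; ring
          · have : ¬ x = z := fun h => h2 h.symm
            simp [h1, h2, hx, this]
      rw [Finset.sum_congr rfl (fun z _ => h z)]
      simp only [Finset.sum_add_distrib, Finset.sum_const, Finset.card_univ, Fintype.card_fin,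
        nsmul_eq_mul, Finset.sum_ite_eq', Finset.mem_univ, if_true]
      simp only [val, comp, hx]
      simp only [if_true, if_false]
      ring
    · have h : ∀ z : Fin n, w.val (x = u) (z = u) (x = z) * w'.val (z = u) (y = u) (z = y) =
          w.d * w'.d + (if z = u then w.c * w'.b - w.d * w'.d else 0) +
            (if z = x then w.s * w'.d else 0) + (if z = y then w.d * w'.s else 0) := by
        intro z
        simp only [val]
        by_cases h1 : z = u
        · subst h1
          have h2 : ¬ z = x := fun h => hx h.symm
          have h3 : ¬ z = y := fun h => hy h.symm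
          simp [hx, hy, h2, h3]
        · by_cases h2 : z = x
          · subst h2; simp [h1, hy, hxy]; ring
          · have h4 : ¬ x = z := fun h => h2 h.symm
            by_cases h3 : z = y
            · subst h3; simp [h1, h2, h4, hx]; ring
            · simp [h1, h2, h3, h4, hx, hy]
      rw [Finset.sum_congr rfl (fun z _ => h z)]
      simp only [Finset.sum_add_distrib, Finset.sum_const, Finset.card_univ, Fintype.card_fin,
        nsmul_eq_mul, Finset.sum_ite_eq', Finset.mem_univ, if_true]
      simp only [val, comp, hx, hy, hxy]
      simp only [if_false]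
      ring

/-- the block kernel -/
def blk (n : A) : Ker A :=
  ⟨0, (n - 2) ^ 2, (n - 2) ^ 2, n ^ 2 - 5 * n + 7, -(n ^ 2 - 5 * n + 7)⟩

lemma map_blk {B : Type} [CommRing B] (φ : A →+* B) (n : A) : (blk n).map φ = blk (φ n) := by
  simp only [blk, map, map_zero, map_pow, map_sub, map_add, map_mul, map_neg, map_ofNat]

lemma map_adj {B : Type} [CommRing B] (φ : A →+* B) : (adj A).map φ = adj B := by
  simp only [adj, map, map_zero, map_one, map_neg]

lemma sum_ne_two {n : ℕ} (a b : Fin n) :
    ∑ z : Fin n, (if z ≠ a ∧ z ≠ b then (1 : A) else 0) = (n : A) - 2 + if a = b then 1 else 0 := by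
  have h : ∀ z : Fin n, (if z ≠ a ∧ z ≠ b then (1 : A) else 0) =
      1 - (if z = a then 1 else 0) - (if z = b then 1 else 0) +
        (if z = a then (if a = b then 1 else 0) else 0) := by
    intro z
    by_cases h1 : z = a
    · subst h1; by_cases h2 : z = b <;> simp [h2]
    · by_cases h2 : z = b
      · subst h2; simp [h1]
      · simp [h1, h2]
  simp only [h, Finset.sum_add_distrib, Finset.sum_sub_distrib, Finset.sum_const,
    Finset.card_univ, Fintype.card_fin, nsmul_eq_mul, Finset.sum_ite_eq', Finset.mem_univ, if_true]
  ring

lemma sum_ne_three {n : ℕ} (a b c : Fin n) (hab : a ≠ b) :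
    ∑ z : Fin n, (if z ≠ a ∧ z ≠ b ∧ z ≠ c then (1 : A) else 0) =
      (n : A) - 3 + (if c = a then 1 else 0) + if c = b then 1 else 0 := by
  have h : ∀ z : Fin n, (if z ≠ a ∧ z ≠ b ∧ z ≠ c then (1 : A) else 0) =
      1 - (if z = a then 1 else 0) - (if z = b then 1 else 0) - (if z = c then 1 else 0) +
        (if z = c then ((if c = a then 1 else 0) + if c = b then 1 else 0) else 0) := by
    intro z
    by_cases h1 : z = a
    · subst h1
      by_cases h2 : z = c
      · subst h2; simp [hab]
      · simp [h2, hab]
    · by_cases h2 : z = b
      · subst h2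
        by_cases h3 : z = c
        · subst h3; simp [h1]
        · simp [h1, h3]
      · by_cases h3 : z = c
        · subst h3; simp [h1, h2]
        · simp [h1, h2, h3]
  simp only [h, Finset.sum_add_distrib, Finset.sum_sub_distrib, Finset.sum_const,
    Finset.card_univ, Fintype.card_fin, nsmul_eq_mul, Finset.sum_ite_eq', Finset.mem_univ, if_true]
  ring

/-- properness of a block: far vertices `x y`, near vertices `r t`, centre `u` -/
def okBlk {n : ℕ} (u x y r t : Fin n) : Prop :=
  x ≠ y ∧ r ≠ x ∧ t ≠ y ∧ r ≠ u ∧ t ≠ u ∧ r ≠ t

instance {n : ℕ} (u x y r t : Fin n) : Decidable (okBlk u x y r t) := by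
  unfold okBlk; infer_instance

lemma blk_val {n : ℕ} (x y u : Fin n) :
    ∑ r : Fin n, ∑ t : Fin n, (if okBlk u x y r t then (1 : A) else 0) =
      (blk (n : A)).val (x = u) (y = u) (x = y) := by
  classical
  by_cases hxy : x = y
  · subst hxy
    have : ∀ r t : Fin n, (if okBlk u x x r t then (1 : A) else 0) = 0 := by
      intro r t
      simp [okBlk]
    simp only [this, Finset.sum_const_zero]
    simp only [val, blk]
    split_ifs <;> simp
  · rw [Finset.sum_comm]
    by_cases hx : x = u
    · have h : ∀ t : Fin n, ∑ r : Fin n, (if okBlk u x y r t then (1 : A) else 0) =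
          ((n : A) - 2) * (if t ≠ u ∧ t ≠ y then 1 else 0) := by
        intro t
        by_cases h1 : t ≠ u ∧ t ≠ y
        · rw [if_pos h1, mul_one]
          have : ∀ r : Fin n, (if okBlk u x y r t then (1 : A) else 0) =
              if r ≠ u ∧ r ≠ t then 1 else 0 := by
            intro r
            congr 1
            simp only [okBlk, hx, eq_iff_iff]
            subst hx
            tauto
          simp only [this]
          rw [sum_ne_two, if_neg (fun h => h1.1 h.symm)]
          ring
        · rw [if_neg h1, mul_zero]
          refine Finset.sum_eq_zero fun r _ => if_neg ?_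
          simp only [okBlk]
          tauto
      simp only [h, ← Finset.mul_sum]
      rw [sum_ne_two]
      have hy : ¬ y = u := fun h => hxy (hx.trans h.symm)
      have hy' : ¬ u = y := fun h => hy h.symm
      simp only [val, blk, hx, hy, hy']
      simp only [if_true, if_false]
      ring
    · by_cases hy : y = u
      · rw [Finset.sum_comm]
        have h : ∀ r : Fin n, ∑ t : Fin n, (if okBlk u x y r t then (1 : A) else 0) =
            ((n : A) - 2) * (if r ≠ u ∧ r ≠ x then 1 else 0) := by
          intro r
          by_cases h1 : r ≠ u ∧ r ≠ x
          · rw [if_pos h1, mul_one]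
            have : ∀ t : Fin n, (if okBlk u x y r t then (1 : A) else 0) =
                if t ≠ u ∧ t ≠ r then 1 else 0 := by
              intro t
              congr 1
              simp only [okBlk, hy, eq_iff_iff]
              subst hy
              constructor
              · rintro ⟨_, _, h3, _, _, h6⟩; exact ⟨h3, fun h => h6 h.symm⟩
              · rintro ⟨h3, h6⟩; exact ⟨hxy, h1.2, h3, h1.1, h3, fun h => h6 h.symm⟩
            simp only [this]
            rw [sum_ne_two, if_neg (fun h => h1.1 h.symm)]
            ring
          · rw [if_neg h1, mul_zero]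
            refine Finset.sum_eq_zero fun t _ => if_neg ?_
            simp only [okBlk]
            tauto
        simp only [h, ← Finset.mul_sum]
        rw [sum_ne_two]
        have hx' : ¬ u = x := fun h => hx h.symm
        simp only [val, blk, hx, hy, hx']
        simp only [if_true, if_false]
        ring
      · have h : ∀ t : Fin n, ∑ r : Fin n, (if okBlk u x y r t then (1 : A) else 0) =
            (if t ≠ y ∧ t ≠ u then ((n : A) - 3) else 0) + if t = x then 1 else 0 := by
          intro t
          by_cases h1 : t ≠ y ∧ t ≠ u
          · rw [if_pos h1]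
            have : ∀ r : Fin n, (if okBlk u x y r t then (1 : A) else 0) =
                if r ≠ x ∧ r ≠ u ∧ r ≠ t then 1 else 0 := by
              intro r
              congr 1
              simp only [okBlk, eq_iff_iff]
              tauto
            simp only [this]
            rw [sum_ne_three _ _ _ hx, if_neg h1.2]
            ring
          · rw [if_neg h1, zero_add]
            have htx : ¬ t = x := by
              rintro rfl
              exact h1 ⟨hxy, hx⟩
            rw [if_neg htx]
            refine Finset.sum_eq_zero fun r _ => if_neg ?_
            simp only [okBlk]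
            tauto
        simp only [h, Finset.sum_add_distrib, Finset.sum_ite_eq', Finset.mem_univ, if_true]
        have h2 : ∑ t : Fin n, (if t ≠ y ∧ t ≠ u then ((n : A) - 3) else 0) =
            ((n : A) - 3) * ∑ t : Fin n, (if t ≠ y ∧ t ≠ u then (1 : A) else 0) := by
          rw [Finset.mul_sum]
          refine Finset.sum_congr rfl fun t _ => ?_
          split_ifs <;> simp
        rw [h2, sum_ne_two, if_neg hy]
        simp only [val, blk, hx, hy, hxy]
        simp only [if_false]
        ring

/-- iterated kernel: `blk, blk ∘ adj ∘ blk, …` -/
def it (n : A) : ℕ → Ker A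
  | 0 => blk n
  | l + 1 => comp n (blk n) (comp n (adj A) (it n l))

lemma map_it {B : Type} [CommRing B] (φ : A →+* B) (n : A) (l : ℕ) :
    (it n l).map φ = it (φ n) l := by
  induction l with
  | zero => exact map_blk φ n
  | succ l ih => simp only [it, map_comp, ih, map_blk, map_adj]

end Ker

end H37.Chrom
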