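import Pool.Agent.H37.Chrom.FamCount

/-!
Evaluation of the partition function for kernels of rank one.
-/

namespace H37.Chrom

open Ker Polynomial

/-- off-diagonal walk numbers: `thD q L` is the number of walks of length `L` between two
different vertices of the complete graph on `q` vertices -/
def thD {A : Type} [CommRing A] (q : A) : ℕ → A
  | 0 => 0
  | L + 1 => (q - 1) * thD q L + (-1) ^ L

lemma thD_map {A B : Type} [CommRing A] [CommRing B] (φ : A →+* B) (q : A) (L : ℕ) :
    φ (thD q L) = thD (φ q) L := by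
  induction L with
  | zero => simp [thD]
  | succ L ih => simp [thD, ih]

lemma q_mul_thD {A : Type} [CommRing A] (q : A) (L : ℕ) :
    q * thD q L = (q - 1) ^ L - (-1) ^ L := by
  induction L with
  | zero => simp [thD]
  | succ L ih =>
    rw [thD, pow_succ, pow_succ]
    linear_combination (q - 1) * ih

/-- the collar factor -/
def fJ {A : Type} [CommRing A] (w : Ker A) (q : A) : A :=
  w.a + (q - 2) * (w.b + w.c) + (q ^ 2 - 3 * q + 3) * w.d

/-- the theta polynomial -/
def thP {A : Type} [CommRing A] (p m : ℕ) (q : A) : A :=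
  q * ((thD q (m + 3) + (-1) ^ (m + 3)) ^ (p + 2) + (q - 1) * thD q (m + 3) ^ (p + 2))

/-- a kernel of rank one -/
def rk {A : Type} [CommRing A] (r1 r2 l1 l2 : A) : Ker A := ⟨r1 * l1, r1 * l2, r2 * l1, r2 * l2, 0⟩

open Classical in
lemma one_factor {A : Type} [CommRing A] {n : ℕ} (r1 r2 l1 l2 : A) {u u' : Fin n} (h : u ≠ u') :
    ∑ z : Fin n × Fin n, (if z.1 = u then l1 else l2) * (if z.1 = z.2 then 0 else 1) *
      (if z.2 = u' then r1 else r2) = fJ (rk r1 r2 l1 l2) (n : A) := by
  rw [Fintype.sum_prod_type]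
  have h1 : ∀ y : Fin n, ∑ x : Fin n, (if y = u then l1 else l2) * (if y = x then 0 else 1) *
      (if x = u' then r1 else r2) =
      (if y = u then l1 else l2) * (r1 + ((n : A) - 1) * r2 - (if y = u' then r1 else r2)) := by
    intro y
    have h2 : ∀ x : Fin n, (if y = u then l1 else l2) * (if y = x then 0 else 1) *
      (if x = u' then r1 else r2) =
        (if y = u then l1 else l2) * (r2 + (if x = u' then r1 - r2 else 0) -
          (if x = y then (if y = u' then r1 else r2) else 0)) := by
      intro x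
      rw [mul_assoc]
      congr 1
      by_cases e1 : x = y
      · subst e1
        by_cases e2 : x = u' <;> simp [e2]
      · have e1' : ¬ y = x := fun h => e1 h.symm
        by_cases e2 : x = u'
        · subst e2; simp [e1, e1']
        · simp [e1, e1', e2]
    rw [Finset.sum_congr rfl (fun x _ => h2 x), ← Finset.mul_sum]
    congr 1
    simp only [Finset.sum_add_distrib, Finset.sum_sub_distrib, Finset.sum_const,
      Finset.card_univ, Fintype.card_fin, nsmul_eq_mul, Finset.sum_ite_eq', Finset.mem_univ,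
      if_true]
    ring
  rw [Finset.sum_congr rfl (fun y _ => h1 y)]
  have h3 : ∀ y : Fin n, (if y = u then l1 else l2) *
      (r1 + ((n : A) - 1) * r2 - (if y = u' then r1 else r2)) =
      l2 * (r1 + ((n : A) - 1) * r2 - r2) +
      (if y = u then (l1 - l2) * (r1 + ((n : A) - 1) * r2 - r2) else 0) +
      (if y = u' then l2 * (r2 - r1) else 0) := by
    intro y
    by_cases e1 : y = u
    · subst e1
      simp [h]
      ring
    · by_cases e2 : y = u'
      · subst e2
        simp [e1]
        ring
      · simp [e1, e2]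
  rw [Finset.sum_congr rfl (fun y _ => h3 y)]
  simp only [Finset.sum_add_distrib, Finset.sum_const,
      Finset.card_univ, Fintype.card_fin, nsmul_eq_mul, Finset.sum_ite_eq', Finset.mem_univ,
      if_true, fJ, rk]
  ring

lemma cen_ne {p m n : ℕ} {φ : Base p m → Fin n} (h : baseOK (fun a b => φ a = φ b))
    (i : Ix p m) : φ (cen i) ≠ φ (cen (nx i)) := by
  obtain ⟨h1, h2, h3⟩ := h
  obtain ⟨f, s⟩ := i
  cases s with
  | left => exact h1 _
  | right => exact h2 _
  | bot j =>
    simp only [nx, Side.next]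
    split_ifs with hj
    · exact h3 f.castSucc ⟨j.val, by omega⟩
    · have : j = Fin.last _ := by ext; simp; omega
      subst this
      exact fun h => h2 f.castSucc h.symm
  | top j =>
    simp only [nx, Side.next]
    split_ifs with hj
    · intro h
      refine h3 f.succ ⟨j.val - 1, by omega⟩ ?_
      have e1 : (⟨j.val - 1, by omega⟩ : Fin (m + 1)).succ = j := by
        ext; simp; omega
      have e2 : (⟨j.val - 1, by omega⟩ : Fin (m + 1)).castSucc = ⟨j.val - 1, by omega⟩ := by
        ext; simp
      rw [e1, e2]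
      exact h.symm
    · have : j = 0 := Fin.ext (by rw [Fin.val_zero]; omega)
      subst this
      exact fun h => h1 f.succ h.symm

/-- regrouping the ends of the sides -/
def regroup (p m n : ℕ) : (Ix p m → Fin n × Fin n) ≃ (Ix p m → Fin n × Fin n) where
  toFun z := fun i => ((z i).2, (z (nx i)).1)
  invFun z := fun i => ((z ((nxPerm p m).symm i)).2, (z i).1)
  left_inv z := by
    funext i
    have : nx ((nxPerm p m).symm i) = i := (nxPerm p m).apply_symm_apply i
    simp only [this]
  right_inv z := by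
    funext i
    have : (nxPerm p m).symm (nx i) = i := (nxPerm p m).symm_apply_apply i
    simp only [this]

open Classical in
lemma rank_one_sum {p m n : ℕ} {A : Type} [CommRing A] (r1 r2 l1 l2 : A)
    {φ : Base p m → Fin n} (h : baseOK (fun a b => φ a = φ b)) :
    ∑ z : Ix p m → Fin n × Fin n,
      (∏ i, (rk r1 r2 l1 l2).val ((z i).1 = φ (cen i)) ((z i).2 = φ (cen i)) ((z i).1 = (z i).2)) *
        ∏ i, (if (z i).2 = (z (nx i)).1 then 0 else 1) =
      fJ (rk r1 r2 l1 l2) (n : A) ^ Fintype.card (Ix p m) := by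
  have h1 : ∀ z : Ix p m → Fin n × Fin n,
      (∏ i, (rk r1 r2 l1 l2).val ((z i).1 = φ (cen i)) ((z i).2 = φ (cen i)) ((z i).1 = (z i).2)) *
        ∏ i, (if (z i).2 = (z (nx i)).1 then 0 else 1) =
      ∏ i, ((if ((regroup p m n z) i).1 = φ (cen i) then l1 else l2) *
        (if ((regroup p m n z) i).1 = ((regroup p m n z) i).2 then 0 else 1) *
        (if ((regroup p m n z) i).2 = φ (cen (nx i)) then r1 else r2)) := by
    intro z
    have h2 : ∀ i, (rk r1 r2 l1 l2).val ((z i).1 = φ (cen i)) ((z i).2 = φ (cen i))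
        ((z i).1 = (z i).2) =
        (if (z i).1 = φ (cen i) then r1 else r2) * (if (z i).2 = φ (cen i) then l1 else l2) := by
      intro i
      simp only [val, rk]
      split_ifs <;> simp
    simp only [h2, Finset.prod_mul_distrib]
    have h3 : ∏ i, (if (z i).1 = φ (cen i) then r1 else r2) =
        ∏ i, (if (z (nx i)).1 = φ (cen (nx i)) then r1 else r2) :=
      (Equiv.prod_comp (nxPerm p m) (fun i => (if (z i).1 = φ (cen i) then r1 else r2))).symm
    rw [h3]
    simp only [regroup, Equiv.coe_fn_mk]
    rw [mul_assoc, mul_comm (∏ i, (if (z (nx i)).1 = φ (cen (nx i)) then r1 else r2))]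
    refine congrArg₂ (· * ·) (congrArg₂ (· * ·) rfl ?_) rfl
    exact Finset.prod_congr rfl fun i _ => ite_eq_ite_of Iff.rfl
  rw [Finset.sum_congr rfl (fun z _ => h1 z)]
  rw [(regroup p m n).sum_comp (fun z => ∏ i, ((if (z i).1 = φ (cen i) then l1 else l2) *
        (if (z i).1 = (z i).2 then 0 else 1) *
        (if (z i).2 = φ (cen (nx i)) then r1 else r2)))]
  have h4 := Finset.prod_univ_sum (fun _ : Ix p m => (Finset.univ : Finset (Fin n × Fin n)))
    (fun i z => (if z.1 = φ (cen i) then l1 else l2) *
        (if z.1 = z.2 then 0 else 1) *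
        (if z.2 = φ (cen (nx i)) then r1 else r2))
  rw [Fintype.piFinset_univ] at h4
  rw [← h4]
  rw [Finset.prod_congr rfl (fun i _ => one_factor r1 r2 l1 l2 (cen_ne h i))]
  rw [Finset.prod_const, Finset.card_univ]

/-- the path in a backbone is properly coloured -/
def pathOK {n k : ℕ} (a b : Fin n) (χ : Fin (k + 1) → Fin n) : Prop :=
  a ≠ χ 0 ∧ b ≠ χ (Fin.last k) ∧ ∀ j : Fin k, χ j.castSucc ≠ χ j.succ

open Classical in
lemma path_count {A : Type} [CommRing A] {n : ℕ} (b : Fin n) (k : ℕ) : ∀ a : Fin n,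
    ∑ χ : Fin (k + 1) → Fin n, (if pathOK a b χ then (1 : A) else 0) =
      thD (n : A) (k + 2) + (if a = b then (-1) ^ (k + 2) else 0) := by
  induction k with
  | zero =>
    intro a
    rw [← (Equiv.funUnique (Fin 1) (Fin n)).symm.sum_comp]
    have h : ∀ c : Fin n, (if pathOK a b ((Equiv.funUnique (Fin 1) (Fin n)).symm c) then (1 : A)
        else 0) = if c ≠ a ∧ c ≠ b then 1 else 0 := by
      intro c
      refine ite_eq_ite_of ?_
      have e : ∀ t, ((Equiv.funUnique (Fin 1) (Fin n)).symm c) t = c := fun t => rfl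
      simp only [pathOK, e]
      constructor
      · rintro ⟨h1, h2, _⟩; exact ⟨h1.symm, h2.symm⟩
      · rintro ⟨h1, h2⟩; exact ⟨h1.symm, h2.symm, fun j => j.elim0⟩
    rw [Finset.sum_congr rfl (fun c _ => h c)]
    have h5 := sum_ne_two (A := A) a b
    have h6 : ∑ c : Fin n, (if c ≠ a ∧ c ≠ b then (1 : A) else 0) =
        (n : A) - 2 + if a = b then 1 else 0 := by
      refine Eq.trans (Finset.sum_congr rfl fun c _ => ite_eq_ite_of Iff.rfl) (h5.trans ?_)
      exact congrArg₂ (· + ·) rfl (ite_eq_ite_of Iff.rfl)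
    rw [h6]
    simp only [thD]
    split_ifs <;> ring
  | succ k ih =>
    intro a
    rw [← (Fin.consEquiv (fun _ => Fin n)).sum_comp]
    rw [Fintype.sum_prod_type]
    have h : ∀ (c : Fin n) (χ : Fin (k + 1) → Fin n),
        (if pathOK a b ((Fin.consEquiv (fun _ => Fin n)) (c, χ)) then (1 : A) else 0) =
          (if a = c then 0 else 1) * (if pathOK c b χ then (1 : A) else 0) := by
      intro c χ
      have e1 : (Fin.consEquiv (fun _ => Fin n)) (c, χ) = (Fin.cons c χ : Fin (k + 2) → Fin n) :=
        rfl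
      rw [e1]
      have e3 : ∀ t : Fin k, (Fin.cons c χ : Fin (k + 2) → Fin n) (t.succ.castSucc) =
          χ t.castSucc := by
        intro t
        rw [← Fin.succ_castSucc, Fin.cons_succ]
      have h1 : pathOK a b (Fin.cons c χ : Fin (k + 2) → Fin n) ↔ a ≠ c ∧ pathOK c b χ := by
        constructor
        · rintro ⟨h1, h2, h3⟩
          refine ⟨by simpa using h1, by simpa using h3 0, ?_, fun t => ?_⟩
          · rwa [← Fin.succ_last, Fin.cons_succ] at h2
          · have := h3 t.succ
            rwa [e3, Fin.cons_succ] at this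
        · rintro ⟨h1, h2, h3, h4⟩
          refine ⟨by simpa using h1, ?_, fun t => ?_⟩
          · rwa [← Fin.succ_last, Fin.cons_succ]
          · refine Fin.cases ?_ (fun t => ?_) t
            · simpa using h2
            · rw [e3, Fin.cons_succ]
              exact h4 t
      have h4 : (if pathOK a b (Fin.cons c χ : Fin (k + 2) → Fin n) then (1 : A) else 0) =
          if a ≠ c ∧ pathOK c b χ then 1 else 0 := ite_eq_ite_of h1
      rw [h4]
      by_cases h2 : a = c <;> by_cases h3 : pathOK c b χ <;> simp [h2, h3]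
    have h' : ∀ c : Fin n, ∑ χ : Fin (k + 1) → Fin n,
        (if pathOK a b ((Fin.consEquiv (fun _ => Fin n)) (c, χ)) then (1 : A) else 0) =
        (if a = c then 0 else 1) *
          (thD (n : A) (k + 2) + (if c = b then (-1) ^ (k + 2) else 0)) := by
      intro c
      rw [Finset.sum_congr rfl (fun χ _ => h c χ), ← Finset.mul_sum, ih]
    rw [Finset.sum_congr rfl (fun c _ => h' c)]
    have h2 : ∀ c : Fin n, (if a = c then (0 : A) else 1) *
          (thD (n : A) (k + 2) + (if c = b then (-1) ^ (k + 2) else 0)) =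
        thD (n : A) (k + 2) + (if c = b then (-1) ^ (k + 2) else 0) -
          (if c = a then (thD (n : A) (k + 2) + (if a = b then (-1) ^ (k + 2) else 0)) else 0) := by
      intro c
      by_cases e1 : c = a
      · subst e1; simp
      · have e1' : ¬ a = c := fun h => e1 h.symm
        simp [e1, e1']
    rw [Finset.sum_congr rfl (fun c _ => h2 c)]
    simp only [Finset.sum_add_distrib, Finset.sum_sub_distrib, Finset.sum_const,
      Finset.card_univ, Fintype.card_fin, nsmul_eq_mul, Finset.sum_ite_eq', Finset.mem_univ,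
      if_true]
    have e : thD (n : A) (k + 1 + 2) = ((n : A) - 1) * thD (n : A) (k + 2) + (-1) ^ (k + 2) := rfl
    rw [e]
    split_ifs <;> ring

/-- colourings of the theta graph -/
def baseEquiv (p m n : ℕ) : (Base p m → Fin n) ≃
    (Bool → Fin n) × (Fin (p + 2) → Fin (m + 2) → Fin n) where
  toFun φ := (fun b => φ (.inl b), fun i j => φ (.inr (i, j)))
  invFun d := fun a => match a with
    | .inl b => d.1 b
    | .inr (i, j) => d.2 i j
  left_inv φ := by
    funext a
    rcases a with b | ⟨i, j⟩ <;> rfl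
  right_inv d := rfl

open Classical in
lemma theta_count {A : Type} [CommRing A] (p m n : ℕ) :
    ∑ φ : Base p m → Fin n, (if baseOK (fun a b => φ a = φ b) then (1 : A) else 0) =
      thP p m (n : A) := by
  rw [← (baseEquiv p m n).symm.sum_comp, Fintype.sum_prod_type]
  have h1 : ∀ (h : Bool → Fin n) (ψ : Fin (p + 2) → Fin (m + 2) → Fin n),
      (if baseOK (fun a b => (baseEquiv p m n).symm (h, ψ) a = (baseEquiv p m n).symm (h, ψ) b)
        then (1 : A) else 0) = ∏ i, (if pathOK (h false) (h true) (ψ i) then 1 else 0) := by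
    intro h ψ
    rw [Finset.prod_ite_zero]
    simp only [Finset.prod_const_one, Finset.mem_univ, true_implies]
    refine ite_eq_ite_of ?_
    constructor
    · rintro ⟨h1, h2, h3⟩ i
      exact ⟨h1 i, h2 i, h3 i⟩
    · intro h4
      exact ⟨fun i => (h4 i).1, fun i => (h4 i).2.1, fun i => (h4 i).2.2⟩
  have h2 : ∀ h : Bool → Fin n, ∑ ψ : Fin (p + 2) → Fin (m + 2) → Fin n,
      (if baseOK (fun a b => (baseEquiv p m n).symm (h, ψ) a = (baseEquiv p m n).symm (h, ψ) b)
        then (1 : A) else 0) =
      (thD (n : A) (m + 3) + (if h false = h true then (-1) ^ (m + 3) else 0)) ^ (p + 2) := by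
    intro h
    rw [Finset.sum_congr rfl (fun ψ _ => h1 h ψ)]
    have h4 := Finset.prod_univ_sum
      (fun _ : Fin (p + 2) => (Finset.univ : Finset (Fin (m + 2) → Fin n)))
      (fun _ χ => (if pathOK (h false) (h true) χ then (1 : A) else 0))
    rw [Fintype.piFinset_univ] at h4
    rw [← h4, path_count, Finset.prod_const, Finset.card_univ, Fintype.card_fin]
  rw [Finset.sum_congr rfl (fun h _ => h2 h)]
  have h3 : ∀ h : Bool → Fin n,
      (thD (n : A) (m + 3) + (if h false = h true then (-1) ^ (m + 3) else 0)) ^ (p + 2) =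
      thD (n : A) (m + 3) ^ (p + 2) + (if h false = h true then
        ((thD (n : A) (m + 3) + (-1) ^ (m + 3)) ^ (p + 2) - thD (n : A) (m + 3) ^ (p + 2))
        else 0) := by
    intro h
    split_ifs <;> ring
  rw [Finset.sum_congr rfl (fun h _ => h3 h)]
  rw [← (Equiv.boolArrowEquivProd (Fin n)).symm.sum_comp, Fintype.sum_prod_type]
  have h5 : ∀ x y : Fin n, thD (n : A) (m + 3) ^ (p + 2) +
      (if ((Equiv.boolArrowEquivProd (Fin n)).symm (x, y)) false =
        ((Equiv.boolArrowEquivProd (Fin n)).symm (x, y)) true then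
        ((thD (n : A) (m + 3) + (-1) ^ (m + 3)) ^ (p + 2) - thD (n : A) (m + 3) ^ (p + 2))
        else 0) = thD (n : A) (m + 3) ^ (p + 2) + (if x = y then
        ((thD (n : A) (m + 3) + (-1) ^ (m + 3)) ^ (p + 2) - thD (n : A) (m + 3) ^ (p + 2))
        else 0) := by
    intro x y
    refine congrArg₂ (· + ·) rfl (ite_eq_ite_of ?_)
    exact Iff.rfl
  rw [Finset.sum_congr rfl (fun x _ => Finset.sum_congr rfl (fun y _ => h5 x y))]
  simp only [Finset.sum_add_distrib,
    Finset.sum_const, Finset.card_univ, Fintype.card_fin, nsmul_eq_mul, Finset.sum_ite_eq,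
    Finset.mem_univ, if_true, thP]
  ring

theorem count_rank_one {A : Type} [CommRing A] (p m n : ℕ) (r1 r2 l1 l2 : A) :
    ∑ g : Sk p m → Fin n, skW (rk r1 r2 l1 l2) (fun a b => g a = g b) =
      thP p m (n : A) * fJ (rk r1 r2 l1 l2) (n : A) ^ Fintype.card (Ix p m) := by
  classical
  rw [sum_skW, ← theta_count, Finset.sum_mul]
  refine Finset.sum_congr rfl fun φ _ => ?_
  by_cases h : baseOK (fun a b => φ a = φ b)
  · rw [if_pos h, one_mul, one_mul, rank_one_sum r1 r2 l1 l2 h]
  · rw [if_neg h, zero_mul, zero_mul]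

lemma fJ_map {A B : Type} [CommRing A] [CommRing B] (f : A →+* B) (w : Ker A) (q : A) :
    f (fJ w q) = fJ (w.map f) (f q) := by
  simp only [fJ, Ker.map, map_add, map_mul, map_sub, map_pow, map_ofNat]

lemma thP_map {A B : Type} [CommRing A] [CommRing B] (f : A →+* B) (p m : ℕ) (q : A) :
    f (thP p m q) = thP p m (f q) := by
  simp [thP, thD_map]

/-- the partition function for rank one kernels -/
theorem Z_rank_one (p m : ℕ) (r1 r2 l1 l2 q : ℂ) :
    Z p m (rk r1 r2 l1 l2) q = thP p m q * fJ (rk r1 r2 l1 l2) q ^ Fintype.card (Ix p m) := by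
  have hmap : ∀ x : ℂ, ((rk r1 r2 l1 l2).map C).map (evalRingHom x) = rk r1 r2 l1 l2 := by
    intro x
    simp [Ker.map, rk]
  have h : setSum (fun s : Setoid (Sk p m) => skW ((rk r1 r2 l1 l2).map C) (fun a b => s a b))
      (X : ℂ[X]) = thP p m X * fJ ((rk r1 r2 l1 l2).map C) X ^ Fintype.card (Ix p m) := by
    refine poly_ext_nat fun n => ?_
    have h1 := setSum_map (evalRingHom (n : ℂ))
      (fun s : Setoid (Sk p m) => skW ((rk r1 r2 l1 l2).map C) (fun a b => s a b)) X
    rw [coe_evalRingHom, eval_X] at h1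
    rw [h1]
    have h2 : ∀ s : Setoid (Sk p m), eval (n : ℂ) (skW ((rk r1 r2 l1 l2).map C)
        (fun a b => s a b)) = skW (rk r1 r2 l1 l2) (fun a b => s a b) := by
      intro s
      have := skW_map (evalRingHom (n : ℂ)) ((rk r1 r2 l1 l2).map C) (fun a b => s a b)
      rw [hmap] at this
      exact this
    simp only [h2]
    rw [setSum_nat]
    refine (count_rank_one p m n r1 r2 l1 l2).trans ?_
    rw [← coe_evalRingHom, map_mul, map_pow, thP_map, fJ_map, hmap, coe_evalRingHom, eval_X]
  have h1 := setSum_map (evalRingHom q)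
      (fun s : Setoid (Sk p m) => skW ((rk r1 r2 l1 l2).map C) (fun a b => s a b)) X
  rw [h] at h1
  have h2 : ∀ s : Setoid (Sk p m), evalRingHom q (skW ((rk r1 r2 l1 l2).map C)
        (fun a b => s a b)) = skW (rk r1 r2 l1 l2) (fun a b => s a b) := by
      intro s
      have := skW_map (evalRingHom q) ((rk r1 r2 l1 l2).map C) (fun a b => s a b)
      rw [hmap] at this
      exact this
  simp only [h2] at h1
  rw [map_mul, map_pow, thP_map, fJ_map, hmap, coe_evalRingHom, eval_X] at h1
  exact h1.symm

end H37.Chrom
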