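import Pool.Agent.H37.Chrom.Local

/-!
Roots of the theta polynomials are dense in `|q - 1| > 1` (Sokal).
-/

namespace H37.Chrom

open Polynomial Metric Set Filter Topology

/-- the quotient of the two walk numbers -/
noncomputable def gM (M : ℕ) (q : ℂ) : ℂ := 1 + q / ((1 - q) ^ M - 1)

lemma pow_ne_one_of {M : ℕ} (hM : M ≠ 0) {q : ℂ} (h : 1 < ‖q - 1‖) : (1 - q) ^ M - 1 ≠ 0 := by
  intro h2
  have h3 : (1 - q) ^ M = 1 := sub_eq_zero.1 h2
  have h4 : ‖(1 - q) ^ M‖ = 1 := by rw [h3]; simp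
  rw [norm_pow, norm_sub_rev] at h4
  have := one_lt_pow₀ h hM
  linarith

lemma thP_zero_of {p m : ℕ} {q : ℂ} (h : 1 < ‖q - 1‖) (hg : gM (m + 3) q ^ (p + 2) = 1 - q) :
    thP p m q = 0 := by
  have hq0 : q ≠ 0 := by
    rintro rfl
    simp at h
  have h1 := q_mul_thD q (m + 3)
  have hne := pow_ne_one_of (M := m + 3) (by omega) h
  have h2 : (1 - q) ^ (m + 3) - 1 = (-1) ^ (m + 3) * (q * thD q (m + 3)) := by
    rw [h1]
    have e1 : (1 - q) ^ (m + 3) = (-1) ^ (m + 3) * (q - 1) ^ (m + 3) := by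
      rw [← mul_pow]; congr 1; ring
    have e2 : ((-1 : ℂ)) ^ (m + 3) * (-1) ^ (m + 3) = 1 := by
      rw [← mul_pow]; norm_num
    rw [e1]
    linear_combination e2
  have hD : thD q (m + 3) ≠ 0 := by
    intro h0
    rw [h2, h0] at hne
    simp at hne
  have e2 : ((-1 : ℂ)) ^ (m + 3) * (-1) ^ (m + 3) = 1 := by
    rw [← mul_pow]; norm_num
  have hs : ((-1 : ℂ)) ^ (m + 3) ≠ 0 := pow_ne_zero _ (by norm_num)
  have h3 : gM (m + 3) q = (thD q (m + 3) + (-1) ^ (m + 3)) / thD q (m + 3) := by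
    rw [gM, h2]
    field_simp
    linear_combination -e2
  rw [h3, div_pow, div_eq_iff (pow_ne_zero _ hD)] at hg
  rw [thP, hg]
  ring

lemma gM_diff {M : ℕ} (hM : M ≠ 0) {S : Set ℂ} (hS : ∀ q ∈ S, 1 < ‖q - 1‖) :
    DifferentiableOn ℂ (gM M) S := by
  have : DifferentiableOn ℂ (fun q : ℂ => 1 + q / ((1 - q) ^ M - 1)) S := by
    refine DifferentiableOn.add (differentiableOn_const _) ?_
    refine DifferentiableOn.div differentiableOn_id (by fun_prop) ?_
    intro q hq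
    exact pow_ne_one_of hM (hS q hq)
  exact this

/-- points where the quotient has modulus larger or smaller than one -/
lemma exists_side {q0 : ℂ} (h : 1 < ‖q0 - 1‖) {s0 : ℝ} (hs0 : s0 = 1 ∨ s0 = -1) {r : ℝ}
    (hr : 0 < r) : ∀ᶠ M : ℕ in atTop, ∃ q ∈ ball q0 r, 0 < s0 * (‖gM M q‖ ^ 2 - 1) := by
  set a0 : ℂ := q0 - 1 with ha0
  set R : ℝ := ‖a0‖ with hR
  have hR0 : 0 < R := lt_trans one_pos h
  have hq0 : q0 ≠ 0 := by
    rintro rfl
    rw [hR, ha0] at h
    simp at h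
  have hq0n : 0 < ‖q0‖ := norm_pos_iff.2 hq0
  have ha0ne : a0 ≠ 0 := norm_pos_iff.1 hR0
  set s : ℂ := s0 * (q0 / ‖q0‖) with hs
  have hs1 : ‖s‖ = 1 := by
    rw [hs, norm_mul, norm_div]
    rcases hs0 with rfl | rfl <;> simp [hq0]
  have hsne : s ≠ 0 := norm_pos_iff.1 (by rw [hs1]; exact one_pos)
  set φ : ℕ → ℝ := fun M => Complex.arg (s * (R : ℂ) ^ M / (-a0) ^ M) with hφ
  have hexp : ∀ M : ℕ, (-a0) ^ M * Complex.exp (φ M * Complex.I) = (R : ℂ) ^ M * s := by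
    intro M
    have h1 := Complex.norm_mul_exp_arg_mul_I (s * (R : ℂ) ^ M / (-a0) ^ M)
    have h2 : ‖s * (R : ℂ) ^ M / (-a0) ^ M‖ = 1 := by
      rw [norm_div, norm_mul, norm_pow, norm_pow, norm_neg, hs1, Complex.norm_real,
        Real.norm_of_nonneg hR0.le, one_mul, div_self]
      exact pow_ne_zero _ hR0.ne'
    rw [h2] at h1
    have h3 : Complex.exp (φ M * Complex.I) = s * (R : ℂ) ^ M / (-a0) ^ M := by
      rw [← h1]; simp [hφ]
    rw [h3, mul_div_cancel₀ _ (pow_ne_zero _ (neg_ne_zero.2 ha0ne))]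
    ring
  set qq : ℕ → ℂ := fun M => 1 + a0 * Complex.exp (φ M / M * Complex.I) with hqq
  have hφb : ∀ M, |φ M| ≤ Real.pi := fun M => Complex.abs_arg_le_pi _
  have hφ0 : Tendsto (fun M : ℕ => φ M / (M : ℝ)) atTop (𝓝 0) := by
    refine squeeze_zero_norm (a := fun M : ℕ => Real.pi / (M : ℝ)) ?_ ?_
    · intro M
      rw [norm_div, Real.norm_natCast]
      exact div_le_div_of_nonneg_right (hφb M) (Nat.cast_nonneg _)
    · exact tendsto_const_div_atTop_nhds_zero_nat _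
  have hqlim : Tendsto qq atTop (𝓝 q0) := by
    have h1 : Tendsto (fun M : ℕ => 1 + a0 * Complex.exp (((φ M / (M : ℝ) : ℝ) : ℂ) * Complex.I))
        atTop (𝓝 (1 + a0 * Complex.exp (((0 : ℝ) : ℂ) * Complex.I))) := by
      refine Tendsto.const_add _ (Tendsto.const_mul _ ?_)
      have hc : Continuous (fun x : ℝ => Complex.exp ((x : ℂ) * Complex.I)) := by fun_prop
      exact (hc.tendsto 0).comp hφ0
    have h2 : 1 + a0 * Complex.exp (((0 : ℝ) : ℂ) * Complex.I) = q0 := by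
      simp [ha0]
    rw [h2] at h1
    refine h1.congr fun M => ?_
    simp [hqq]
  have hinv : Tendsto (fun M : ℕ => (R⁻¹ : ℝ) ^ M) atTop (𝓝 0) :=
    tendsto_pow_atTop_nhds_zero_of_lt_one (by positivity) (inv_lt_one_of_one_lt₀ h)
  set v : ℕ → ℂ := fun M => qq M / (s - ((R⁻¹ : ℝ) ^ M : ℝ)) with hv
  have hvlim : Tendsto v atTop (𝓝 (q0 / s)) := by
    refine Tendsto.div hqlim ?_ hsne
    have : Tendsto (fun M : ℕ => s - (((R⁻¹ : ℝ) ^ M : ℝ) : ℂ)) atTop (𝓝 (s - ((0 : ℝ) : ℂ))) :=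
      Tendsto.const_sub _ ((Complex.continuous_ofReal.tendsto 0).comp hinv)
    simpa using this
  have hval : q0 / s = ((s0 * ‖q0‖ : ℝ) : ℂ) := by
    have hq0c : (‖q0‖ : ℂ) ≠ 0 := by exact_mod_cast hq0n.ne'
    rw [hs]
    rcases hs0 with rfl | rfl
    · push_cast
      field_simp
    · push_cast
      field_simp
  have hlim : Tendsto (fun M : ℕ => s0 * (2 * (v M).re + (R⁻¹ : ℝ) ^ M * ‖v M‖ ^ 2)) atTop
      (𝓝 (s0 * (2 * (s0 * ‖q0‖) + 0 * ‖q0 / s‖ ^ 2))) := by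
    refine Tendsto.const_mul _ (Tendsto.add (Tendsto.const_mul _ ?_) (hinv.mul (hvlim.norm.pow 2)))
    have : Tendsto (fun M => (v M).re) atTop (𝓝 (q0 / s).re) :=
      (Complex.continuous_re.tendsto _).comp hvlim
    rw [hval, Complex.ofReal_re] at this
    exact this
  have hpos : 0 < s0 * (2 * (s0 * ‖q0‖) + 0 * ‖q0 / s‖ ^ 2) := by
    rcases hs0 with rfl | rfl <;> simp [hq0]
  have hev1 := hlim.eventually (lt_mem_nhds hpos)
  have hev2 := hqlim.eventually (ball_mem_nhds q0 hr)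
  filter_upwards [hev1, hev2, eventually_ge_atTop 1] with M h1 h2 hM
  refine ⟨qq M, h2, ?_⟩
  have hM0 : (M : ℂ) ≠ 0 := by exact_mod_cast (by omega : M ≠ 0)
  have hpw : (1 - qq M) ^ M = (R : ℂ) ^ M * s := by
    have e1 : 1 - qq M = -a0 * Complex.exp (φ M / M * Complex.I) := by
      simp only [hqq]; ring
    rw [e1, mul_pow, ← Complex.exp_nat_mul, ← hexp M]
    congr 2
    field_simp
  have hRM : ((R : ℂ)) ^ M ≠ 0 := pow_ne_zero _ (by exact_mod_cast hR0.ne')
  have hden : s - (((R⁻¹ : ℝ) ^ M : ℝ) : ℂ) ≠ 0 := by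
    intro h0
    have h3 : s = (((R⁻¹ : ℝ) ^ M : ℝ) : ℂ) := sub_eq_zero.1 h0
    have h4 : ‖s‖ < 1 := by
      rw [h3, Complex.norm_real, norm_pow, Real.norm_of_nonneg (by positivity)]
      exact pow_lt_one₀ (by positivity) (inv_lt_one_of_one_lt₀ h) (by omega)
    rw [hs1] at h4
    exact lt_irrefl _ h4
  have hu : qq M / ((1 - qq M) ^ M - 1) = (((R⁻¹ : ℝ) ^ M : ℝ) : ℂ) * v M := by
    rw [hpw, hv]
    have e1 : (R : ℂ) ^ M * s - 1 = (R : ℂ) ^ M * (s - (((R⁻¹ : ℝ) ^ M : ℝ) : ℂ)) := by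
      push_cast
      rw [mul_sub, ← mul_pow, mul_inv_cancel₀ (by exact_mod_cast hR0.ne'), one_pow]
    rw [e1]
    push_cast
    rw [inv_pow]
    push_cast at hden
    rw [inv_pow] at hden
    field_simp
  have hnorm : ‖gM M (qq M)‖ ^ 2 - 1 = (R⁻¹ : ℝ) ^ M * (2 * (v M).re + (R⁻¹ : ℝ) ^ M * ‖v M‖ ^ 2) := by
    rw [gM, hu, ← Complex.normSq_eq_norm_sq, ← Complex.normSq_eq_norm_sq, Complex.normSq_apply,
      Complex.normSq_apply]
    simp only [Complex.add_re, Complex.one_re, Complex.add_im, Complex.one_im,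
      Complex.re_ofReal_mul, Complex.im_ofReal_mul]
    ring
  rw [hnorm]
  have hp : 0 < (R⁻¹ : ℝ) ^ M := by positivity
  have : s0 * ((R⁻¹ : ℝ) ^ M * (2 * (v M).re + (R⁻¹ : ℝ) ^ M * ‖v M‖ ^ 2)) =
      (R⁻¹ : ℝ) ^ M * (s0 * (2 * (v M).re + (R⁻¹ : ℝ) ^ M * ‖v M‖ ^ 2)) := by ring
  rw [this]
  exact mul_pos hp h1

lemma exists_unit {q0 : ℂ} (h : 1 < ‖q0 - 1‖) {r : ℝ} (hr : 0 < r)
    (hr2 : ∀ q ∈ ball q0 r, 1 < ‖q - 1‖) :
    ∃ M, 3 ≤ M ∧ ∃ x0 ∈ ball q0 r, ‖gM M x0‖ = 1 := by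
  have h1 := exists_side h (Or.inl rfl) hr
  have h2 := exists_side h (s0 := -1) (Or.inr rfl) hr
  obtain ⟨M, ⟨⟨x, hx, hx2⟩, ⟨y, hy, hy2⟩⟩, hM⟩ :=
    ((h1.and h2).and (eventually_ge_atTop 3)).exists
  refine ⟨M, hM, ?_⟩
  have hc : ContinuousOn (fun q => ‖gM M q‖) (ball q0 r) :=
    (gM_diff (by omega) hr2).continuousOn.norm
  have hconn : IsPreconnected (ball q0 r) := (convex_ball q0 r).isPreconnected
  have hx3 : 1 < ‖gM M x‖ := by
    have h5 : 1 < ‖gM M x‖ ^ 2 := by linarith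
    have h6 : 0 ≤ ‖gM M x‖ := norm_nonneg _
    nlinarith
  have hy3 : ‖gM M y‖ < 1 := by
    have h5 : ‖gM M y‖ ^ 2 < 1 := by linarith
    have h6 : 0 ≤ ‖gM M y‖ := norm_nonneg _
    nlinarith
  have := hconn.intermediate_value hy hx hc
  obtain ⟨z, hz, hz1⟩ := this ⟨hy3.le, hx3.le⟩
  exact ⟨z, hz, hz1⟩

/-- Sokal's theorem on the theta graphs -/
theorem theta_dense {q0 : ℂ} (h : 1 < ‖q0 - 1‖) {ε : ℝ} (hε : 0 < ε) :
    ∃ q1, ‖q1 - q0‖ < ε ∧ ∃ p m, thP p m q1 = 0 := by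
  obtain ⟨r, hr, hr1, hr2⟩ : ∃ r, 0 < r ∧ r ≤ ε ∧ ∀ q ∈ ball q0 r, 1 < ‖q - 1‖ := by
    have ho : IsOpen {q : ℂ | 1 < ‖q - 1‖} := isOpen_lt continuous_const (by fun_prop)
    obtain ⟨r, hr, hrs⟩ := Metric.isOpen_iff.1 ho q0 h
    refine ⟨min r ε, lt_min hr hε, min_le_right _ _, ?_⟩
    intro q hq
    exact hrs (ball_subset_ball (min_le_left _ _) hq)
  obtain ⟨M, hM, x0, hx0, hx1⟩ := exists_unit h hr hr2
  set c := gM M x0 with hc
  have hcne : c ≠ 0 := norm_pos_iff.1 (by rw [hx1]; exact one_pos)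
  have hx0' : 1 - x0 ≠ 0 := by
    intro h0
    have := hr2 x0 hx0
    rw [norm_sub_rev, h0] at this
    simp at this
    linarith
  have hgd := gM_diff (M := M) (by omega) hr2
  have hcont := hgd.continuousOn
  -- the open set where the logarithms are defined
  have hU1 : ∀ᶠ q in 𝓝 x0, q ∈ ball q0 r := isOpen_ball.mem_nhds hx0
  have hca : ContinuousAt (fun q => gM M q / c) x0 :=
    (hcont.continuousAt (isOpen_ball.mem_nhds hx0)).div_const c
  have hU2 : ∀ᶠ q in 𝓝 x0, gM M q / c ∈ Complex.slitPlane := by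
    refine hca.eventually (Complex.isOpen_slitPlane.mem_nhds ?_)
    show gM M x0 / c ∈ Complex.slitPlane
    rw [← hc, div_self hcne]
    exact Complex.one_mem_slitPlane
  have hcb : ContinuousAt (fun q : ℂ => (1 - q) / (1 - x0)) x0 := by fun_prop
  have hU3 : ∀ᶠ q in 𝓝 x0, (1 - q) / (1 - x0) ∈ Complex.slitPlane := by
    refine hcb.eventually (Complex.isOpen_slitPlane.mem_nhds ?_)
    show (1 - x0) / (1 - x0) ∈ Complex.slitPlane
    rw [div_self hx0']
    exact Complex.one_mem_slitPlane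
  obtain ⟨ρ, hρ, hρs⟩ := Metric.eventually_nhds_iff_ball.1 (hU1.and (hU2.and hU3))
  -- a polynomial controlling `gM M q = c`
  set PP : ℂ[X] := C (1 - c) * ((1 - X) ^ M - 1) + X with hPP
  have hPPne : PP ≠ 0 := by
    intro h0
    have : PP.eval 1 = 0 := by rw [h0]; simp
    have hM0 : M ≠ 0 := by omega
    simp only [hPP, eval_add, eval_mul, eval_C, eval_sub, eval_pow, eval_one, eval_X, sub_self,
      zero_pow hM0] at this
    exact hcne (by linear_combination this)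
  obtain ⟨δ, hδ, hδρ, hsph⟩ := exists_radius PP hPPne x0 hρ
  have hKball : ∀ q ∈ closedBall x0 δ, q ∈ ball q0 r ∧ gM M q / c ∈ Complex.slitPlane ∧
      (1 - q) / (1 - x0) ∈ Complex.slitPlane := fun q hq =>
    hρs q (closedBall_subset_ball hδρ hq)
  set L : ℂ → ℂ := fun q => Complex.log (gM M q / c) with hL
  set ℓ : ℂ → ℂ := fun q => Complex.log ((1 - q) / (1 - x0)) + Complex.log (1 - x0) with hℓ
  have hLd : DifferentiableOn ℂ L (closedBall x0 δ) := by
    refine DifferentiableOn.clog ?_ (fun q hq => (hKball q hq).2.1)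
    exact (hgd.mono (fun q hq => (hKball q hq).1)).div_const c
  have hℓd : DifferentiableOn ℂ ℓ (closedBall x0 δ) := by
    refine DifferentiableOn.add (DifferentiableOn.clog ?_ (fun q hq => (hKball q hq).2.2))
      (differentiableOn_const _)
    fun_prop
  have hL0 : L x0 = 0 := by
    simp only [hL]
    rw [← hc, div_self hcne, Complex.log_one]
  have hLs : ∀ z ∈ sphere x0 δ, L z ≠ 0 := by
    intro z hz h0
    have hzK := hKball z (sphere_subset_closedBall hz)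
    have h1 : gM M z / c = 1 := by
      rw [← Complex.exp_log (Complex.slitPlane_ne_zero hzK.2.1)]
      simp only [hL] at h0
      rw [h0, Complex.exp_zero]
    have h2 : gM M z = c := by
      rw [div_eq_iff hcne, one_mul] at h1
      exact h1
    refine hsph z hz ?_
    have hne := pow_ne_one_of (M := M) (by omega) (hr2 z hzK.1)
    rw [gM] at h2
    have h3 : z = (c - 1) * ((1 - z) ^ M - 1) := by
      rw [← h2]
      field_simp
      ring
    simp only [hPP, eval_add, eval_mul, eval_C, eval_sub, eval_pow, eval_one, eval_X]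
    linear_combination h3
  obtain ⟨x1, hx1s, hmin⟩ := (isCompact_sphere x0 δ).exists_isMinOn
    (NormedSpace.sphere_nonempty.mpr hδ.le) (hLd.continuousOn.mono sphere_subset_closedBall).norm
  have hη : 0 < ‖L x1‖ := norm_pos_iff.2 (hLs x1 hx1s)
  obtain ⟨x2, hx2s, hmax⟩ := (isCompact_closedBall x0 δ).exists_isMaxOn
    ⟨x0, mem_closedBall_self hδ.le⟩ hℓd.continuousOn.norm
  set θ : ℝ := Complex.arg c with hθ
  have hcexp : c = Complex.exp (θ * Complex.I) := by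
    have := Complex.norm_mul_exp_arg_mul_I c
    rw [hx1] at this
    rw [← this]
    simp [hθ]
  -- choose the number of paths
  obtain ⟨P, hP⟩ := exists_nat_gt (max 2 (2 * (‖ℓ x2‖ + 2 * Real.pi) / ‖L x1‖))
  have hP2 : (2 : ℝ) < P := lt_of_le_of_lt (le_max_left _ _) hP
  have hP3 : 2 * (‖ℓ x2‖ + 2 * Real.pi) / ‖L x1‖ < P := lt_of_le_of_lt (le_max_right _ _) hP
  have hPpos : (0 : ℝ) < P := by linarith
  have hPnat : 2 < P := by exact_mod_cast hP2
  set k : ℤ := round (P * θ / (2 * Real.pi)) with hk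
  set τ : ℝ := 2 * Real.pi * k - P * θ with hτ
  have hτb : |τ| ≤ 2 * Real.pi := by
    have h1 := abs_sub_round (P * θ / (2 * Real.pi))
    have h2 : τ = -(2 * Real.pi) * (P * θ / (2 * Real.pi) - round (P * θ / (2 * Real.pi))) := by
      rw [hτ, hk]
      field_simp
      ring
    rw [h2, abs_mul, abs_neg, abs_of_pos (by positivity : (0 : ℝ) < 2 * Real.pi)]
    have hpi := Real.pi_pos
    nlinarith
  set hh : ℂ → ℂ := fun q => L q - (ℓ q + τ * Complex.I) / P with hhh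
  have hPc : (P : ℂ) ≠ 0 := by exact_mod_cast hPpos.ne'
  have hhd : DifferentiableOn ℂ hh (closedBall x0 δ) :=
    hLd.sub ((hℓd.add (differentiableOn_const _)).div_const _)
  obtain ⟨q1, hq1, hz⟩ := zero_of_close hδ hη hhd hL0 (fun z hz => hmin hz) (fun z hz => by
    have h1 : hh z - L z = -((ℓ z + τ * Complex.I) / P) := by simp only [hhh]; ring
    rw [h1, norm_neg, norm_div, Complex.norm_natCast, div_lt_iff₀ hPpos]
    have h2 : ‖ℓ z + τ * Complex.I‖ ≤ ‖ℓ x2‖ + 2 * Real.pi := by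
      refine (norm_add_le _ _).trans (add_le_add (hmax hz) ?_)
      rw [norm_mul, Complex.norm_I, mul_one, Complex.norm_real]
      exact hτb
    have h3 : 2 * (‖ℓ x2‖ + 2 * Real.pi) < P * ‖L x1‖ := (div_lt_iff₀ hη).1 hP3
    linarith)
  have hq1K := hKball q1 hq1
  refine ⟨q1, ?_, P - 2, M - 3, ?_⟩
  · have := hq1K.1
    rw [mem_ball, dist_eq_norm] at this
    exact this.trans_le hr1
  · refine thP_zero_of (hr2 q1 hq1K.1) ?_
    rw [show M - 3 + 3 = M by omega, show P - 2 + 2 = P by omega]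
    have h1 : P * L q1 = ℓ q1 + τ * Complex.I := by
      have : L q1 = (ℓ q1 + τ * Complex.I) / P := sub_eq_zero.1 hz
      rw [this]
      field_simp
    have h2 : Complex.exp (P * L q1) = (gM M q1 / c) ^ P := by
      rw [Complex.exp_nat_mul]
      simp only [hL]
      rw [Complex.exp_log (Complex.slitPlane_ne_zero hq1K.2.1)]
    have h3 : Complex.exp (ℓ q1) = 1 - q1 := by
      simp only [hℓ]
      rw [Complex.exp_add, Complex.exp_log (Complex.slitPlane_ne_zero hq1K.2.2),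
        Complex.exp_log hx0']
      field_simp
    have h4 : Complex.exp (τ * Complex.I) = (c ^ P)⁻¹ := by
      rw [hτ, hcexp, ← Complex.exp_nat_mul, ← Complex.exp_neg]
      have e1 : (((2 * Real.pi * k - P * θ : ℝ)) : ℂ) * Complex.I =
          -(P * (θ * Complex.I)) + k * (2 * Real.pi * Complex.I) := by
        push_cast
        ring
      rw [e1, Complex.exp_add, Complex.exp_int_mul_two_pi_mul_I, mul_one]
    rw [h1, Complex.exp_add, h3, h4, div_pow] at h2
    have hcP : c ^ P ≠ 0 := pow_ne_zero _ hcne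
    field_simp at h2
    exact h2.symm

end H37.Chrom
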